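import Pool.Agent.MP_a17da5_co.PC.St

/-!
Planar cover graphs: unfolding a plane acyclic digraph into rooted layers.
-/

set_option autoImplicit false

namespace Pool.Agent.MP_a17da5_co.PC

open Relation

namespace AllX

variable {V : Type}

/-- A connected down-closed blob in a plane acyclic digraph. -/
def Good (A : V → V → Prop) (K : Set V) : Prop :=
  (∀ a b, A a b → b ∈ K → a ∈ K) ∧ Plane A ∧ (∃ τ : V → ℤ, ∀ a b, A a b → τ a < τ b) ∧
    ∃ x ∈ K, ∃ dep : V → ℤ, ∀ v ∈ K, v ≠ x → ∃ u ∈ K, (A u v ∨ A v u) ∧ dep u < dep v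

/-- A height which is the depth on the blob and follows the arcs outside of it. -/
theorem exists_height [Fintype V] {A : V → V → Prop} (K : Set V) {τ : V → ℤ}
    (hτ : ∀ a b, A a b → τ a < τ b) (dep : V → ℤ) :
    ∃ h : V → ℤ, (∀ v ∈ K, h v = dep v) ∧ ∀ u v, A u v → v ∉ K → h u < h v := by
  classical
  obtain ⟨B, hB⟩ := (Set.finite_range fun p : V × V => dep p.1 - τ p.2).bddAbove
  refine ⟨fun v => if v ∈ K then dep v else B + 1 + τ v, fun v hv => if_pos hv,
    fun u v h hv => ?_⟩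
  have h1 : dep u - τ v ≤ B := hB ⟨(u, v), rfl⟩
  have h2 := hτ u v h
  simp only [if_neg hv]
  split_ifs <;> omega

theorem good_step [Fintype V] {A : V → V → Prop} {K : Set V} (h : Good A K) :
    Good (flip A) {v | ∃ k ∈ K, ReflTransGen A k v} := by
  obtain ⟨-, ⟨D, _, G, g1, g2⟩, ⟨τ, hτ⟩, x, hx, dep, hd⟩ := h
  obtain ⟨h, h1, h2⟩ := exists_height K hτ dep
  refine ⟨fun a b hab ⟨k, hk, hb⟩ => ⟨k, hk, hb.tail hab⟩, ⟨D, _, G, g1, fun a b hab => ?_⟩,
    ⟨fun v => - τ v, fun a b hab => neg_lt_neg (hτ b a hab)⟩, x, ⟨x, hx, .refl⟩, h, ?_⟩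
  · obtain ⟨d, d1, d2⟩ := g2 b a hab
    exact ⟨G.op d, d2, by rw [G.op_op, d1]⟩
  · rintro v ⟨k, hk, hv⟩ hne
    by_cases hK : v ∈ K
    · obtain ⟨u, u1, u2, u3⟩ := hd v hK hne
      exact ⟨u, ⟨u, u1, .refl⟩, u2.symm, by rw [h1 u u1, h1 v hK]; exact u3⟩
    · rcases hv.cases_tail with e | ⟨u, u1, u2⟩
      · exact absurd (e ▸ hk) hK
      · exact ⟨u, ⟨k, hk, u1⟩, Or.inr u2, h2 u v u2 hK⟩

theorem sumOn_opt {D : Type} [Fintype D] {Y : Option D → ZMod 2} (h : Y none = 0)
    (P : Option D → Prop) : sumOn Y P = sumOn (fun d => Y (some d)) (fun d => P (some d)) := by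
  unfold sumOn
  rw [Fintype.sum_option, h, mul_zero, zero_add]

theorem sum_sumOn [Fintype V] {D : Type} [Fintype D] (Y : D → ZMod 2) (f : D → V) :
    ∑ v, sumOn Y (fun d => f d = v) = ∑ d, Y d := by
  unfold sumOn
  rw [Finset.sum_comm]
  refine Finset.sum_congr rfl fun d _ => ?_
  rw [Finset.sum_eq_single (f d), chi_pos rfl, one_mul]
  · intro v _ hv
    rw [chi_neg hv.symm, zero_mul]
  · intro hv
    exact absurd (Finset.mem_univ _) hv

/-- A plane structure with an extra half edge at `x`. -/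
def addHalf [Fintype V] {D : Type} [Fintype D] (G : PL V D) (hG : ∀ d, G.op d ≠ d) (x : V) :
    PL V (Option D) where
  vt d := d.elim x G.vt
  op d := d.map G.op
  rk d := d.elim 1 fun d => 2 * G.rk d
  op_op d := by cases d <;> simp [G.op_op]
  rk_inj d e h1 h2 := by
    cases d <;> cases e <;> simp only [Option.elim] at h1 h2
    · rfl
    · omega
    · omega
    · rw [G.rk_inj _ _ h1 (by omega)]
  jordan Y h1 h2 := by
    have h0 : Y none = 0 := by
      have a := sum_sumOn Y (fun d => d.elim x G.vt)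
      rw [Finset.sum_eq_zero fun v _ => h2 v, Fintype.sum_option,
        Finset.sum_involution (fun d _ => G.op d) (fun d _ => ?_) (fun d _ _ => hG d)
          (fun d _ => Finset.mem_univ _) (fun d _ => G.op_op d), add_zero] at a
      · exact a.symm
      · rw [← h1 (some d)]
        exact z2_add_self _
    obtain ⟨w, hw⟩ := G.jordan (fun d => Y (some d)) (fun d => h1 (some d))
      (fun v => (sumOn_opt h0 _).symm.trans (h2 v))
    refine ⟨w, fun d => ?_⟩
    rw [sumOn_opt h0, sumOn_opt h0]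
    cases d with
    | none =>
      refine congrArg (w x + ·) (sumOn_congr fun e _ => and_congr_right fun _ => ?_)
      simp only [Option.elim, Option.map]
      omega
    | some d =>
      refine Eq.trans ?_ ((hw d).trans ?_)
      · refine congrArg (w (G.vt d) + ·) (sumOn_congr fun e _ => and_congr_right fun _ => ?_)
        simp only [Option.elim]
        omega
      · refine congrArg (w (G.vt (G.op d)) + ·)
          (sumOn_congr fun e _ => and_congr_right fun _ => ?_)
        simp only [Option.elim, Option.map]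
        omega

/-- The rooted structure of a blob. -/
theorem exists_rp [Fintype V] {A : V → V → Prop} {K : Set V} (h : Good A K) :
    ∃ (D : Type) (_ : Fintype D) (R : RP V D),
      (∀ b, R.green b ↔ ∃ k ∈ K, ReflTransGen A k b) ∧
        ∀ a b, a ∉ K → (R.le a b ↔ ReflTransGen A a b) := by
  obtain ⟨hK, ⟨D, _, G, g1, g2⟩, ⟨τ, hτ⟩, x, hx, dep, hd⟩ := h
  obtain ⟨h, h1, h2⟩ := exists_height K hτ dep
  obtain ⟨F, hF⟩ : ∃ F : V → V → Prop, ∀ a b, F a b ↔
      (a ∈ K ∧ b ∈ K ∧ dep a < dep b) ∨ (A a b ∧ b ∉ K) := ⟨_, fun _ _ => Iff.rfl⟩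
  obtain ⟨R, r0, r1, r2⟩ : ∃ R : RP V (Option D), R.root = x ∧ (∀ a b, R.adj a b → F a b) ∧
      ∀ a b, A a b ∨ A b a → F a b → R.adj a b := by
    refine ⟨{ addHalf G g1 x with
      fw := fun d => F ((addHalf G g1 x).vt d) ((addHalf G g1 x).vt ((addHalf G g1 x).op d))
      τ := h, τ_lt := fun d k => ?_, d0 := none, op_d0 := rfl }, rfl, ?_, ?_⟩
    · rcases (hF _ _).1 k with ⟨k1, k2, k3⟩ | ⟨k1, k2⟩
      · rw [h1 _ k1, h1 _ k2]
        exact k3
      · exact h2 _ _ k1 k2
    · rintro a b ⟨d, k, rfl, rfl⟩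
      exact k
    · intro a b k f
      obtain ⟨d, rfl, rfl⟩ : ∃ d, G.vt d = a ∧ G.vt (G.op d) = b := by
        rcases k with k | k
        · exact g2 a b k
        · obtain ⟨d, d1, d2⟩ := g2 b a k
          exact ⟨G.op d, d2, by rw [G.op_op, d1]⟩
      exact ⟨some d, f, rfl, rfl⟩
  have gK : ∀ v ∈ K, R.green v := by
    have : IsTrans V (fun u v => dep u < dep v) := ⟨fun _ _ _ => lt_trans⟩
    have : Std.Irrefl (fun u v : V => dep u < dep v) := ⟨fun _ => lt_irrefl _⟩
    intro v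
    induction v using
      (Finite.wellFounded_of_trans_of_irrefl (fun u v : V => dep u < dep v)).induction with
    | _ v ih =>
      intro hv
      by_cases e : v = x
      · rw [e, ← r0]
        exact R.green_root
      · obtain ⟨u, u1, u2, u3⟩ := hd v hv e
        exact (ih u u3 u1).le (r2 u v u2 ((hF _ _).2 (Or.inl ⟨u1, hv, u3⟩))).le
  have out : ∀ u v, A u v → v ∉ K → R.adj u v :=
    fun u v k hv => r2 u v (Or.inl k) ((hF _ _).2 (Or.inr ⟨k, hv⟩))
  refine ⟨_, _, R, fun b => ⟨fun k => ?_, ?_⟩,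
    fun a b ha => ⟨fun k => ?_, fun k => ?_⟩⟩
  · induction k with
    | refl => exact ⟨x, hx, by rw [r0]⟩
    | tail _ k ih =>
      obtain ⟨y, y1, y2⟩ := ih
      rcases (hF _ _).1 (r1 _ _ k) with k | k
      · exact ⟨_, k.2.1, .refl⟩
      · exact ⟨y, y1, y2.tail k.1⟩
  · rintro ⟨k, hk, hb⟩
    induction hb with
    | refl => exact gK k hk
    | @tail u v _ k ih =>
      by_cases hv : v ∈ K
      · exact gK v hv
      · exact ih.le (out u v k hv).le
  · suffices b ∉ K ∧ ReflTransGen A a b from this.2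
    induction k with
    | refl => exact ⟨ha, .refl⟩
    | tail _ k ih =>
      rcases (hF _ _).1 (r1 _ _ k) with k | k
      · exact absurd k.1 ih.1
      · exact ⟨k.2, ih.2.tail k.1⟩
  · suffices b ∉ K ∧ R.le a b from this.2
    induction k with
    | refl => exact ⟨ha, R.le_refl _⟩
    | @tail u v _ k ih =>
      have hv : v ∉ K := fun hv => ih.1 (hK u v k hv)
      exact ⟨hv, ih.2.trans (out u v k hv).le⟩

end AllX

theorem s_all (h : S_rs) : S_all := by
  obtain ⟨N, hN⟩ := h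
  obtain ⟨N', hN'⟩ := layers (3 + (3 + N))
  refine ⟨N', fun V _ A τ hτ hP => hN' V A τ hτ AllX.Good (fun x hx => ?_)
    (fun _ _ => AllX.good_step) fun A' K hG => ?_⟩
  · exact ⟨fun a b hab hb => absurd (hb ▸ hab) (hx a), hP, ⟨τ, hτ⟩, x, rfl, τ,
      fun v hv hne => absurd hv hne⟩
  · obtain ⟨D, _, R, r1, r2⟩ := AllX.exists_rp hG
    refine ((Dec.left (· ∉ K)).and ((Dec.right (· ∉ K)).and (hN V D R))).congr fun a b _ => ?_
    rw [r1]
    exact ⟨fun ⟨k1, k2, k3, k4⟩ => ⟨k1, k3, k2, (r2 a b k1).1 k4⟩,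
      fun ⟨k1, k3, k2, k4⟩ => ⟨k1, k2, k3, (r2 a b k1).2 k4⟩⟩

end Pool.Agent.MP_a17da5_co.PC
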