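import Pool.Agent.MP_a17da5_co.PC.St

/-!
From the local rules of the blocks to their global properties.
-/

set_option autoImplicit false

namespace Pool.Agent.MP_a17da5_co.PC

open Relation RP

namespace BlkX

variable {V D : Type} [Fintype V] [Fintype D] {R : RP V D}

/-- One side of the local rules. -/
structure One (L W : R.Tree) (ρ : D → ℤ) (t : V) (I : V → Prop) : Prop where
  gr : R.green t
  rk : R.Rk ρ
  lex : L.IsLex ρ
  nbd : ∀ x, I x → ¬ Bd L W t x
  per : ∀ u v, R.adj u v → ¬ Bd L W t u → ¬ Bd L W t v → (I u ↔ I v)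
  root : ¬ I R.root
  sd : Side L W ρ t I

variable {L W : R.Tree} {ρ : D → ℤ} {t : V} {I : V → Prop}

theorem one_left (ht : R.green t) (hL : L.IsLex R.rk) (h : Loc L W t I) : One L W R.rk t I :=
  ⟨ht, R.rk_rk, hL, h.nbd, h.per, h.root, h.sl⟩

theorem one_right (ht : R.green t) (hW : W.IsLex (fun d => - R.rk d)) (h : Loc L W t I) :
    One W L (fun d => - R.rk d) t I :=
  ⟨ht, R.rk_neg, hW, fun x hx k => h.nbd x hx k.swap,
    fun u v a b c => h.per u v a (fun k => b k.swap) (fun k => c k.swap), h.root, h.sr⟩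

theorem One.bot (h : One L W ρ t I) {s x : V} (hs : Com L W s t) (hne : s ≠ t) (hx : R.green x) :
    I x → R.le s x := by
  refine L.root_ind (P := fun v => I v → R.le s v) (fun k => absurd k h.root) ?_ hx
  intro v hv hr ih k
  have a := Tree.adj_par (T := L) hv hr
  by_cases hb : Bd L W t (R.hd (L.par v))
  · exact (hb.2.2 s hs hne).trans a.le
  · exact (ih ((h.per _ _ a hb (h.nbd v k)).2 k)).trans a.le

/-- No vertex of the tree path to `t` is inside. -/
theorem One.key (h : One L W ρ t I) {x : V} (ha : L.Anc x t) : ¬ I x := fun k =>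
  h.nbd x k ⟨h.gr, Or.inl ha, fun _ hs hne => h.bot hs hne (ha.green h.gr) k⟩

/-- Above a vertex which is not below `t` the inside does not change. -/
theorem One.up (h : One L W ρ t I) {u v : V} (hu : ¬ R.le u t) (huv : R.le u v) : I u ↔ I v := by
  induction huv with
  | refl => exact Iff.rfl
  | tail h1 h2 ih =>
    refine ih.trans (h.per _ _ h2 (fun k => hu (RP.le.trans h1 k.le)) (fun k => hu ?_))
    exact RP.le.trans (RP.le.trans h1 h2.le) k.le

/-- The path to an inside vertex does not leave the path to `t` on the outer side. -/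
theorem One.not_left (h : One L W ρ t I) {x : V} {f e : D} (hf : L.On t f) (he : L.On x e)
    (hv : R.vt e = R.vt f) (hb : Bt (ρ (L.par (R.vt f))) (ρ e) (ρ f)) : ¬ I x := by
  intro k
  have n1 : ¬ R.le (R.hd e) t := fun k' => h.lex t f e h.gr hf he.1 hv k' hb
  have n2 : ¬ Bd L W t (R.hd e) := fun k' => n1 k'.le
  have i1 : I (R.hd e) := (h.up n1 he.le).2 k
  by_cases hs : Bd L W t (R.vt f)
  · exact h.sd.left f e hf hs hv n2 hb i1
  · have a := adj_hd he.1
    rw [hv] at a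
    exact h.key (hf.anc_vt h.gr) ((h.per _ _ a hs n2).2 i1)

theorem One.ne_rk (h : One L W ρ t I) {d e : D} (hv : R.vt d = R.vt e) (hne : d ≠ e) :
    ρ d ≠ ρ e := fun k => hne (h.rk d e hv k)

/-- An inside vertex lies above `t` on the tree or the path to `t` leaves the path to it first. -/
theorem One.cases (h : One L W ρ t I) {x : V} (hx : R.green x) (k : I x) :
    L.Anc t x ∨ L.Lf ρ t x := by
  rcases L.diverge hx h.gr with a | a | ⟨f, e, k1, k2, k3, k4⟩
  · exact absurd k (h.key a)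
  · exact Or.inl a
  · refine Or.inr ⟨f, e, k1, k2, k3, ?_⟩
    have g := k1.green_vt h.gr
    have n0 : ¬ Bt (ρ (L.par (R.vt f))) (ρ e) (ρ f) := fun b => h.not_left k1 k2 k3.symm b k
    have n1 := h.ne_rk k3 k4
    have n2 := h.ne_rk (L.vt_par _ g).symm (Tree.fw_ne_par (T := L) g k1.1)
    have n3 := h.ne_rk (k3.symm.trans (L.vt_par _ g).symm) (Tree.fw_ne_par (T := L) g k2.1)
    unfold Bt at n0 ⊢
    omega

theorem One.l1a (h : One L W ρ t I) {x : V} (hx : R.green x) (k : I x) (hn : ¬ R.le t x) :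
    L.Lf ρ t x :=
  (h.cases hx k).resolve_left fun a => hn a.le

theorem One.anc (h : One L W ρ t I) {x : V} (k : I x) (hl : R.le t x) : L.Anc t x := by
  have hx := h.gr.le hl
  refine (h.cases hx k).resolve_right ?_
  rintro ⟨f, e, k1, k2, k3, k4⟩
  exact h.lex x e f hx k2 k1.1 k3 (k1.le.trans hl) (k3 ▸ k4)

theorem One.l1b (h : One L W ρ t I) {x b : V} (k : I x) (hl : R.le t x) (hb : L.Anc t b)
    (hne : b ≠ t) (hn : ¬ I b) : L.Lf ρ b x := by
  have hx : t ≠ x := fun a => h.nbd x k (a ▸ bd_self h.gr)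
  obtain ⟨f, f1, f2⟩ := hb.exists_out hne.symm
  obtain ⟨e, e1, e2⟩ := (h.anc k hl).exists_out hx
  have nl : ∀ {d : D}, R.fw d → R.vt d = t → ¬ R.le (R.hd d) t := fun {d} a1 a2 a3 => by
    have b1 := τ_hd a1
    have b2 := a3.τ_le
    rw [a2] at b1
    omega
  have i1 : I (R.hd e) := (h.up (nl e1.1 e2) e1.le).2 k
  have i2 : ¬ I (R.hd f) := fun a => hn ((h.up (nl f1.1 f2) f1.le).1 a)
  have t1 := (h.sd.top e e2 fun a => nl e1.1 e2 a.le).1 i1
  have t2 : ¬ Bt (ρ (W.par t)) (ρ f) (ρ (L.par t)) :=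
    fun a => i2 ((h.sd.top f f2 fun a => nl f1.1 f2 a.le).2 a)
  have n2 := h.ne_rk (f2.trans (L.vt_par _ h.gr).symm) (Tree.fw_ne_par (T := L) h.gr f1.1)
  have n3 := h.ne_rk (f2.trans (W.vt_par _ h.gr).symm) (Tree.fw_ne_par (T := W) h.gr f1.1)
  have n1 := h.ne_rk (f2.trans e2.symm) fun a => i2 (a ▸ i1)
  refine ⟨f, e, f1, e1, f2.trans e2.symm, ?_⟩
  rw [f2]
  unfold Bt at t1 t2 ⊢
  omega

end BlkX

open BlkX in
theorem s_blk (h : S_l2) : S_blk := by
  intro V D _ _ R L W hL hW hI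
  choose! I hI using hI
  refine ⟨fun t x => R.green t ∧ I t x, fun _ _ k => k.1, fun t x k => (hI t k.1).nbd x k.2,
    ?_, ?_, ?_, ?_, ?_⟩
  · intro t u v a b c
    exact and_congr_right fun ht => (hI t ht).per u v a b c
  · intro s t x a b c k
    exact (one_left k.1 hL (hI t k.1)).bot a b c k.2
  · intro t x a k b
    exact ⟨(one_left k.1 hL (hI t k.1)).l1a a k.2 b, (one_right k.1 hW (hI t k.1)).l1a a k.2 b⟩
  · intro t x k a
    refine ⟨⟨(one_left k.1 hL (hI t k.1)).anc k.2 a, (one_right k.1 hW (hI t k.1)).anc k.2 a⟩, ?_⟩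
    intro b b1 b2 b3
    exact (one_left k.1 hL (hI t k.1)).l1b k.2 a b1 b2 fun c => b3 ⟨k.1, c⟩
  · intro x b a1 a2 a3 a4
    obtain ⟨t, t1, t2, t3⟩ := h V D R L W hL hW I hI x b a1 a2 a3 a4
    exact ⟨t, t1, ⟨t1.1.green a2, t2⟩, fun c => t3 ⟨c.1, c.2.2⟩⟩

end Pool.Agent.MP_a17da5_co.PC
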