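import Pool.Agent.MP_a17da5_co.PC.St

/-!
The inside of a block.
-/

set_option autoImplicit false

namespace Pool.Agent.MP_a17da5_co.PC

open RP RP.Tree

namespace ColX

theorem chi4 (x : ZMod 2) (a b c d : Prop) :
    x + (chi a + chi b) = x + (chi c + chi d) ↔ ((a ↔ b) ↔ (c ↔ d)) := by
  rw [add_right_inj, chi_add, chi_add]
  exact ⟨fun h => not_iff_not.1 (chi_inj h), fun h => chi_congr (not_congr h)⟩

theorem z2_eq {x y : ZMod 2} (h : x + y = 0) : x = y := by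
  revert x y
  decide

variable {V D : Type} [Fintype D] {R : RP V D}

theorem two {Y : D → ZMod 2} {v : V} {p q : D} (hp : R.vt p = v) (hq : R.vt q = v)
    (h : ∀ d, R.vt d = v → Y d = chi (d = p) + chi (d = q)) (Q : D → Prop) :
    sumOn Y (fun d => R.vt d = v ∧ Q d) = chi (Q p) + chi (Q q) := by
  rw [sumOn_congr_fun (Y' := fun d => chi (d = p) + chi (d = q)) fun d hd => h d hd.1, sumOn_add,
    sumOn_chi _ _ fun e e' a _ b _ => a.trans b.symm,
    sumOn_chi _ _ fun e e' a _ b _ => a.trans b.symm]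
  congr 1 <;> refine chi_congr ?_ <;> simp [hp, hq]

theorem mirror {Y : D → ZMod 2} {v : V} (h : sumOn Y (fun d => R.vt d = v) = 0) {P Q : D → Prop}
    (hP : ∀ d, P d ↔ ¬ Q d) :
    sumOn Y (fun d => R.vt d = v ∧ P d) = sumOn Y (fun d => R.vt d = v ∧ Q d) := by
  refine z2_eq ?_
  rw [sumOn_xor, ← h]
  refine sumOn_congr fun e _ => ?_
  rw [hP]
  tauto

variable (R) in
/-- the colour of the corner before a dart -/
noncomputable def cb (ρ : D → ℤ) (Y : D → ZMod 2) (w : V → ZMod 2) (d : D) : ZMod 2 :=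
  w (R.vt d) + sumOn Y (fun f => R.vt f = R.vt d ∧ ρ f < ρ d)

variable (R) in
/-- the colour of the corner after a dart -/
noncomputable def ca (ρ : D → ℤ) (Y : D → ZMod 2) (w : V → ZMod 2) (d : D) : ZMod 2 :=
  w (R.vt d) + sumOn Y (fun f => R.vt f = R.vt d ∧ ρ f ≤ ρ d)

section
variable {ρ : D → ℤ} {Y : D → ZMod 2} {w : V → ZMod 2} {v : V} {p q : D}

theorem cb_two (hp : R.vt p = v) (hq : R.vt q = v)
    (h : ∀ d, R.vt d = v → Y d = chi (d = p) + chi (d = q)) {d : D} (hd : R.vt d = v) :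
    cb R ρ Y w d = w v + (chi (ρ p < ρ d) + chi (ρ q < ρ d)) := by
  rw [cb, hd, two hp hq h]

theorem ca_two (hp : R.vt p = v) (hq : R.vt q = v)
    (h : ∀ d, R.vt d = v → Y d = chi (d = p) + chi (d = q)) {d : D} (hd : R.vt d = v) :
    ca R ρ Y w d = w v + (chi (ρ p ≤ ρ d) + chi (ρ q ≤ ρ d)) := by
  rw [ca, hd, two hp hq h]

theorem cb_zero (h : ∀ d, R.vt d = v → Y d = 0) {d : D} (hd : R.vt d = v) :
    cb R ρ Y w d = w v := by
  rw [cb, hd, sumOn_eq_zero fun e he => h e he.1, add_zero]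

theorem ca_zero (h : ∀ d, R.vt d = v → Y d = 0) {d : D} (hd : R.vt d = v) :
    ca R ρ Y w d = w v := by
  rw [ca, hd, sumOn_eq_zero fun e he => h e he.1, add_zero]

end

variable [Fintype V]

/-- the edges of the tree path from `z` to `t` -/
noncomputable def YT (T : R.Tree) (z t : V) (d : D) : ZMod 2 :=
  chi (T.On t d ∧ T.Anc z (R.vt d)) + chi (T.On t (R.op d) ∧ T.Anc z (R.hd d))

section
variable {T : R.Tree} {z t : V} {d f : D}

theorem yt_op : YT T z t (R.op d) = YT T z t d := by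
  rw [YT, YT, R.op_op, hd_op, vt_op, add_comm]

theorem yt_eq (ht : R.green t) : YT T z t d = chi (T.On t d ∧ T.Anc z (R.vt d)) +
    chi (d = T.par (R.vt d) ∧ T.Anc z (R.vt d) ∧ T.Anc (R.vt d) t ∧ R.vt d ≠ z) := by
  rw [YT]
  congr 1
  refine chi_congr ⟨fun ⟨h, h'⟩ => ?_, fun ⟨h1, h2, h3, h4⟩ => ?_⟩
  · have a := h.2.1
    have b := h.2.2
    have c := h.anc_hd ht
    have e := τ_hd h.1
    have g := h'.le.τ_le
    rw [hd_op] at a b c e
    rw [vt_op] at c e
    refine ⟨by rw [a, R.op_op], h'.trans c, b, fun k => ?_⟩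
    rw [k] at e
    omega
  · rcases h2.cases_tail with k | ⟨k1, k2, k3⟩
    · exact absurd k.symm h4
    · have := on_par h3 k1 k2
      rw [← h1] at this k3
      exact ⟨this, k3⟩

theorem yt_zero (ht : R.green t) (h : ¬ (T.Anc z (R.vt d) ∧ T.Anc (R.vt d) t)) :
    YT T z t d = 0 := by
  rw [yt_eq ht, chi_neg fun k => h ⟨k.2, k.1.anc_vt ht⟩, chi_neg fun k => h ⟨k.2.1, k.2.2.1⟩,
    add_zero]

theorem on_iff (hf : T.On t f) (hd : R.vt d = R.vt f) (hz : T.Anc z (R.vt f)) :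
    (T.On t d ∧ T.Anc z (R.vt d)) ↔ d = f :=
  ⟨fun k => k.1.eq_of_vt hf hd, fun k => by rw [k]; exact ⟨hf, hz⟩⟩

theorem yt_bot (ht : R.green t) (hf : T.On t f) (hz : R.vt f = z) (hd : R.vt d = z) :
    YT T z t d = chi (d = f) := by
  rw [yt_eq ht, chi_congr (on_iff hf (hd.trans hz.symm) (hz ▸ T.anc_refl _)),
    chi_neg (p := _ ∧ _) fun k => k.2.2.2 hd, add_zero]

theorem yt_top (ht : R.green t) (hz : T.Anc z t) (hne : z ≠ t) (hd : R.vt d = t) :
    YT T z t d = chi (d = T.par t) := by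
  rw [yt_eq ht, chi_neg fun k => k.1.vt_ne hd, zero_add, hd]
  exact chi_congr ⟨fun k => k.1, fun k => ⟨k, hz, T.anc_refl _, hne.symm⟩⟩

theorem yt_mid (ht : R.green t) (hf : T.On t f) (hz : T.Anc z (R.vt f)) (hne : R.vt f ≠ z)
    (hd : R.vt d = R.vt f) : YT T z t d = chi (d = f) + chi (d = T.par (R.vt f)) := by
  rw [yt_eq ht, chi_congr (on_iff hf hd hz), hd]
  congr 1
  exact chi_congr ⟨fun k => k.1, fun k => ⟨k, hz, hf.anc_vt ht, hne⟩⟩

end

/-- `z` is the last common point before `t` -/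
structure Dz (L W : R.Tree) (z t : V) : Prop where
  gt : R.green t
  com : Com L W z t
  ne : z ≠ t
  mx : ∀ s, Com L W s t → s ≠ t → R.τ s ≤ R.τ z

variable {L W : R.Tree} {z t : V}

theorem Dz.swap (h : Dz L W z t) : Dz W L z t :=
  ⟨h.gt, h.com.swap, h.ne, fun s hs => h.mx s hs.swap⟩

theorem Dz.bd_of (h : Dz L W z t) {v : V} (h1 : L.Anc z v) (h2 : L.Anc v t) : Bd L W t v :=
  ⟨h.gt, Or.inl h2, fun s hs hne => (hs.1.of_τ h.com.1 (h.mx s hs hne)).le.trans h1.le⟩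

theorem Dz.anc_of (h : Dz L W z t) {v : V} (h1 : Bd L W t v) (h2 : L.Anc v t) : L.Anc z v :=
  h.com.1.of_τ h2 (h1.2.2 z h.com h.ne).τ_le

theorem Dz.eq_of (h : Dz L W z t) {v : V} (h1 : L.Anc z v) (h2 : Com L W v t) (h3 : v ≠ t) :
    v = z := (h2.1.of_τ h.com.1 (h.mx v h2 h3)).antisymm h1

theorem Dz.bd_par (h : Dz L W z t) : Bd L W t (R.hd (L.par t)) := by
  rcases h.com.1.cases_tail with k | ⟨_, _, k⟩
  · exact absurd k h.ne
  · exact h.bd_of k (anc_par h.gt)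

section
variable (h : Dz L W z t) {Y : D → ZMod 2} (hY : ∀ d, Y d = YT L z t d + YT W z t d)
include h hY

theorem y_zero {v : V} (hv : ¬ Bd L W t v) (d : D) (hd : R.vt d = v) : Y d = 0 := by
  subst hd
  rw [hY, yt_zero h.gt fun k => hv (h.bd_of k.1 k.2),
    yt_zero h.gt fun k => hv (h.swap.bd_of k.1 k.2).swap, add_zero]

theorem y_bot {f g : D} (hf : L.On t f) (hg : W.On t g) (h1 : R.vt f = z) (h2 : R.vt g = z)
    (d : D) (hd : R.vt d = z) : Y d = chi (d = f) + chi (d = g) := by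
  rw [hY, yt_bot h.gt hf h1 hd, yt_bot h.gt hg h2 hd]

theorem y_top (d : D) (hd : R.vt d = t) : Y d = chi (d = L.par t) + chi (d = W.par t) := by
  rw [hY, yt_top h.gt h.com.1 h.ne hd, yt_top h.gt h.com.2 h.ne hd]

theorem y_mid {f : D} (hf : L.On t f) (hz : L.Anc z (R.vt f)) (hne : R.vt f ≠ z) (d : D)
    (hd : R.vt d = R.vt f) : Y d = chi (d = f) + chi (d = L.par (R.vt f)) := by
  rw [hY, yt_mid h.gt hf hz hne hd, yt_zero h.gt fun k =>
    hne (h.eq_of hz ⟨hf.anc_vt h.gt, hd ▸ k.2⟩ hf.vt_ne), add_zero]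

theorem even_side {v : V} (h1 : L.Anc z v) (h2 : L.Anc v t) :
    sumOn Y (fun d => R.vt d = v) = 0 := by
  have key : ∀ p q, R.vt p = v → R.vt q = v →
      (∀ d, R.vt d = v → Y d = chi (d = p) + chi (d = q)) → sumOn Y (fun d => R.vt d = v) = 0 :=
    fun p q hp hq k => by
      simpa only [and_true, z2_add_self] using two hp hq k fun _ => True
  by_cases ht : v = t
  · subst ht
    exact key _ _ (L.vt_par _ h.gt) (W.vt_par _ h.gt) (y_top h hY)
  obtain ⟨f, hf, rfl⟩ := h2.exists_out ht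
  by_cases hz : R.vt f = z
  · obtain ⟨g, hg, k⟩ := h.com.2.exists_out h.ne
    exact key f g rfl (k.trans hz.symm) fun d hd => y_bot h hY hf hg hz k d (hd.trans hz)
  · exact key f _ rfl (L.vt_par _ (hf.green_vt h.gt)) (y_mid h hY hf h1 hz)

theorem even (v : V) : sumOn Y (fun d => R.vt d = v) = 0 := by
  by_cases hv : Bd L W t v
  · rcases hv.2.1 with k | k
    · exact even_side h hY (h.anc_of hv k) k
    · exact even_side h.swap (fun d => (hY d).trans (add_comm _ _)) (h.swap.anc_of hv.swap k) k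
  · exact sumOn_eq_zero (y_zero h hY hv)

variable {ρ : D → ℤ} (hρ : R.Rk ρ) (hL : L.IsLex ρ) {w : V → ZMod 2}
  (J : ∀ d, cb R ρ Y w d = ca R ρ Y w (R.op d)) {c : ZMod 2} (hc : cb R ρ Y w R.d0 = c)
include J

theorem w_hd {e : D} (he : ¬ Bd L W t (R.hd e)) : w (R.hd e) = cb R ρ Y w e := by
  rw [J, ca_zero (y_zero h hY he) rfl]

include hc

theorem stem {v : V} (hv : L.Anc v z) : cb R ρ Y w (L.par v) = c := by
  refine L.root_ind (P := fun v => L.Anc v z → cb R ρ Y w (L.par v) = c)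
    (fun _ => by rw [L.par_root, hc]) (fun v hg hr ih hv => ?_) (hv.green (h.com.1.green h.gt)) hv
  have a := (anc_par hg).trans hv
  have nb : ¬ Bd L W t (R.hd (L.par v)) := fun k => by
    have a1 := (k.2.2 z h.com h.ne).τ_le
    have a2 := (adj_par (T := L) hg hr).τ_lt
    have a3 := hv.le.τ_le
    omega
  rw [← w_hd h hY J nb, ← ih a, cb_zero (y_zero h hY nb) (L.vt_par _ (L.gr_par v hg))]

include hρ hL

theorem bot_col {f : D} (hf : L.On t f) (hz : R.vt f = z) : cb R ρ Y w f = c := by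
  obtain ⟨g, hg, k⟩ := h.com.2.exists_out h.ne
  have gz := h.com.1.green h.gt
  have pz := L.vt_par z gz
  have a1 := hL t f g h.gt hf hg.1 (k.trans hz.symm) hg.le
  have a2 : ρ f ≠ ρ (L.par z) := fun e => fw_ne_par gz hf.1 (hρ _ _ (hz.trans pz.symm) e)
  have a3 : ρ g ≠ ρ (L.par z) := fun e => fw_ne_par gz hg.1 (hρ _ _ (k.trans pz.symm) e)
  rw [← stem h hY J hc (L.anc_refl z), cb_two hz k (y_bot h hY hf hg hz k) hz,
    cb_two hz k (y_bot h hY hf hg hz k) pz, chi4]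
  rw [hz] at a1
  unfold Bt at a1
  omega

theorem mid_col {f : D} (hf : L.On t f) (hz : L.Anc z (R.vt f)) (hne : R.vt f ≠ z)
    (ih : ca R ρ Y w (L.par (R.vt f)) = c) : cb R ρ Y w f = c := by
  have _ := hL
  have _ := hc
  have _ := J
  have gv := hf.green_vt h.gt
  have pv := L.vt_par _ gv
  have a2 : ρ f ≠ ρ (L.par (R.vt f)) := fun e => fw_ne_par gv hf.1 (hρ _ _ pv.symm e)
  rw [← ih, cb_two rfl pv (y_mid h hY hf hz hne) rfl, ca_two rfl pv (y_mid h hY hf hz hne) pv,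
    chi4]
  omega

theorem par_col {v : V} (h1 : L.Anc z v) (h2 : L.Anc v t) (h3 : v ≠ z) :
    ca R ρ Y w (L.par v) = c := by
  refine L.root_ind (P := fun v => L.Anc z v → L.Anc v t → v ≠ z → ca R ρ Y w (L.par v) = c)
    (fun a _ b => absurd ((L.root_anc (h.com.1.green h.gt)).antisymm a) b)
    (fun v hg hr ih h1 h2 h3 => ?_) (h2.green h.gt) h1 h2 h3
  have hf := on_par h2 hg hr
  have hz : L.Anc z (R.hd (L.par v)) := (h1.cases_tail.resolve_left h3.symm).2.2
  rw [← R.op_op (L.par v), ← J]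
  by_cases k : R.hd (L.par v) = z
  · exact bot_col h hY hρ hL J hc hf k
  · exact mid_col h hY hρ hL J hc hf hz k (ih hz ((anc_par hg).trans h2) k)

theorem core {I : V → Prop} (hI : ∀ x, ¬ Bd L W t x → (I x ↔ w x ≠ c)) : Side L W ρ t I := by
  have mid : ∀ f e, L.On t f → L.Anc z (R.vt f) → R.vt f ≠ z → R.vt e = R.vt f →
      (cb R ρ Y w e = c ↔ ((ρ f < ρ e ↔ ρ (L.par (R.vt f)) < ρ e) ↔
        (ρ f < ρ f ↔ ρ (L.par (R.vt f)) < ρ f))) := fun f e hf hz hne he => by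
    have pv := L.vt_par _ (hf.green_vt h.gt)
    rw [← mid_col h hY hρ hL J hc hf hz hne (par_col h hY hρ hL J hc hz (hf.anc_vt h.gt) hne),
      cb_two rfl pv (y_mid h hY hf hz hne) rfl, cb_two rfl pv (y_mid h hY hf hz hne) he, chi4]
  have bot : ∀ f g e, L.On t f → W.On t g → R.vt f = z → R.vt g = z → R.vt e = z →
      (cb R ρ Y w e = c ↔ ((ρ f < ρ e ↔ ρ g < ρ e) ↔ (ρ f < ρ f ↔ ρ g < ρ f))) :=
    fun f g e hf hg h1 h2 he => by
      rw [← bot_col h hY hρ hL J hc hf h1, cb_two h1 h2 (y_bot h hY hf hg h1 h2) h1,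
        cb_two h1 h2 (y_bot h hY hf hg h1 h2) he, chi4]
  refine ⟨fun f e hf hb he hn hB => ?_, fun f e hf hb he hn hB hw => ?_,
    fun f g e hf hg hb h1 he hn hB => ?_, fun e he hn => ?_⟩
  · rw [hI _ hn, w_hd h hY J hn, not_not]
    by_cases hz : R.vt f = z
    · obtain ⟨g, hg, k⟩ := h.com.2.exists_out h.ne
      have gz := h.com.1.green h.gt
      have a1 := hL t f g h.gt hf hg.1 (k.trans hz.symm) hg.le
      have a3 : ρ g ≠ ρ (L.par z) := fun e =>
        fw_ne_par gz hg.1 (hρ _ _ (k.trans (L.vt_par z gz).symm) e)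
      rw [bot f g e hf hg hz k (he.trans hz)]
      rw [hz] at a1 hB
      unfold Bt at a1 hB
      omega
    · rw [mid f e hf (h.anc_of hb (hf.anc_vt h.gt)) hz he]
      unfold Bt at hB
      omega
  · rw [hI _ hn, w_hd h hY J hn, Ne,
      mid f e hf (h.anc_of hb (hf.anc_vt h.gt)) (fun k => hw (k ▸ h.com.2)) he]
    unfold Bt at hB
    omega
  · have hz : R.vt f = z := h.eq_of (h.anc_of hb (hf.anc_vt h.gt))
      ⟨hf.anc_vt h.gt, h1 ▸ hg.anc_vt h.gt⟩ hf.vt_ne
    rw [hI _ hn, w_hd h hY J hn, Ne, bot f g e hf hg hz (h1.trans hz) (he.trans hz)]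
    unfold Bt at hB
    omega
  · have p1 := L.vt_par t h.gt
    have p2 := W.vt_par t h.gt
    have a1 : ρ e ≠ ρ (L.par t) := fun k => hn (hρ _ _ (he.trans p1.symm) k ▸ h.bd_par)
    have a2 : ρ e ≠ ρ (W.par t) := fun k => hn (hρ _ _ (he.trans p2.symm) k ▸ h.swap.bd_par.swap)
    rw [hI _ hn, w_hd h hY J hn, Ne, ← par_col h hY hρ hL J hc h.com.1 (L.anc_refl t) h.ne.symm,
      cb_two p1 p2 (y_top h hY) he, ca_two p1 p2 (y_top h hY) p1, chi4]
    unfold Bt
    omega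

end

theorem side_root (L W : R.Tree) (ρ : D → ℤ) : Side L W ρ R.root fun _ => False := by
  have k : ∀ f, ¬ L.On R.root f := fun f hf => by
    have a := hf.τ_lt
    have b := (hf.green_vt R.green_root).τ_le
    omega
  refine ⟨fun _ _ _ _ _ _ _ => id, fun f _ hf => absurd hf (k f), fun f _ _ hf => absurd hf (k f),
    fun e _ _ => ?_⟩
  rw [L.par_root, W.par_root, false_iff]
  unfold Bt
  omega

end ColX

open ColX

theorem s_col : S_col := by
  intro V D _ _ R L W hL hW t ht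
  by_cases hr : t = R.root
  · subst hr
    exact ⟨fun _ => False, fun _ => False.elim, fun _ _ _ _ _ => Iff.rfl, id, side_root L W _,
      side_root W L _⟩
  obtain ⟨z, hz, hm⟩ := Set.exists_max_image {s | Com L W s t ∧ s ≠ t} R.τ (Set.toFinite _)
    ⟨R.root, ⟨L.root_anc ht, W.root_anc ht⟩, Ne.symm hr⟩
  have h : Dz L W z t := ⟨ht, hz.1, hz.2, fun s a b => hm s ⟨a, b⟩⟩
  obtain ⟨Y, hY⟩ : ∃ Y : D → ZMod 2, ∀ d, Y d = YT L z t d + YT W z t d := ⟨_, fun _ => rfl⟩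
  have ev := even h hY
  obtain ⟨w, J⟩ := R.jordan Y (fun d => by rw [hY, hY, yt_op, yt_op]) ev
  have J : ∀ d, cb R R.rk Y w d = ca R R.rk Y w (R.op d) := J
  have m1 : ∀ d, cb R (fun d => -R.rk d) Y w d = ca R R.rk Y w d := fun d => by
    rw [cb, ca, mirror (ev _) (Q := fun f => R.rk f ≤ R.rk d) fun f => by omega]
  have m2 : ∀ d, ca R (fun d => -R.rk d) Y w d = cb R R.rk Y w d := fun d => by
    rw [cb, ca, mirror (ev _) (Q := fun f => R.rk f < R.rk d) fun f => by omega]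
  refine ⟨fun x => ¬ Bd L W t x ∧ w x ≠ cb R R.rk Y w R.d0, fun x hx => hx.1, ?_, fun k => ?_,
    core h hY R.rk_rk hL J rfl fun x hx => and_iff_right hx,
    core h.swap (fun d => (hY d).trans (add_comm _ _)) R.rk_neg hW
      (fun d => by rw [m1, m2, J, R.op_op]) (by rw [m1, J, R.op_d0])
      fun x hx => and_iff_right fun k => hx k.swap⟩
  · rintro _ _ ⟨d, _, rfl, rfl⟩ h1 h2
    rw [and_iff_right h1, and_iff_right h2, w_hd h hY J h2, cb_zero (y_zero h hY h1) rfl]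
  · exact k.2 (cb_zero (y_zero h hY k.1) rfl).symm

end Pool.Agent.MP_a17da5_co.PC
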