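import Pool.Agent.MP_a17da5_co.PC.St

/- Paths outside a subtree which join interleaved darts meet. -/

set_option autoImplicit false

namespace Pool.Agent.MP_a17da5_co.PC

open Relation RP RP.Tree

namespace CrossX

variable {V D : Type} [Fintype D] {R : RP V D}

theorem z2 (x y : ZMod 2) (h : x + y ≠ 0) : x ≠ 0 ∨ y ≠ 0 := by revert x y; decide

theorem chi_ne {p : Prop} (h : chi p ≠ 0) : p := by
  by_contra k
  exact h (chi_neg k)

/-- A symmetric chain with two ends. -/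
structure Ch (R : RP V D) (Y : D → ZMod 2) (u v : V) : Prop where
  sy : ∀ d, Y (R.op d) = Y d
  par : ∀ x, sumOn Y (fun d => R.vt d = x) = chi (x = u) + chi (x = v)

theorem Ch.add {Y Z : D → ZMod 2} {u v w : V} (h : Ch R Y u v) (h' : Ch R Z v w) :
    Ch R (fun d => Y d + Z d) u w :=
  ⟨fun d => by rw [h.sy, h'.sy], fun x => by
    rw [sumOn_add, h.par, h'.par, add_assoc, ← add_assoc (chi (x = v)), z2_add_self, zero_add]⟩

theorem Ch.symm {Y : D → ZMod 2} {u v : V} (h : Ch R Y u v) : Ch R Y v u :=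
  ⟨h.sy, fun x => by rw [h.par, add_comm]⟩

theorem edge (f : D) : Ch R (fun d => chi (d = f) + chi (d = R.op f)) (R.vt f) (R.hd f) := by
  have e : ∀ g x, sumOn (fun d => chi (d = g)) (fun d => R.vt d = x) = chi (x = R.vt g) :=
    fun g x => by
      rw [sumOn_chi _ _ (fun e e' a _ b _ => a.trans b.symm)]
      exact chi_congr ⟨fun ⟨_, a, b⟩ => by rw [← a, b], fun h => ⟨g, rfl, h.symm⟩⟩
  refine ⟨fun d => ?_, fun x => by rw [sumOn_add, e, e, vt_op]⟩
  rw [add_comm]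
  congr 1
  · exact chi_congr ⟨R.op_inj, fun h => by rw [h]⟩
  · exact chi_congr ⟨fun h => by rw [← h, R.op_op], fun h => by rw [h, R.op_op]⟩

theorem path {M : V → Prop} {a b : V} (h : ReflTransGen (fun u v => R.adj u v ∧ ¬ M v) a b) :
    ∃ Y, Ch R Y a b ∧ ∀ d, Y d ≠ 0 → ReflTransGen (fun u v => R.adj u v ∧ ¬ M v) a (R.vt d) ∧
      ReflTransGen (fun u v => R.adj u v ∧ ¬ M v) (R.vt d) b := by
  induction h with
  | refl => exact ⟨fun _ => 0, ⟨fun _ => rfl, fun x => by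
      rw [z2_add_self]; exact sumOn_eq_zero fun _ _ => rfl⟩, fun d h => absurd rfl h⟩
  | tail h1 h2 ih =>
    obtain ⟨Y, c, s⟩ := ih
    obtain ⟨f, hf, rfl, rfl⟩ := h2.1
    refine ⟨_, c.add (edge f), fun d hd => ?_⟩
    rcases z2 _ _ hd with k | k
    · exact ⟨(s d k).1, (s d k).2.tail h2⟩
    · rcases z2 _ _ k with k | k
      · rw [chi_ne k]; exact ⟨h1, .single h2⟩
      · rw [chi_ne k]; exact ⟨h1.tail h2, .refl⟩

theorem not_M {M : V → Prop} {a b : V} (ha : ¬ M a)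
    (h : ReflTransGen (fun u v => R.adj u v ∧ ¬ M v) a b) : ¬ M b := by
  induction h with
  | refl => exact ha
  | tail _ h2 _ => exact h2.2

theorem corner {Y : D → ZMod 2} {p d : D} (h : R.rk p ≠ R.rk d)
    (ev : sumOn Y (fun e => R.vt e = R.vt d) = 0) :
    sumOn Y (fun e => R.vt e = R.vt d ∧ R.rk e < R.rk d) =
      sumOn Y (fun e => R.vt e = R.vt d ∧ R.rk e ≤ R.rk p) +
      sumOn Y (fun e => R.vt e = R.vt d ∧ Bt (R.rk p) (R.rk e) (R.rk d)) := by
  rw [sumOn_xor]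
  rcases lt_or_gt_of_ne h with k | k
  · refine sumOn_congr fun e _ => ?_
    by_cases a : R.vt e = R.vt d
    · simp only [a, true_and, Bt]; omega
    · simp [a]
  · rw [← zero_add (sumOn Y fun e => R.vt e = R.vt d ∧ R.rk e < R.rk d)]
    conv_lhs => rw [← ev, sumOn_xor]
    refine sumOn_congr fun e _ => ?_
    by_cases a : R.vt e = R.vt d
    · simp only [a, true_and, true_iff, Bt]
      omega
    · simp [a]

variable [Fintype V] {T : R.Tree} {M : V → Prop} {r : V}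

theorem mem_M (hM : T.Sub M r) {x u : V} (hx : M x) (h : T.Anc u x) : T.Anc r u → M u :=
  anc_ind (P := fun c => T.Anc r c → M c) (fun _ => hx) (fun c _ g hc ih k => by
    have k1 := k.trans (anc_par g)
    refine (hM.2 c (ih k1)).2.2 ?_
    rintro rfl
    have a := k.le.τ_le
    have b := (adj_par (T := T) g hc).τ_lt
    omega) h

theorem on_M (hM : T.Sub M r) {x : V} {f : D} (hx : M x) (h : T.On x f) (k : M (R.vt f)) :
    M (R.hd f) :=
  mem_M hM hx h.2.2 ((hM.2 _ k).2.1.trans (h.anc_hd (hM.2 x hx).1))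

theorem ne_root (hM : T.Sub M r) {v : V} (hv : M v) (h : v ≠ r) : v ≠ R.root := by
  rintro rfl
  exact h (RP.le.antisymm (hM.2 r hM.1).1 (hM.2 _ hv).2.1.le)

theorem tree (hM : T.Sub M r) {x : V} (hx : M x) : Ch R (fun d => chi (T.On x d ∧ M (R.vt d)) +
    chi (T.On x (R.op d) ∧ M (R.hd d))) x r := by
  have gx := (hM.2 x hx).1
  refine ⟨fun d => by rw [R.op_op, hd_op, vt_op, add_comm], fun v => ?_⟩
  rw [sumOn_add, sumOn_chi _ _ (fun e e' a b c d => a.1.eq_of_vt c.1 (b.trans d.symm)),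
    sumOn_chi _ _ (fun e e' a b c d => R.op_inj (a.1.eq_of_hd c.1 (by
      rw [hd_op, hd_op, b, d])))]
  have e1 : (∃ e, (T.On x e ∧ M (R.vt e)) ∧ R.vt e = v) ↔ (T.Anc v x ∧ M v) ∧ v ≠ x := by
    refine ⟨?_, fun ⟨⟨a, b⟩, c⟩ => ?_⟩
    · rintro ⟨e, ⟨a, b⟩, rfl⟩
      exact ⟨⟨a.anc_vt gx, b⟩, a.vt_ne⟩
    · obtain ⟨f, k, rfl⟩ := a.exists_out c
      exact ⟨f, ⟨k, b⟩, rfl⟩
  have e2 : (∃ e, (T.On x (R.op e) ∧ M (R.hd e)) ∧ R.vt e = v) ↔ (T.Anc v x ∧ M v) ∧ v ≠ r := by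
    refine ⟨?_, fun ⟨⟨a, b⟩, c⟩ => ?_⟩
    · rintro ⟨e, ⟨a, b⟩, rfl⟩
      have k := on_M hM hx a b
      have k1 := a.2.2
      have k2 := τ_hd a.1
      rw [hd_op] at k k1 k2
      refine ⟨⟨k1, k⟩, fun h => ?_⟩
      have k3 := (hM.2 _ b).2.1.le.τ_le
      rw [vt_op, h] at k2
      omega
    · have g := (hM.2 v b).1
      exact ⟨T.par v, ⟨on_par a g (ne_root hM b c), (hM.2 v b).2.2 c⟩, T.vt_par v g⟩
  rw [chi_congr e1, chi_congr e2, chi_add, chi_add]
  refine chi_congr (not_congr ?_)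
  have a1 : v = x → T.Anc v x ∧ M v := fun h => h ▸ ⟨T.anc_refl v, h ▸ hx⟩
  have a2 : v = r → T.Anc v x ∧ M v := fun h => by rw [h]; exact ⟨(hM.2 x hx).2.1, hM.1⟩
  tauto

variable {pos : D → ℤ} {en : V → ℤ}

theorem count (hC : Cont T pos en) {c d : D} (gc : R.green (R.vt c)) (gd : R.green (R.vt d))
    (hd : d ≠ T.par (R.vt d)) :
    sumOn (fun e => chi (e = c) + chi (T.On (R.vt c) e))
      (fun e => R.vt e = R.vt d ∧ Bt (R.rk (T.par (R.vt d))) (R.rk e) (R.rk d)) =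
      chi (pos c < pos d) + chi (pos c ≤ pos (T.par (R.vt d))) := by
  have vp := T.vt_par _ gd
  have l : ∀ e, R.vt e = R.vt d → (pos e < pos d ↔ e = T.par (R.vt d) ∨
      Bt (R.rk (T.par (R.vt d))) (R.rk e) (R.rk d)) := fun e he => by
    have := hC.loc e d (he ▸ gd) he.symm (by rwa [he])
    rwa [he] at this
  have l0 : ∀ e, R.vt e = R.vt d → e ≠ T.par (R.vt d) → pos (T.par (R.vt d)) < pos e :=
    fun e he hne => (hC.loc _ e (by rwa [vp]) (by rw [vp, he]) (by rwa [vp])).2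
      (Or.inl (by rw [vp]))
  have l1 := l0 d rfl hd
  rw [sumOn_add, sumOn_chi _ _ (fun e e' a _ b _ => a.trans b.symm),
    sumOn_chi _ _ (fun e e' a b c d => a.eq_of_vt c (b.1.trans d.1.symm)), chi_add, chi_add]
  refine chi_congr (not_congr ?_)
  simp only [exists_eq_left]
  by_cases h1 : R.vt c = R.vt d
  · have a : ¬ ∃ e, T.On (R.vt c) e ∧ R.vt e = R.vt d ∧
        Bt (R.rk (T.par (R.vt d))) (R.rk e) (R.rk d) := fun ⟨e, a, b, _⟩ => a.vt_ne (b.trans h1.symm)
    rw [iff_false_intro a]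
    simp only [h1, true_and, iff_false]
    by_cases h2 : c = T.par (R.vt d)
    · rw [h2]
      unfold Bt
      omega
    · have b := l c h1
      have b' := l0 c h1 h2
      simp only [h2, false_or] at b
      rw [← b]
      omega
  · simp only [h1, false_and, false_iff]
    by_cases h2 : T.Anc (R.vt d) (R.vt c)
    · obtain ⟨g, k1, k2⟩ := h2.exists_out (Ne.symm h1)
      have k3 : g ≠ T.par (R.vt d) := fw_ne_par gd k1.1
      have b1 := hC.child g d c k1 gc k2.symm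
      have b2 := hC.child g (T.par (R.vt d)) c k1 gc (vp.trans k2.symm)
      have b3 := l0 g k2 k3
      have b4 := l g k2
      have b5 : pos c ≠ pos d := fun h => h1 (by rw [hC.inj h])
      simp only [k3, false_or] at b4
      have a : (∃ e, T.On (R.vt c) e ∧ R.vt e = R.vt d ∧
          Bt (R.rk (T.par (R.vt d))) (R.rk e) (R.rk d)) ↔ pos g < pos d :=
        ⟨fun ⟨e, a, b, c⟩ => b4.2 (a.eq_of_vt k1 (b.trans k2.symm) ▸ c),
          fun h => ⟨g, k1, k2, b4.1 h⟩⟩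
      rw [a]
      omega
    · have a : ¬ ∃ e, T.On (R.vt c) e ∧ R.vt e = R.vt d ∧
          Bt (R.rk (T.par (R.vt d))) (R.rk e) (R.rk d) := fun ⟨e, a, b, _⟩ => h2 (b ▸ a.anc_vt gc)
      have b1 := (hC.iv _ c gd gc).not.1 h2
      have b2 := (hC.iv _ d gd gd).1 (T.anc_refl _)
      simp only [a, not_false_eq_true, true_iff]
      omega

theorem gap (hC : Cont T pos en) {v : V} {c : D} (gv : R.green v) (hv : v ≠ R.root)
    (gc : R.green (R.vt c)) (h1 : c ≠ R.op (T.par v)) (h2 : c ≠ T.par v) :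
    pos c < pos (R.op (T.par v)) ↔ pos c ≤ pos (T.par v) := by
  have vp := T.vt_par _ gv
  have og : T.On (R.vt (T.par v)) (R.op (T.par v)) := by
    rw [vp]; exact on_par (T.anc_refl v) gv hv
  have gu := T.gr_par v gv
  have ch := fun d => hC.child _ d (T.par v) og (by rwa [vp])
  have a1 := (ch _ rfl).2 le_rfl
  have n1 : pos c ≠ pos (R.op (T.par v)) := fun h => h1 (hC.inj h)
  have n2 : pos c ≠ pos (T.par v) := fun h => h2 (hC.inj h)
  refine ⟨fun h => by omega, fun h => ?_⟩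
  by_contra k
  have a2 := (hC.iv _ (R.op (T.par v)) gu gu).1 (T.anc_refl _)
  have a3 := (hC.iv _ (T.par v) gu (by rwa [vp])).1 (by rw [vp]; exact anc_par gv)
  have a4 := (hC.iv _ c gu gc).2 ⟨by omega, by omega⟩
  by_cases e : R.hd (T.par v) = R.vt c
  · have := ch c e.symm
    omega
  · obtain ⟨g, k1, k2⟩ := a4.exists_out e
    have b1 := ch g k2
    have b2 := (hC.child g g c k1 gc rfl).2 le_rfl
    have b3 := hC.child g (R.op (T.par v)) c k1 gc k2.symm
    by_cases e' : g = R.op (T.par v)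
    · have b4 := k1.2.2
      rw [e', hd_op, vp] at b4
      have := (hC.iv v c gv gc).1 b4
      omega
    · have : pos g ≠ pos (R.op (T.par v)) := fun h => e' (hC.inj h)
      omega

theorem const (hC : Cont T pos en) (hM : T.Sub M r) {c1 c3 : D} (m1 : M (R.vt c1))
    (m3 : M (R.vt c3)) (n1 : ¬ M (R.hd c1)) (n3 : ¬ M (R.hd c3)) {Y : D → ZMod 2}
    {w : V → ZMod 2} (ev : ∀ v, sumOn Y (fun d => R.vt d = v) = 0)
    (hw : ∀ d, w (R.vt d) + sumOn Y (fun f => R.vt f = R.vt d ∧ R.rk f < R.rk d) =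
      w (R.hd d) + sumOn Y (fun f => R.vt f = R.hd d ∧ R.rk f ≤ R.rk (R.op d)))
    (hY : ∀ d, M (R.vt d) → d ≠ T.par (R.vt d) → Y d = (chi (d = c1) + chi (T.On (R.vt c1) d)) +
      (chi (d = c3) + chi (T.On (R.vt c3) d))) : ∃ κ, ∀ d, M (R.vt d) → d ≠ T.par (R.vt d) →
      w (R.vt d) + sumOn Y (fun f => R.vt f = R.vt d ∧ R.rk f < R.rk d) +
        chi (pos c1 < pos d) + chi (pos c3 < pos d) = κ := by
  let m : V → ZMod 2 := fun v => w v + sumOn Y (fun f => R.vt f = v ∧ R.rk f ≤ R.rk (T.par v)) +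
    chi (pos c1 ≤ pos (T.par v)) + chi (pos c3 ≤ pos (T.par v))
  have g1 := (hM.2 _ m1).1
  have g3 := (hM.2 _ m3).1
  have h1 : ∀ d, M (R.vt d) → d ≠ T.par (R.vt d) →
      w (R.vt d) + sumOn Y (fun f => R.vt f = R.vt d ∧ R.rk f < R.rk d) +
        chi (pos c1 < pos d) + chi (pos c3 < pos d) = m (R.vt d) := fun d a b => by
    have g := (hM.2 _ a).1
    rw [corner (p := T.par (R.vt d)) (fun h => b (R.rk_inj _ _ (T.vt_par _ g) h).symm) (ev _),
      sumOn_congr_fun (P := fun e => R.vt e = R.vt d ∧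
        Bt (R.rk (T.par (R.vt d))) (R.rk e) (R.rk d)) fun e he => hY e (he.1 ▸ a) (by
          rintro k
          have k' := he.2
          rw [k, he.1, Bt] at k'
          omega), sumOn_add, count hC g1 g b, count hC g3 g b]
    have z := z2_add_self
    simp only [m]
    linear_combination z (chi (pos c1 < pos d)) + z (chi (pos c3 < pos d))
  have h2 : ∀ v, R.green v → M v → m v = m r := fun v hv => by
    refine T.root_ind (P := fun v => M v → m v = m r) (fun k => ?_) (fun v g hr ih k => ?_) hv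
    · by_contra e
      exact ne_root hM k (fun h => e (by rw [h])) rfl
    · by_cases e : v = r
      · rw [e]
      · have k1 := (hM.2 v k).2.2 e
        have vp := T.vt_par v g
        have k2 := h1 (R.op (T.par v)) k1 (fw_ne_par (T.gr_par v g) (T.fw_par v g hr))
        rw [hw, hd_op, R.op_op, vp, vt_op,
          chi_congr (gap hC g hr g1 (fun h => n1 (by rwa [h, hd_op, vp])) fun h => n1 (h ▸ k1)),
          chi_congr (gap hC g hr g3 (fun h => n3 (by rwa [h, hd_op, vp])) fun h => n3 (h ▸ k1))]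
          at k2
        exact k2.trans (ih k1)
  exact ⟨m r, fun d a b => (h1 d a b).trans (h2 _ (hM.2 _ a).1 a)⟩

end CrossX

open CrossX in
theorem s_cross : S_cross := by
  intro V D _ _ R T pos en hC M r hM a a' c1 c2 c3 c4 p12 p23 p34 r1 r2 r3 r4
  let P := ReflTransGen (fun u v => R.adj u v ∧ ¬ M v)
  by_cases hz : ∃ z, (P a z ∧ (P z (R.hd c1) ∨ P z (R.hd c3))) ∧
      P a' z ∧ (P z (R.hd c2) ∨ P z (R.hd c4))
  · obtain ⟨z, ⟨a1, a2⟩, a3, a4⟩ := hz
    exact ⟨a2.imp (fun k => ⟨r1.1, r1.2.1, r2.2.2.1, a3.trans k⟩)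
      fun k => ⟨r3.1, r3.2.1, r2.2.2.1, a3.trans k⟩,
      a4.imp (fun k => ⟨r2.1, r2.2.1, r1.2.2.1, a1.trans k⟩)
      fun k => ⟨r4.1, r4.2.1, r1.2.2.1, a1.trans k⟩⟩
  exfalso
  have key : ∀ c, R.Rch M a c → ∃ Y, Ch R Y a r ∧
      (∀ d, M (R.vt d) → d ≠ T.par (R.vt d) → Y d = chi (d = c) + chi (T.On (R.vt c) d)) ∧
      ∀ d, ¬ M (R.vt d) → Y d ≠ 0 → P a (R.vt d) ∧ P (R.vt d) (R.hd c) := by
    intro c hc
    obtain ⟨Y, b1, b2⟩ := path hc.2.2.2
    have nc := not_M hc.2.2.1 hc.2.2.2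
    refine ⟨_, (b1.add (edge c).symm).add (tree hM hc.1), fun d k k' => ?_, fun d k k' => ?_⟩
    · have e1 : Y d = 0 := by
        by_contra e
        exact not_M hc.2.2.1 (b2 d e).1 k
      have e2 : d ≠ R.op c := fun h => nc (by rwa [h] at k)
      have e3 : ¬ (T.On (R.vt c) (R.op d) ∧ M (R.hd d)) := fun h => k' (by
        have := h.1.2.1
        rw [hd_op, R.op_op] at this
        exact this.symm)
      simp only [e1, chi_neg e2, chi_neg e3, zero_add, add_zero, k, and_true]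
    · rcases z2 _ _ k' with e | e <;> rcases z2 _ _ e with e | e
      · exact b2 d e
      · rcases z2 _ _ e with e | e
        · exact absurd (chi_ne e ▸ hc.1) k
        · rw [chi_ne e]
          exact ⟨hc.2.2.2, .refl⟩
      · exact absurd (chi_ne e).2 k
      · have := on_M hM hc.1 (chi_ne e).1 (chi_ne e).2
        rw [hd_op] at this
        exact absurd this k
  obtain ⟨Y1, a1, a2, a3⟩ := key c1 r1
  obtain ⟨Y3, b1, b2, b3⟩ := key c3 r3
  have hY := a1.add b1.symm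
  have ev : ∀ v, sumOn (fun d => Y1 d + Y3 d) (fun d => R.vt d = v) = 0 := fun v => by
    rw [hY.par, z2_add_self]
  obtain ⟨w, hw⟩ := R.jordan _ hY.sy ev
  obtain ⟨κ, hκ⟩ := const hC hM r1.1 r3.1 (not_M r1.2.2.1 r1.2.2.2) (not_M r3.2.2.1 r3.2.2.2) ev hw
    fun d k k' => by rw [a2 d k k', b2 d k k']
  have van : ∀ z, P a' z → (P z (R.hd c2) ∨ P z (R.hd c4)) → ∀ Q : D → Prop,
      sumOn (fun d => Y1 d + Y3 d) (fun f => R.vt f = z ∧ Q f) = 0 := fun z k k' Q =>
    sumOn_eq_zero fun e he => by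
      by_contra h
      have n := not_M r2.2.2.1 k
      rw [← he.1] at k k' n
      rcases z2 _ _ h with h | h
      · exact hz ⟨_, ⟨(a3 e n h).1, Or.inl (a3 e n h).2⟩, k, k'⟩
      · exact hz ⟨_, ⟨(b3 e n h).1, Or.inr (b3 e n h).2⟩, k, k'⟩
  have wc : ∀ z, P a' z → (P z (R.hd c2) ∨ P z (R.hd c4)) → w z = w a' := fun z k => by
    induction k with
    | refl => exact fun _ => rfl
    | @tail u v h1 h2 ih =>
      intro k'
      have k0 : P u v := .single h2
      have k1 := k'.imp k0.trans k0.trans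
      obtain ⟨f, _, rfl, rfl⟩ := h2.1
      have := hw f
      rw [van _ h1 k1, vt_op, van _ (h1.tail h2) k', add_zero, add_zero] at this
      rw [← this, ih k1]
  have np : ∀ c, R.Rch M a' c → pos c1 < pos c → c ≠ T.par (R.vt c) := fun c hc h k => by
    by_cases e : R.vt c = r
    · have := (hC.iv r c1 (hM.2 r hM.1).1 (hM.2 _ r1.1).1).1 (hM.2 _ r1.1).2.1
      rw [← e, ← k] at this
      omega
    · exact not_M hc.2.2.1 hc.2.2.2 (by rw [k]; exact (hM.2 _ hc.1).2.2 e)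
  have e2 := hκ c2 r2.1 (np c2 r2 p12)
  have e4 := hκ c4 r4.1 (np c4 r4 (by omega))
  rw [hw, vt_op, van _ r2.2.2.2 (Or.inl .refl), wc _ r2.2.2.2 (Or.inl .refl), chi_pos p12,
    chi_neg (by omega : ¬ pos c3 < pos c2)] at e2
  rw [hw, vt_op, van _ r4.2.2.2 (Or.inr .refl), wc _ r4.2.2.2 (Or.inr .refl),
    chi_pos (by omega : pos c1 < pos c4), chi_pos p34, ← e2] at e4
  exact one_ne_zero (add_left_cancel e4)

end Pool.Agent.MP_a17da5_co.PC
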