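import Pool.Agent.MP_a17da5_co.PC.St

/-!
A drawing with straight edges gives a plane structure.
-/

set_option autoImplicit false

namespace Pool.Agent.MP_a17da5_co.PC

open Set

namespace DrawX

theorem slope {V : Type} [Fintype V] {f : V → ℝ × ℝ} (hf : Function.Injective f) :
    ∃ ε : ℝ, Function.Injective fun v => (f v).2 + ε * (f v).1 := by
  obtain ⟨ε, hε⟩ := (finite_range fun p : V × V =>
    ((f p.2).2 - (f p.1).2) / ((f p.1).1 - (f p.2).1)).exists_notMem
  refine ⟨ε, fun u v h => ?_⟩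
  have h' : (f u).2 + ε * (f u).1 = (f v).2 + ε * (f v).1 := h
  by_cases e : (f u).1 = (f v).1
  · rw [e] at h'
    exact hf (Prod.ext e (add_right_cancel h'))
  · refine absurd ⟨(u, v), ?_⟩ hε
    rw [div_eq_iff (sub_ne_zero.2 e)]
    linarith

/-- The abscissa at height `h` of the line through `p` and `q`. -/
noncomputable def ab (ε : ℝ) (p q : ℝ × ℝ) (h : ℝ) : ℝ :=
  p.1 + (h - (p.2 + ε * p.1)) / (q.2 + ε * q.1 - (p.2 + ε * p.1)) * (q.1 - p.1)

theorem ab_mem {ε : ℝ} {p q : ℝ × ℝ} {h : ℝ} (hh : h ∈ Ioo (p.2 + ε * p.1) (q.2 + ε * q.1)) :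
    (ab ε p q h, h - ε * ab ε p q h) ∈ openSegment ℝ p q := by
  have h0 : 0 < q.2 + ε * q.1 - (p.2 + ε * p.1) := sub_pos.2 (hh.1.trans hh.2)
  rw [openSegment_eq_image']
  refine ⟨(h - (p.2 + ε * p.1)) / (q.2 + ε * q.1 - (p.2 + ε * p.1)),
    ⟨div_pos (sub_pos.2 hh.1) h0, (div_lt_one h0).2 (by linarith [hh.2])⟩, Prod.ext rfl ?_⟩
  have h1 := div_mul_cancel₀ (h - (p.2 + ε * p.1)) h0.ne'
  simp only [ab, Prod.snd_add, Prod.smul_snd, Prod.snd_sub, smul_eq_mul]
  linear_combination h1

end DrawX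

open DrawX in
theorem s_draw (h : S_up) : S_draw := by
  classical
  intro V _ A τ f hτ ⟨hf, h2, h3⟩
  obtain ⟨ε, hε⟩ := slope hf
  let y : V → ℝ := fun v => (f v).2 + ε * (f v).1
  let E := {p : V × V // A p.1 p.2}
  let t : E → V := fun e => if y e.1.1 < y e.1.2 then e.1.1 else e.1.2
  let u : E → V := fun e => if y e.1.1 < y e.1.2 then e.1.2 else e.1.1
  have up : ∀ e, y (t e) < y (u e) := fun e => by
    simp only [t, u]
    split_ifs with k
    · exact k
    · exact lt_of_le_of_ne (not_lt.1 k) fun c => (hτ _ _ e.2).ne' (congrArg τ (hε c))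
  have sg : ∀ e, openSegment ℝ (f (t e)) (f (u e)) = openSegment ℝ (f e.1.1) (f e.1.2) := fun e => by
    simp only [t, u]
    split_ifs
    · rfl
    · exact openSegment_symm _ _ _
  have lo : ∀ e, ab ε (f (t e)) (f (u e)) (y (t e)) = (f (t e)).1 := fun e => by
    simp only [ab, y, sub_self, zero_div, zero_mul, add_zero]
  have hi : ∀ e, ab ε (f (t e)) (f (u e)) (y (u e)) = (f (u e)).1 := fun e => by
    rw [ab, div_self (sub_pos.2 (up e)).ne', one_mul, add_sub_cancel]
  have av : ∀ e v, y v ∈ Ioo (y (t e)) (y (u e)) → ab ε (f (t e)) (f (u e)) (y v) ≠ (f v).1 := by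
    intro e v hv c
    have k := ab_mem hv
    rw [c, sg, add_sub_cancel_right] at k
    exact h2 _ _ v e.2 k
  let G : Drw.Gr V E :=
    { x := fun v => (f v).1
      y := y
      tail := t
      head := u
      X := fun e => ab ε (f (t e)) (f (u e))
      inj := fun _ _ _ b => hε b
      up := up
      cont := fun e => (by unfold ab; fun_prop : Continuous _).continuousOn
      lo := lo
      hi := hi
      avoid := av
      disj := fun e e' s hne h4 h5 c => by
        rcases h5.1.eq_or_lt with rfl | k1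
        · exact av e _ h4 (c.trans (lo e'))
        rcases h5.2.eq_or_lt with rfl | k2
        · exact av e _ h4 (c.trans (hi e'))
        have a := ab_mem h4
        have b := ab_mem (⟨k1, k2⟩ : s ∈ Ioo _ _)
        rw [sg] at a b
        rw [c] at a
        refine disjoint_left.1 (h3 _ _ _ _ e.2 e'.2 ?_) a b
        by_contra k
        rw [not_or, not_not, not_not] at k
        exact hne (Subtype.ext (Prod.ext k.1 k.2)) }
  obtain ⟨S, s1, s2⟩ := G.exists_up
  obtain ⟨P, p1, p2, p3⟩ := h V E S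
  refine ⟨E × Bool, inferInstance, P, fun ⟨e, b⟩ c => ?_, fun a b hab => ?_⟩
  · rw [p1] at c
    exact Bool.not_ne_self b (congrArg Prod.snd c)
  · by_cases k : y a < y b
    · refine ⟨(⟨(a, b), hab⟩, true), ?_, ?_⟩
      · rw [p2, s1]; exact if_pos k
      · rw [p1, Bool.not_true, p3, s2]; exact if_pos k
    · refine ⟨(⟨(a, b), hab⟩, false), ?_, ?_⟩
      · rw [p3, s2]; exact if_neg k
      · rw [p1, Bool.not_false, p2, s1]; exact if_neg k

end Pool.Agent.MP_a17da5_co.PC
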