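import Pool.Agent.MP_a17da5_co.PC.St

/-!
Planar cover graphs: assembly.
-/

set_option autoImplicit false

namespace Pool.Agent.MP_a17da5_co.PC

open Relation

theorem dec_of_cd (h1 : S_all) (h2 : S_draw) (h3 : S_g1) (h4 : S_g2) : ∃ N : ℕ,
    ∀ (V : Type) [Fintype V] (A : V → V → Prop) (τ : V → ℤ) (f : V → ℝ × ℝ)
      (γ : V → V → ℝ → ℝ × ℝ), (∀ a b, A a b → τ a < τ b) → CD A f γ →
      Dec N (ReflTransGen A) := by
  obtain ⟨N, hN⟩ := h1
  refine ⟨N, fun V _ A τ f γ hτ hd => ?_⟩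
  obtain ⟨c, r, k, p, hg⟩ := h3 V A f γ (fun a h => lt_irrefl _ (hτ a a h)) hd
  obtain ⟨V', _, A', τ', f', ι, k1, k2, k3, k4⟩ := h4 V A τ c r k p hτ hg
  obtain ⟨g, hg⟩ := hN V' A' τ' k1 (h2 V' A' τ' f' k1 k2)
  exact ⟨fun i v => g i (ι v), fun x y x' y' a b e h =>
    (k4 x' y').2 (hg _ _ _ _ (k3.ne a) (k3.ne b) e ((k4 x y).1 h))⟩

theorem dec_poset (h1 : S_all) (h2 : S_draw) (h3 : S_g1) (h4 : S_g2) : ∃ N : ℕ,
    ∀ (P : Type) [Fintype P] [PartialOrder P] (f : P → ℝ × ℝ) (γ : P → P → ℝ → ℝ × ℝ),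
      CD (fun a b : P => a ⋖ b) f γ → Dec N (fun x y : P => x ≤ y) := by
  obtain ⟨N, hN⟩ := dec_of_cd h1 h2 h3 h4
  refine ⟨N, fun P _ _ f γ hd => ?_⟩
  classical
  let _ : LocallyFiniteOrder P := Fintype.toLocallyFiniteOrder
  refine (hN P _ (fun v => ((Finset.univ.filter fun u => u < v).card : ℤ)) f γ ?_ hd).congr
    fun x y _ => le_iff_reflTransGen_covBy.symm
  intro a b h
  have : (Finset.univ.filter fun u => u < a) ⊂ Finset.univ.filter fun u => u < b := by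
    refine ⟨fun u hu => ?_, fun k => ?_⟩
    · simp only [Finset.mem_filter, Finset.mem_univ, true_and] at hu ⊢
      exact hu.trans h.lt
    · have := k (Finset.mem_filter.2 ⟨Finset.mem_univ a, h.lt⟩)
      simp at this
  exact_mod_cast Finset.card_lt_card this

end Pool.Agent.MP_a17da5_co.PC
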