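import Pool.Agent.MP_a17da5_co.PC.St

/-!
Preorder and postorder of an ordered forest.
-/

set_option autoImplicit false

namespace Pool.Agent.MP_a17da5_co.PC

namespace ForX

variable {N α : Type} (F : Forest N)

theorem root (v : N) : ∃ c, F.Anc c v ∧ F.up c = none := by
  induction v using F.wf.induction with
  | _ v ih =>
    cases h : F.up v with
    | none => exact ⟨v, Forest.Anc.refl F v, h⟩
    | some w =>
      obtain ⟨c, h1, h2⟩ := ih w h
      exact ⟨c, Relation.ReflTransGen.tail h1 h, h2⟩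

theorem tri (u v : N) : F.Anc u v ∨ F.Anc v u ∨
    ∃ c c', F.Anc c u ∧ F.Anc c' v ∧ F.up c = F.up c' ∧ c ≠ c' := by
  have key : ∀ u c', F.Anc c' v → F.up u = F.up c' → F.Anc u v ∨ F.Anc v u ∨
      ∃ c c', F.Anc c u ∧ F.Anc c' v ∧ F.up c = F.up c' ∧ c ≠ c' := by
    intro u c' h1 h2
    by_cases e : u = c'
    · exact Or.inl (e ▸ h1)
    · exact Or.inr (Or.inr ⟨u, c', Forest.Anc.refl F u, h1, h2, e⟩)
  induction u using F.wf.induction with
  | _ u ih =>
    cases h : F.up u with
    | none =>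
      obtain ⟨c', h1, h2⟩ := root F v
      exact key u c' h1 (h.trans h2.symm)
    | some w =>
      have hw : F.Anc w u := (Forest.Anc.refl F u).up h
      rcases ih w h with k | k | ⟨c, c', k1, k2⟩
      · rcases k.cases with rfl | ⟨c', k1, k2⟩
        · exact Or.inr (Or.inl hw)
        · exact key u c' k2 (h.trans k1.symm)
      · exact Or.inr (Or.inl (k.trans hw))
      · exact Or.inr (Or.inr ⟨c, c', k1.trans hw, k2⟩)

theorem path_eq (rk : N → α) {c v : N} (h : F.Anc c v) :
    ∃ t, F.path rk (some v) = F.path rk (F.up c) ++ rk c :: t := by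
  obtain ⟨t, ht⟩ := F.path_anc rk h
  exact ⟨t, by rw [ht, F.path_some, List.append_assoc, List.singleton_append]⟩

variable [LinearOrder α]

theorem lt_app (p t : List α) (r : α) : p < p ++ r :: t := by
  induction p with
  | nil => exact List.Lex.nil
  | cons a p ih => exact List.Lex.cons ih

theorem lt_of_anc (rk : N → α) {u v : N} (h : F.Anc u v) :
    u = v ∨ F.path rk (some u) < F.path rk (some v) := by
  rcases h.cases with e | ⟨c, h1, h2⟩
  · exact Or.inl e
  · obtain ⟨t, ht⟩ := path_eq F rk h2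
    rw [ht, h1]
    exact Or.inr (lt_app _ _ _)

theorem lt_of_left (rk : N → α) {u v c c' : N} (h : F.Anc c u) (h' : F.Anc c' v)
    (e : F.up c = F.up c') (hr : rk c < rk c') : F.path rk (some u) < F.path rk (some v) := by
  obtain ⟨t, ht⟩ := path_eq F rk h
  obtain ⟨t', ht'⟩ := path_eq F rk h'
  rw [ht, ht', e]
  exact Forest.list_lt_of_lt _ _ _ hr

end ForX

open ForX in
theorem s_for : S_for := by
  intro N α _ _ F rk hrk
  obtain ⟨n, hn, -⟩ := exists_rank fun u => F.path rk (some u)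
  obtain ⟨m, hm, -⟩ := exists_rank fun u => F.path (fun x => OrderDual.toDual (rk x)) (some u)
  have hA : ∀ u v, F.Anc u v → u = v ∨ (n u < n v ∧ m u < m v) := fun u v h =>
    or_and_left.2 ⟨(lt_of_anc F _ h).imp_right (hn u v).2, (lt_of_anc F _ h).imp_right (hm u v).2⟩
  have hL : ∀ u v, (∃ c c', F.Anc c u ∧ F.Anc c' v ∧ F.up c = F.up c' ∧ rk c < rk c') →
      n u < n v ∧ m v < m u := fun u v ⟨c, c', h1, h2, h3, h4⟩ =>
    ⟨(hn u v).2 (lt_of_left F _ h1 h2 h3 h4), (hm v u).2 (lt_of_left F _ h2 h1 h3.symm h4)⟩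
  have hT : ∀ u v, F.Anc u v ∨ F.Anc v u ∨
      (∃ c c', F.Anc c u ∧ F.Anc c' v ∧ F.up c = F.up c' ∧ rk c < rk c') ∨
      ∃ c c', F.Anc c v ∧ F.Anc c' u ∧ F.up c = F.up c' ∧ rk c < rk c' := by
    intro u v
    refine (tri F u v).imp_right (Or.imp_right ?_)
    rintro ⟨c, c', h1, h2, h3, h4⟩
    rcases lt_trichotomy (rk c) (rk c') with k | k | k
    · exact Or.inl ⟨c, c', h1, h2, h3, k⟩
    · exact absurd (hrk c c' h3 k) h4
    · exact Or.inr ⟨c', c, h2, h1, h3.symm, k⟩
  refine ⟨n, fun u => -m u, fun u v h => ?_, fun u v => ⟨fun h => ?_, fun h => ?_⟩,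
    fun u v => ⟨fun h => ?_, fun h => ?_⟩⟩
  · rcases hT u v with k | k | k | k
    · exact (hA _ _ k).resolve_right fun k' => k'.1.ne h
    · exact ((hA _ _ k).resolve_right fun k' => k'.1.ne' h).symm
    · exact absurd h (hL _ _ k).1.ne
    · exact absurd h (hL _ _ k).1.ne'
  · rcases hA _ _ h with rfl | k
    · exact ⟨le_rfl, le_rfl⟩
    · exact ⟨k.1.le, neg_le_neg k.2.le⟩
  · rcases hT u v with k | k | k | k
    · exact k
    · rcases hA _ _ k with rfl | k'
      · exact k
      · exact absurd h.1 k'.1.not_ge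
    · exact absurd (neg_le_neg_iff.1 h.2) (hL _ _ k).2.not_ge
    · exact absurd h.1 (hL _ _ k).1.not_ge
  · exact ⟨(hL _ _ h).1, neg_lt_neg (hL _ _ h).2⟩
  · rcases hT u v with k | k | k | k
    · rcases hA _ _ k with rfl | k'
      · exact absurd h.1 (lt_irrefl _)
      · exact absurd (neg_lt_neg_iff.1 h.2) k'.2.asymm
    · rcases hA _ _ k with rfl | k'
      · exact absurd h.1 (lt_irrefl _)
      · exact absurd h.1 k'.1.asymm
    · exact k
    · exact absurd h.1 (hL _ _ k).1.asymm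

end Pool.Agent.MP_a17da5_co.PC
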