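import Pool.Agent.MP_a17da5_co.PC.St

/-! From a drawing with continuous edges to a drawing in the lattice. -/

set_option autoImplicit false

namespace Pool.Agent.MP_a17da5_co.PC

open Set

namespace GoneX

theorem pos_min {ι : Type} [Finite ι] (P : ι → ℝ → Prop)
    (mono : ∀ i x y, y ≤ x → P i x → P i y) (h : ∀ i, ∃ x, 0 < x ∧ P i x) :
    ∃ x, 0 < x ∧ ∀ i, P i x := by
  choose e h1 h2 using h
  obtain ⟨x, hx, h3⟩ := (finite_range e).isCompact.exists_forall_le' (f := fun x : ℝ => x)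
    continuousOn_id (a := 0) (by rintro _ ⟨i, rfl⟩; exact h1 i)
  exact ⟨x, hx, fun i => mono i _ _ (h3 _ ⟨i, rfl⟩) (h2 i)⟩

theorem last_hit {φ : ℝ → ℝ} {x y r : ℝ} (hxy : x ≤ y) (hc : ContinuousOn φ (Icc x y))
    (h1 : φ x ≤ r) (h2 : r ≤ φ y) : ∃ s ∈ Icc x y, φ s = r ∧ ∀ u ∈ Icc s y, r ≤ φ u := by
  have hS : IsCompact (Icc x y ∩ φ ⁻¹' {r}) :=
    isCompact_Icc.of_isClosed_subset
      (hc.preimage_isClosed_of_isClosed isClosed_Icc isClosed_singleton) inter_subset_left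
  obtain ⟨s, ⟨hs, hs'⟩, hmax⟩ := hS.exists_isGreatest (intermediate_value_Icc hxy hc ⟨h1, h2⟩)
  refine ⟨s, hs, hs', fun u hu => ?_⟩
  by_contra hlt
  obtain ⟨w, hw, hw'⟩ := intermediate_value_Icc hu.2
    (hc.mono (Icc_subset_Icc_left (hs.1.trans hu.1))) ⟨(not_le.1 hlt).le, h2⟩
  have := hmax ⟨⟨(hs.1.trans hu.1).trans hw.1, hw.2⟩, hw'⟩
  obtain rfl : w = u := le_antisymm (this.trans hu.1) hw.1
  exact hlt hw'.ge

theorem first_hit {φ : ℝ → ℝ} {x y r : ℝ} (hxy : x ≤ y) (hc : ContinuousOn φ (Icc x y))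
    (h1 : r ≤ φ x) (h2 : φ y ≤ r) : ∃ s ∈ Icc x y, φ s = r ∧ ∀ u ∈ Icc x s, r ≤ φ u := by
  have hS : IsCompact (Icc x y ∩ φ ⁻¹' {r}) :=
    isCompact_Icc.of_isClosed_subset
      (hc.preimage_isClosed_of_isClosed isClosed_Icc isClosed_singleton) inter_subset_left
  obtain ⟨s, ⟨hs, hs'⟩, hmin⟩ := hS.exists_isLeast (intermediate_value_Icc' hxy hc ⟨h2, h1⟩)
  refine ⟨s, hs, hs', fun u hu => ?_⟩
  by_contra hlt
  obtain ⟨w, hw, hw'⟩ := intermediate_value_Icc' hu.1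
    (hc.mono (Icc_subset_Icc_right (hu.2.trans hs.2))) ⟨(not_le.1 hlt).le, h1⟩
  have := hmin ⟨⟨hw.1, hw.2.trans (hu.2.trans hs.2)⟩, hw'⟩
  obtain rfl : w = u := le_antisymm hw.2 (hu.2.trans this)
  exact hlt hw'.ge

/-- A lattice point as a point of the plane. -/
def em (q : ℤ × ℤ) : ℝ × ℝ := ((q.1 : ℝ), (q.2 : ℝ))

/-- Rounding down. -/
noncomputable def fl (x : ℝ × ℝ) : ℤ × ℤ := (⌊x.1⌋, ⌊x.2⌋)

theorem nr_iff {q : ℤ × ℤ} {x : ℝ × ℝ} : Nr q x ↔ dist (em q) x < 1 := by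
  simp [Nr, em, Prod.dist_eq, Real.dist_eq]

theorem sd_eq (p q : ℤ × ℤ) : (sd p q : ℝ) = dist (em p) (em q) := by
  simp [sd, em, Prod.dist_eq, Real.dist_eq]

theorem nr_fl (x : ℝ × ℝ) : Nr (fl x) x := by
  have h : ∀ y : ℝ, |(⌊y⌋ : ℝ) - y| < 1 := fun y =>
    abs_lt.2 ⟨by linarith [Int.lt_floor_add_one y], by linarith [Int.floor_le y]⟩
  exact ⟨h _, h _⟩

theorem out_of_nr {q c : ℤ × ℤ} {x : ℝ × ℝ} {r : ℤ} (h : Nr q x) (h' : (r : ℝ) ≤ dist x (em c)) :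
    r ≤ sd q c := by
  have h1 := nr_iff.1 h
  have h2 := dist_triangle_left x (em c) (em q)
  rw [← sd_eq] at h2
  have h3 : (r : ℝ) < ((sd q c + 1 : ℤ) : ℝ) := by push_cast; linarith
  have := Int.cast_lt.1 h3
  omega

theorem sd_fl {c : ℤ × ℤ} {x : ℝ × ℝ} {r : ℤ} (h : dist x (em c) = r) : sd (fl x) c = r := by
  refine le_antisymm ?_ (out_of_nr (nr_fl x) h.ge)
  have k : ∀ (y : ℝ) (z : ℤ), |y - z| ≤ r → |⌊y⌋ - z| ≤ r := by
    intro y z hy
    obtain ⟨a, b⟩ := abs_le.1 hy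
    have h1 : z - r ≤ ⌊y⌋ := Int.le_floor.2 (by push_cast; linarith)
    have h2 : ((⌊y⌋ : ℤ) : ℝ) ≤ ((z + r : ℤ) : ℝ) := by push_cast; linarith [Int.floor_le y]
    have h3 := Int.cast_le.1 h2
    exact abs_le.2 ⟨by omega, by omega⟩
  have h1 := h.le
  rw [Prod.dist_eq, max_le_iff, Real.dist_eq, Real.dist_eq] at h1
  exact max_le (k _ _ h1.1) (k _ _ h1.2)

theorem scaled (h : S_lat) {V : Type} {A : V → V → Prop} (irr : ∀ a, ¬ A a a) (g : V → ℝ × ℝ)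
    (σ : V → V → ℝ → ℝ × ℝ) (r : ℤ) (hr : 0 < r)
    (h0 : ∀ a b, A a b → ContinuousOn (σ a b) (Icc (0:ℝ) 1) ∧ σ a b 0 = g a ∧ σ a b 1 = g b)
    (h1 : ∀ u v, u ≠ v → 2 * (r : ℝ) + 2 ≤ dist (g u) (g v))
    (h2 : ∀ a b v, A a b → v ≠ a → v ≠ b → ∀ s ∈ Icc (0:ℝ) 1, (r : ℝ) + 1 ≤ dist (σ a b s) (g v))
    (h3 : ∀ a b a' b', A a b → A a' b' → (a ≠ a' ∨ b ≠ b') → ∀ s ∈ Icc (0:ℝ) 1,
      (r : ℝ) - 1 ≤ dist (σ a b s) (g a) → (r : ℝ) - 1 ≤ dist (σ a b s) (g b) →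
      ∀ t ∈ Icc (0:ℝ) 1, 2 ≤ dist (σ a b s) (σ a' b' t)) :
    ∃ c k p, GD A c r k p := by
  have hr' : (1 : ℝ) ≤ r := by exact_mod_cast hr
  have hc : ∀ v, dist (em (fl (g v))) (g v) < 1 := fun v => nr_iff.1 (nr_fl _)
  have far : ∀ u v, u ≠ v → 2 * (r : ℝ) < dist (em (fl (g u))) (em (fl (g v))) := by
    intro u v huv
    have := dist_triangle4_left (g u) (g v) (em (fl (g u))) (em (fl (g v)))
    have a1 := dist_triangle_left (g u) (g v) (em (fl (g u)))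
    have a2 := dist_triangle (em (fl (g u))) (em (fl (g v))) (g v)
    linarith [h1 u v huv, hc u, hc v]
  have key : ∀ a b, ∃ (k : ℕ) (p : ℕ → ℤ × ℤ), A a b →
      sd (p 0) (fl (g a)) = r ∧ sd (p k) (fl (g b)) = r ∧
      (∀ i < k, |(p (i + 1)).1 - (p i).1| + |(p (i + 1)).2 - (p i).2| = 1) ∧
      (∀ i ≤ k, ∀ j ≤ k, p i = p j → i = j) ∧
      ∀ i ≤ k, ∃ u ∈ Icc (0:ℝ) 1, Nr (p i) (σ a b u) ∧
        ∀ v, (r : ℝ) ≤ dist (σ a b u) (em (fl (g v))) := by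
    intro a b
    by_cases hab : A a b
    swap
    · exact ⟨0, fun _ => 0, fun h => absurd h hab⟩
    have hne : a ≠ b := fun e => irr a (e ▸ hab)
    obtain ⟨c0, e0, e1⟩ := h0 a b hab
    have cd : ∀ z : ℝ × ℝ, ContinuousOn (fun u => dist (σ a b u) z) (Icc (0:ℝ) 1) := fun z =>
      (continuous_id.dist continuous_const).comp_continuousOn c0
    obtain ⟨s, hs, s1, s2⟩ := last_hit (r := r) zero_le_one (cd (em (fl (g a))))
      (by rw [e0, dist_comm]; linarith [hc a])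
      (by
        rw [e1]
        have := dist_triangle_left (em (fl (g a))) (em (fl (g b))) (g b)
        rw [dist_comm (g b) (em (fl (g b)))] at this
        linarith [far a b hne, hc b])
    obtain ⟨t, ht, t1, t2⟩ := first_hit (r := r) hs.2
      ((cd (em (fl (g b)))).mono (Icc_subset_Icc_left hs.1))
      (by
        have := dist_triangle_left (em (fl (g a))) (em (fl (g b))) (σ a b s)
        linarith [far a b hne])
      (by rw [e1, dist_comm]; linarith [hc b])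
    obtain ⟨k, p, p0, pk, p1, p2, p3⟩ := h (σ a b) s t _ _ ht.1
      (c0.mono (Icc_subset_Icc hs.1 ht.2)) (nr_fl _) (nr_fl _)
    refine ⟨k, p, fun _ => ⟨p0 ▸ sd_fl s1, pk ▸ sd_fl t1, p1, p2, fun i hi => ?_⟩⟩
    obtain ⟨u, hu, hn⟩ := p3 i hi
    have hu' : u ∈ Icc (0:ℝ) 1 := ⟨hs.1.trans hu.1, hu.2.trans ht.2⟩
    refine ⟨u, hu', hn, fun v => ?_⟩
    by_cases ha : v = a
    · exact ha ▸ s2 u ⟨hu.1, hu'.2⟩
    by_cases hb : v = b
    · exact hb ▸ t2 u hu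
    have := dist_triangle (σ a b u) (em (fl (g v))) (g v)
    linarith [h2 a b v hab ha hb u hu', hc v]
  choose k p hp using key
  refine ⟨fun v => fl (g v), k, p, hr, fun u v huv => ?_, fun a b hab => (hp a b hab).2.2.1,
    fun a b hab i hi v => ?_, fun a b hab => (hp a b hab).1, fun a b hab => (hp a b hab).2.1,
    fun a b a' b' hab hab' i hi j hj e => ?_⟩
  · have := far u v huv
    rw [← sd_eq] at this
    exact_mod_cast this
  · obtain ⟨u, -, hn, hu⟩ := (hp a b hab).2.2.2.2 i hi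
    exact out_of_nr hn (hu v)
  · by_cases hne : a ≠ a' ∨ b ≠ b'
    · obtain ⟨u, hu, hn, hu'⟩ := (hp a b hab).2.2.2.2 i hi
      obtain ⟨w, hw, hn', -⟩ := (hp a' b' hab').2.2.2.2 j hj
      have d : ∀ v, (r : ℝ) - 1 ≤ dist (σ a b u) (g v) := fun v => by
        have := dist_triangle_right (σ a b u) (em (fl (g v))) (g v)
        linarith [hu' v, hc v]
      have := h3 a b a' b' hab hab' hne u hu (d a) (d b) w hw
      have a1 := nr_iff.1 hn
      have a2 := nr_iff.1 hn'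
      rw [← e] at a2
      have a3 := dist_triangle_left (σ a b u) (σ a' b' w) (em (p a b i))
      linarith
    · push Not at hne
      obtain ⟨rfl, rfl⟩ := hne
      exact ⟨rfl, rfl, (hp a b hab).2.2.2.1 i hi j hj e⟩

end GoneX

open GoneX in
theorem s_g1 (h : S_lat) : S_g1 := by
  intro V _ A f γ irr ⟨hf, h0, hv, hx⟩
  have cd : ∀ a b, A a b → ∀ z : ℝ × ℝ,
      ContinuousOn (fun u => dist (γ a b u) z) (Icc (0:ℝ) 1) := fun a b hab z =>
    (continuous_id.dist continuous_const).comp_continuousOn (h0 a b hab).1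
  obtain ⟨e₁, he₁, k₁⟩ := pos_min (ι := V × V)
    (fun q x => q.1 ≠ q.2 → x ≤ dist (f q.1) (f q.2))
    (fun q x y hxy hq hne => hxy.trans (hq hne)) (fun q => by
      by_cases hne : q.1 = q.2
      · exact ⟨1, one_pos, fun h => absurd hne h⟩
      · exact ⟨_, dist_pos.2 (hf.ne hne), fun _ => le_rfl⟩)
  obtain ⟨e₂, he₂, k₂⟩ := pos_min (ι := V × V × V)
    (fun q x => A q.1 q.2.1 → q.2.2 ≠ q.1 → q.2.2 ≠ q.2.1 → ∀ s ∈ Icc (0:ℝ) 1,
      x ≤ dist (γ q.1 q.2.1 s) (f q.2.2))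
    (fun q x y hxy hq a1 a2 a3 s hs => hxy.trans (hq a1 a2 a3 s hs)) (by
      rintro ⟨a, b, v⟩
      by_cases hc : A a b ∧ v ≠ a ∧ v ≠ b
      swap
      · exact ⟨1, one_pos, fun a1 a2 a3 => absurd ⟨a1, a2, a3⟩ hc⟩
      obtain ⟨hab, a2, a3⟩ := hc
      obtain ⟨x, hx, hx'⟩ := isCompact_Icc.exists_forall_le' (cd a b hab (f v)) (a := 0) (by
        intro s hs
        refine dist_pos.2 ?_
        rcases eq_or_lt_of_le hs.1 with rfl | b1
        · rw [(h0 a b hab).2.1]; exact hf.ne a2.symm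
        rcases eq_or_lt_of_le hs.2 with rfl | b2
        · rw [(h0 a b hab).2.2]; exact hf.ne a3.symm
        exact hv a b v hab s ⟨b1, b2⟩)
      exact ⟨x, hx, fun _ _ _ => hx'⟩)
  obtain ⟨ε, hε, l₁, l₂⟩ : ∃ ε : ℝ, 0 < ε ∧ 4 * ε ≤ e₁ ∧ 2 * ε ≤ e₂ :=
    ⟨min (e₁ / 4) (e₂ / 2), by positivity, by linarith [min_le_left (e₁ / 4) (e₂ / 2)],
      by linarith [min_le_right (e₁ / 4) (e₂ / 2)]⟩
  obtain ⟨δ, hδ, k₃⟩ := pos_min (ι := (V × V) × V × V)
    (fun q x => A q.1.1 q.1.2 → A q.2.1 q.2.2 → (q.1.1 ≠ q.2.1 ∨ q.1.2 ≠ q.2.2) →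
      ∀ s ∈ Icc (0:ℝ) 1, ε / 2 ≤ dist (γ q.1.1 q.1.2 s) (f q.1.1) →
        ε / 2 ≤ dist (γ q.1.1 q.1.2 s) (f q.1.2) → ∀ t ∈ Icc (0:ℝ) 1,
          x ≤ dist (γ q.1.1 q.1.2 s) (γ q.2.1 q.2.2 t))
    (fun q x y hxy hq a1 a2 a3 s hs a4 a5 t ht => hxy.trans (hq a1 a2 a3 s hs a4 a5 t ht)) (by
      rintro ⟨⟨a, b⟩, a', b'⟩
      by_cases hc : A a b ∧ A a' b' ∧ (a ≠ a' ∨ b ≠ b')
      swap
      · exact ⟨1, one_pos, fun a1 a2 a3 => absurd ⟨a1, a2, a3⟩ hc⟩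
      obtain ⟨hab, hab', hne⟩ := hc
      have hK : IsCompact ((Icc (0:ℝ) 1 ∩ (fun u => dist (γ a b u) (f a)) ⁻¹' Ici (ε / 2)) ∩
          (Icc (0:ℝ) 1 ∩ (fun u => dist (γ a b u) (f b)) ⁻¹' Ici (ε / 2))) :=
        isCompact_Icc.of_isClosed_subset
          (((cd a b hab _).preimage_isClosed_of_isClosed isClosed_Icc isClosed_Ici).inter
            ((cd a b hab _).preimage_isClosed_of_isClosed isClosed_Icc isClosed_Ici))
          (inter_subset_left.trans inter_subset_left)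
      obtain ⟨x, hx0, hx'⟩ := (hK.prod (isCompact_Icc (a := (0:ℝ)) (b := 1))).exists_forall_le'
        (f := fun q : ℝ × ℝ => dist (γ a b q.1) (γ a' b' q.2))
        (continuous_dist.comp_continuousOn
          (((h0 a b hab).1.comp continuousOn_fst fun q hq => hq.1.1.1).prodMk
            ((h0 a' b' hab').1.comp continuousOn_snd fun q hq => hq.2))) (a := 0) (by
          rintro ⟨s, t⟩ ⟨⟨⟨hs, b1⟩, -, b2⟩, ht⟩
          refine dist_pos.2 (hx a b a' b' hab hab' hne s ⟨lt_of_le_of_ne hs.1 ?_,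
            lt_of_le_of_ne hs.2 ?_⟩ t ht)
          · rintro rfl
            simp only [mem_preimage, mem_Ici, (h0 a b hab).2.1, dist_self] at b1
            linarith
          · rintro rfl
            simp only [mem_preimage, mem_Ici, (h0 a b hab).2.2, dist_self] at b2
            linarith)
      exact ⟨x, hx0, fun _ _ _ s hs a4 a5 t ht => hx' (s, t) ⟨⟨⟨hs, a4⟩, hs, a5⟩, ht⟩⟩)
  obtain ⟨l, hl, m₁, m₂⟩ : ∃ l : ℝ, 0 < l ∧ 4 ≤ l * ε ∧ 2 ≤ l * δ := by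
    refine ⟨4 / ε + 2 / δ, by positivity, ?_, ?_⟩
    · rw [add_mul, div_mul_cancel₀ _ hε.ne']
      have : 0 < 2 / δ * ε := by positivity
      linarith
    · rw [add_mul, div_mul_cancel₀ _ hδ.ne']
      have : 0 < 4 / ε * δ := by positivity
      linarith
  have ds : ∀ x y : ℝ × ℝ, dist (l • x) (l • y) = l * dist x y := fun x y => by
    rw [dist_smul₀, Real.norm_of_nonneg hl.le]
  have r1 := Int.floor_le (l * ε)
  have r2 := Int.lt_floor_add_one (l * ε)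
  obtain ⟨c, k, p, hG⟩ := scaled h irr (fun v => l • f v) (fun a b u => l • γ a b u) ⌊l * ε⌋
    (Int.floor_pos.2 (by linarith))
    (fun a b hab => ⟨(h0 a b hab).1.const_smul l, by rw [(h0 a b hab).2.1],
      by rw [(h0 a b hab).2.2]⟩)
    (fun u v huv => by
      have := mul_le_mul_of_nonneg_left (l₁.trans (k₁ (u, v) huv)) hl.le
      rw [ds]
      linarith)
    (fun a b v hab a1 a2 s hs => by
      have := mul_le_mul_of_nonneg_left (l₂.trans (k₂ (a, b, v) hab a1 a2 s hs)) hl.le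
      rw [ds]
      linarith)
    (fun a b a' b' hab hab' hne s hs a1 a2 t ht => by
      rw [ds] at a1 a2 ⊢
      have := k₃ ((a, b), a', b') hab hab' hne s hs
        (le_of_mul_le_mul_left (by linarith) hl) (le_of_mul_le_mul_left (by linarith) hl) t ht
      exact m₂.trans (mul_le_mul_of_nonneg_left this hl.le))
  exact ⟨c, _, k, p, hG⟩

end Pool.Agent.MP_a17da5_co.PC
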