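import Pool.Agent.MP_a17da5_co.PC.St

/-! From a lattice drawing to a drawing with straight edges. -/

set_option autoImplicit false

namespace Pool.Agent.MP_a17da5_co.PC

open Relation

namespace GtwoX

/-- A lattice point as a point of the plane. -/
def cst (q : ℤ × ℤ) : ℝ × ℝ := ((q.1 : ℝ), (q.2 : ℝ))

/-- Distance to a lattice point in the maximum norm. -/
def sr (z : ℝ × ℝ) (c : ℤ × ℤ) : ℝ := max |z.1 - c.1| |z.2 - c.2|

/-- Unit steps. -/
def Un (p q : ℤ × ℤ) : Prop := |q.1 - p.1| + |q.2 - p.2| = 1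

theorem cst_inj : Function.Injective cst := fun p q h => by
  have h1 : (p.1 : ℝ) = q.1 := congrArg Prod.fst h
  have h2 : (p.2 : ℝ) = q.2 := congrArg Prod.snd h
  exact Prod.ext (by exact_mod_cast h1) (by exact_mod_cast h2)

theorem sr_cst (q c : ℤ × ℤ) : sr (cst q) c = sd q c := by
  simp only [sr, cst, sd]
  push_cast
  rfl

theorem seg {p q : ℤ × ℤ} {z : ℝ × ℝ} (h : z ∈ openSegment ℝ (cst p) (cst q)) :
    ∃ t : ℝ, 0 < t ∧ t < 1 ∧ z.1 = p.1 + t * (q.1 - p.1) ∧ z.2 = p.2 + t * (q.2 - p.2) := by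
  rw [openSegment_eq_image'] at h
  obtain ⟨t, ⟨h0, h1⟩, rfl⟩ := h
  exact ⟨t, h0, h1, rfl, rfl⟩

theorem rad {c q : ℤ × ℤ} {r : ℤ} (h : sd q c = r) {z : ℝ × ℝ} {t : ℝ} (ht : 0 < t)
    (h1 : z.1 = c.1 + t * (q.1 - c.1)) (h2 : z.2 = c.2 + t * (q.2 - c.2)) : sr z c = t * r := by
  rw [← h, ← sr_cst, sr, sr, h1, h2, add_sub_cancel_left, add_sub_cancel_left, abs_mul, abs_mul,
    abs_of_pos ht, mul_max_of_nonneg _ _ ht.le]
  rfl

theorem rad_lt {c q : ℤ × ℤ} {r : ℤ} (hr : 0 < r) (h : sd q c = r) {z : ℝ × ℝ}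
    (hz : z ∈ openSegment ℝ (cst c) (cst q)) : 0 < sr z c ∧ sr z c < r := by
  obtain ⟨t, h0, h1, h2, h3⟩ := seg hz
  have h4 : (0 : ℝ) < r := by exact_mod_cast hr
  rw [rad h h0 h2 h3]
  exact ⟨mul_pos h0 h4, by nlinarith⟩

theorem rad_rad {c q q' : ℤ × ℤ} {r : ℤ} (hr : 0 < r) (h : sd q c = r) (h' : sd q' c = r)
    {z : ℝ × ℝ} (hz : z ∈ openSegment ℝ (cst c) (cst q))
    (hz' : z ∈ openSegment ℝ (cst c) (cst q')) : q = q' := by
  obtain ⟨t, h0, -, h2, h3⟩ := seg hz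
  obtain ⟨t', a0, -, a2, a3⟩ := seg hz'
  have h4 : (0 : ℝ) < r := by exact_mod_cast hr
  obtain rfl : t = t' := mul_right_cancel₀ h4.ne' ((rad h h0 h2 h3).symm.trans (rad h' a0 a2 a3))
  refine cst_inj (Prod.ext ?_ ?_)
  · exact sub_left_injective (mul_left_cancel₀ h0.ne' (add_left_cancel (h2.symm.trans a2)))
  · exact sub_left_injective (mul_left_cancel₀ h0.ne' (add_left_cancel (h3.symm.trans a3)))

theorem far {c c' : ℤ × ℤ} {r : ℤ} {z : ℝ × ℝ} (h : sr z c < r) (h' : sr z c' < r) :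
    sd c c' < 2 * r := by
  have : (sd c c' : ℝ) < 2 * r := by
    rw [← sr_cst]
    simp only [sr, cst, max_lt_iff, abs_lt] at h h' ⊢
    refine ⟨⟨?_, ?_⟩, ?_, ?_⟩ <;> linarith [h.1.1, h.1.2, h.2.1, h.2.2, h'.1.1, h'.1.2, h'.2.1,
      h'.2.2]
  exact_mod_cast this

theorem fl {m n : ℤ} {z t : ℝ} (h0 : 0 < t) (h1 : t < 1) (h : |n - m| ≤ 1)
    (hz : z = m + t * (n - m)) : ⌊z⌋ = min m n ∧ ⌈z⌉ = max m n := by
  have : n = m ∨ n = m + 1 ∨ m = n + 1 := by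
    rw [abs_le] at h
    omega
  rcases this with rfl | rfl | rfl
  · simp [hz]
  · rw [min_eq_left (by omega), max_eq_right (by omega), Int.floor_eq_iff, Int.ceil_eq_iff, hz]
    push_cast
    refine ⟨⟨?_, ?_⟩, ?_, ?_⟩ <;> linarith
  · rw [min_eq_right (by omega), max_eq_left (by omega), Int.floor_eq_iff, Int.ceil_eq_iff, hz]
    push_cast
    refine ⟨⟨?_, ?_⟩, ?_, ?_⟩ <;> linarith

theorem un_fl {p q : ℤ × ℤ} (h : Un p q) {z : ℝ × ℝ} (hz : z ∈ openSegment ℝ (cst p) (cst q)) :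
    (⌊z.1⌋ = min p.1 q.1 ∧ ⌈z.1⌉ = max p.1 q.1) ∧ ⌊z.2⌋ = min p.2 q.2 ∧ ⌈z.2⌉ = max p.2 q.2 := by
  obtain ⟨t, h0, h1, h2, h3⟩ := seg hz
  unfold Un at h
  exact ⟨fl h0 h1 (by linarith [abs_nonneg (q.2 - p.2)]) h2,
    fl h0 h1 (by linarith [abs_nonneg (q.1 - p.1)]) h3⟩

theorem un_pt {p q w : ℤ × ℤ} (h : Un p q) : cst w ∉ openSegment ℝ (cst p) (cst q) := by
  intro hz
  have h1 := un_fl h hz
  simp only [cst, Int.floor_intCast, Int.ceil_intCast] at h1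
  simp only [Un, abs_eq_max_neg] at h
  omega

theorem un_un {p q p' q' : ℤ × ℤ} (h : Un p q) (h' : Un p' q') {z : ℝ × ℝ}
    (hz : z ∈ openSegment ℝ (cst p) (cst q)) (hz' : z ∈ openSegment ℝ (cst p') (cst q')) :
    (p = p' ∧ q = q') ∨ (p = q' ∧ q = p') := by
  have h1 := un_fl h hz
  have h2 := un_fl h' hz'
  simp only [Un, abs_eq_max_neg] at h h'
  simp only [Prod.ext_iff]
  omega

theorem un_out {p q c : ℤ × ℤ} {r : ℤ} (h : Un p q) (hp : r ≤ sd p c)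
    (hq : r ≤ sd q c) {z : ℝ × ℝ} (hz : z ∈ openSegment ℝ (cst p) (cst q)) : ¬ sr z c < r := by
  intro h1
  have h2 := un_fl h hz
  simp only [sr, max_lt_iff, abs_lt] at h1
  have a1 : c.1 - r < ⌈z.1⌉ := Int.lt_ceil.2 (by push_cast; linarith [h1.1.1])
  have a2 : ⌊z.1⌋ < c.1 + r := Int.floor_lt.2 (by push_cast; linarith [h1.1.2])
  have a3 : c.2 - r < ⌈z.2⌉ := Int.lt_ceil.2 (by push_cast; linarith [h1.2.1])
  have a4 : ⌊z.2⌋ < c.2 + r := Int.floor_lt.2 (by push_cast; linarith [h1.2.2])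
  simp only [Un, sd, abs_eq_max_neg] at h hp hq
  omega

section

variable {V : Type} (A : V → V → Prop) (k : V → V → ℕ)

/-- The lattice points on the edges. -/
def Nd : Type := {x : V × V × ℕ // A x.1 x.2.1 ∧ x.2.2 ≤ k x.1 x.2.1}

/-- The subdivided relation. -/
def Ad : V ⊕ Nd A k → V ⊕ Nd A k → Prop
  | .inl _, .inl _ => False
  | .inl a, .inr x => x.1.1 = a ∧ x.1.2.2 = 0
  | .inr x, .inl b => x.1.2.1 = b ∧ x.1.2.2 = k x.1.1 x.1.2.1
  | .inr x, .inr y => y.1.1 = x.1.1 ∧ y.1.2.1 = x.1.2.1 ∧ y.1.2.2 = x.1.2.2 + 1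

variable {A k}

theorem fin_Nd [Finite V] {M : ℕ} (hM : ∀ a b, k a b < M) : Finite (Nd A k) :=
  Finite.of_injective (β := V × V × Fin M)
    (fun x => (x.1.1, x.1.2.1, ⟨x.1.2.2, x.2.2.trans_lt (hM _ _)⟩)) fun x y h => by
      simp only [Prod.mk.injEq, Fin.mk.injEq] at h
      exact Subtype.ext (Prod.ext h.1 (Prod.ext h.2.1 h.2.2))

theorem reach (a b : V) :
    ReflTransGen A a b ↔ ReflTransGen (Ad A k) (.inl a) (.inl b) := by
  constructor
  · refine ReflTransGen.lift' (p := Ad A k) Sum.inl (fun a b h => ?_) a b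
    change ReflTransGen (Ad A k) (.inl a) (.inl b)
    have h1 : ∀ (i : ℕ) (hi : i ≤ k a b),
        ReflTransGen (Ad A k) (.inl a) (.inr ⟨(a, b, i), h, hi⟩) := by
      intro i
      induction i with
      | zero => exact fun _ => .single ⟨rfl, rfl⟩
      | succ i ih => exact fun hi => (ih (by omega)).tail ⟨rfl, rfl, rfl⟩
    exact (h1 _ le_rfl).tail ⟨rfl, rfl⟩
  · refine ReflTransGen.lift' (p := A) (Sum.elim id fun x : Nd A k => x.1.1) ?_ (.inl a) (.inl b)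
    clear a b
    rintro (a | x) (b | y) h
    · exact h.elim
    · exact h.1 ▸ .refl
    · exact .single (h.1 ▸ x.2.1)
    · change ReflTransGen A x.1.1 y.1.1
      rw [h.1]

/-- The lattice position. -/
def ps (c : V → ℤ × ℤ) (p : V → V → ℕ → ℤ × ℤ) : V ⊕ Nd A k → ℤ × ℤ :=
  Sum.elim c fun x => p x.1.1 x.1.2.1 x.1.2.2

variable {c : V → ℤ × ℤ} {r : ℤ} {p : V → V → ℕ → ℤ × ℤ}

theorem out (G : GD A c r k p) (x : Nd A k) (v : V) : r ≤ sd (ps c p (.inr x)) (c v) :=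
  G.out _ _ x.2.1 _ x.2.2 v

theorem sd_self (q : ℤ × ℤ) : sd q q = 0 := by simp [sd]

theorem ps_inj (G : GD A c r k p) : Function.Injective (ps (A := A) (k := k) c p) := by
  have h0 := G.pos
  rintro (a | x) (b | y) h
  · by_contra h1
    have h2 := G.far a b fun e => h1 (congrArg _ e)
    rw [show c a = c b from h, sd_self] at h2
    omega
  · have h2 := out G y a
    rw [← h, show ps c p (.inl a : V ⊕ Nd A k) = c a from rfl, sd_self] at h2
    omega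
  · have h2 := out G x b
    rw [h, show ps c p (.inl b : V ⊕ Nd A k) = c b from rfl, sd_self] at h2
    omega
  · obtain ⟨h1, h2, h3⟩ := G.inj _ _ _ _ x.2.1 y.2.1 _ x.2.2 _ y.2.2 h
    exact congrArg _ (Subtype.ext (Prod.ext h1 (Prod.ext h2 h3)))

theorem cls (G : GD A c r k p) {a b : V ⊕ Nd A k} (h : Ad A k a b) :
    (∃ v x, ((a = .inl v ∧ b = .inr x) ∨ (a = .inr x ∧ b = .inl v)) ∧
      sd (ps c p (.inr x)) (c v) = r ∧ openSegment ℝ (cst (ps c p a)) (cst (ps c p b)) =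
        openSegment ℝ (cst (c v)) (cst (ps c p (.inr x)))) ∨
    ∃ x y, a = .inr x ∧ b = .inr y ∧ Un (ps c p a) (ps c p b) := by
  rcases a with a | x <;> rcases b with b | y
  · exact h.elim
  · refine .inl ⟨a, y, .inl ⟨rfl, rfl⟩, ?_, rfl⟩
    have := G.first _ _ y.2.1
    rwa [← h.2, show c y.1.1 = c a from congrArg c h.1] at this
  · refine .inl ⟨b, x, .inr ⟨rfl, rfl⟩, ?_, openSegment_symm _ _ _⟩
    have := G.last _ _ x.2.1
    rwa [← h.2, show c x.1.2.1 = c b from congrArg c h.1] at this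
  · refine .inr ⟨x, y, rfl, rfl, ?_⟩
    have h1 := y.2.2
    rw [h.1, h.2.1, h.2.2] at h1
    have := G.step _ _ x.2.1 x.1.2.2 h1
    change |(p y.1.1 y.1.2.1 y.1.2.2).1 - _| + |(p y.1.1 y.1.2.1 y.1.2.2).2 - _| = 1
    rwa [h.1, h.2.1, h.2.2]

theorem no_pt (G : GD A c r k p) {a b : V ⊕ Nd A k} (h : Ad A k a b) (w : V ⊕ Nd A k) :
    cst (ps c p w) ∉ openSegment ℝ (cst (ps c p a)) (cst (ps c p b)) := by
  rcases cls G h with ⟨v, x, -, h1, h2⟩ | ⟨x, y, -, -, h1⟩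
  · rw [h2]
    intro hz
    obtain ⟨h3, h4⟩ := rad_lt G.pos h1 hz
    rw [sr_cst] at h3 h4
    have h5 : 0 < sd (ps c p w) (c v) := by exact_mod_cast h3
    have h6 : sd (ps c p w) (c v) < r := by exact_mod_cast h4
    rcases w with u | y
    · change 0 < sd (c u) (c v) at h5
      change sd (c u) (c v) < r at h6
      have h7 := G.far u v fun e => by
        rw [e, sd_self] at h5
        omega
      omega
    · exact absurd h6 (not_lt.2 (out G y v))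
  · exact un_pt h1

theorem meet (G : GD A c r k p) {a b a' b' : V ⊕ Nd A k} (h : Ad A k a b) (h' : Ad A k a' b')
    {z : ℝ × ℝ} (hz : z ∈ openSegment ℝ (cst (ps c p a)) (cst (ps c p b)))
    (hz' : z ∈ openSegment ℝ (cst (ps c p a')) (cst (ps c p b'))) :
    (a = a' ∧ b = b') ∨ (a = b' ∧ b = a') := by
  rcases cls G h with ⟨v, x, h0, h1, h2⟩ | ⟨x, y, rfl, rfl, h1⟩ <;>
    rcases cls G h' with ⟨v', x', a0, a1, a2⟩ | ⟨x', y', rfl, rfl, a1⟩
  · rw [h2] at hz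
    rw [a2] at hz'
    obtain rfl : v = v' := by
      by_contra h3
      exact absurd (far (rad_lt G.pos h1 hz).2 (rad_lt G.pos a1 hz').2) (not_lt.2 (G.far _ _ h3).le)
    obtain rfl : x = x' := Sum.inr_injective (ps_inj G (rad_rad G.pos h1 a1 hz hz'))
    rcases h0 with ⟨rfl, rfl⟩ | ⟨rfl, rfl⟩ <;> rcases a0 with ⟨rfl, rfl⟩ | ⟨rfl, rfl⟩ <;> simp
  · rw [h2] at hz
    exact absurd (rad_lt G.pos h1 hz).2 (un_out a1 (out G x' v) (out G y' v) hz')
  · rw [a2] at hz'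
    exact absurd (rad_lt G.pos a1 hz').2 (un_out h1 (out G x v') (out G y v') hz)
  · exact (un_un h1 a1 hz hz').imp (fun e => ⟨ps_inj G e.1, ps_inj G e.2⟩)
      fun e => ⟨ps_inj G e.1, ps_inj G e.2⟩

end

end GtwoX

open GtwoX in
theorem s_g2 : S_g2 := by
  intro V _ A τ c r k p hτ G
  obtain ⟨M, hM⟩ := (Set.finite_range fun e : V × V => k e.1 e.2 + 2).bddAbove
  have hM' : ∀ a b, k a b + 2 ≤ M := fun a b => hM ⟨(a, b), rfl⟩
  have := fin_Nd (A := A) (k := k) (M := M) fun a b => by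
    have := hM' a b
    omega
  have ht : ∀ a b, Ad A k a b →
      Sum.elim (fun v => M * τ v) (fun x : Nd A k => M * τ x.1.1 + x.1.2.2 + 1) a <
        Sum.elim (fun v => M * τ v) (fun x : Nd A k => M * τ x.1.1 + x.1.2.2 + 1) b := by
    rintro (a | x) (b | y) h
    · exact h.elim
    · simp only [Sum.elim_inl, Sum.elim_inr, h.1]
      omega
    · simp only [Sum.elim_inl, Sum.elim_inr, ← h.1]
      have h1 := mul_le_mul_of_nonneg_left (Int.add_one_le_of_lt (hτ _ _ x.2.1))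
        (Int.natCast_nonneg M)
      have h2 := hM' x.1.1 x.1.2.1
      have h3 := x.2.2
      rw [mul_add, mul_one] at h1
      omega
    · simp only [Sum.elim_inr, h.1, h.2.2]
      omega
  refine ⟨V ⊕ Nd A k, Fintype.ofFinite _, Ad A k, _, fun a => cst (ps c p a), Sum.inl, ht,
    ⟨cst_inj.comp (ps_inj G), fun a b w h => no_pt G h w, fun a b a' b' h h' hne => ?_⟩,
    Sum.inl_injective, reach⟩
  refine Set.disjoint_left.2 fun z hz hz' => ?_
  rcases meet G h h' hz hz' with ⟨rfl, rfl⟩ | ⟨rfl, rfl⟩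
  · simp at hne
  · exact lt_asymm (ht _ _ h) (ht _ _ h')

end Pool.Agent.MP_a17da5_co.PC
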