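import Pool.Agent.MP_a17da5_co.PC.St

/-!
Hitting a tree path from outside a subtree.
-/

set_option autoImplicit false

namespace Pool.Agent.MP_a17da5_co.PC

namespace HitX

/-- A test of the right argument only. -/
theorem unary {A B : Type} [Fintype A] [Fintype B] (P : B → Prop) :
    BDec 1 (fun (_ : A) (b : B) => P b) := by
  classical
  refine (BDec.lt (fun _ : A => (0 : ℤ)) (fun b : B => if P b then 1 else 0)).congr fun _ b => ?_
  by_cases h : P b <;> simp [h]

variable {V D : Type} [Fintype V] [Fintype D] {R : RP V D} {T : R.Tree} {pos : D → ℤ} {en : V → ℤ}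

theorem self_iv (h : Cont T pos en) {c : D} (hc : R.green (R.vt c)) :
    pos (T.par (R.vt c)) ≤ pos c ∧ pos c ≤ en (R.vt c) :=
  (h.iv _ c hc hc).1 (T.anc_refl _)

theorem anc_iff (h : Cont T pos en) {u b : V} (hu : R.green u) (hb : R.green b) :
    T.Anc u b ↔ pos (T.par u) ≤ pos (T.par b) ∧ pos (T.par b) ≤ en u := by
  have := h.iv u (T.par b) hu (by rwa [T.vt_par b hb])
  rwa [T.vt_par b hb] at this

end HitX

theorem s_hit (h1 : S_pos) (h2 : S_cross) (h3 : S_line) : S_hit := by
  classical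
  obtain ⟨N, hN⟩ := h3
  refine ⟨1 + (N + N), fun V D _ _ R T M r hM => ?_⟩
  obtain ⟨pos, en, hC⟩ := h1 V D R T
  have hX := h2 V D R T pos en hC M r hM
  have gr : ∀ c : {c : D // M (R.vt c)}, R.green (R.vt c.1) := fun c => (hM.2 _ c.2).1
  have hL := hN V V {c : D // M (R.vt c)} (fun c => 2 * pos c.1)
    (fun c => 2 * en (R.vt c.1) + 1) (fun b => 2 * pos (T.par b) + 1)
    (fun a c => R.Rch M a c.1)
    (fun c c' h => Subtype.ext (hC.inj (by simp only at h; omega)))
    (fun b c => by omega)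
    (fun c => by have := HitX.self_iv hC (gr c); omega)
    (fun c c' k1 k2 => by
      have a1 := HitX.self_iv hC (gr c)
      have a2 := hC.mono _ _ (gr c') ((hC.iv _ c'.1 (gr c) (gr c')).2 ⟨by omega, by omega⟩)
      omega)
    (fun a a' c1 c2 c3 c4 k1 k2 k3 => hX a a' c1.1 c2.1 c3.1 c4.1 (by simp only at k1; omega)
      (by simp only at k2; omega) (by simp only at k3; omega))
  have hR := hN V V {c : D // M (R.vt c)} (fun c => -(2 * pos c.1))
    (fun c => -(2 * pos (T.par (R.vt c.1)))) (fun b => -(2 * pos (T.par b) + 1))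
    (fun a c => R.Rch M a c.1)
    (fun c c' h => Subtype.ext (hC.inj (by simp only at h; omega)))
    (fun b c => by omega)
    (fun c => by have := HitX.self_iv hC (gr c); omega)
    (fun c c' k1 k2 => by
      have a1 := HitX.self_iv hC (gr c)
      have a2 := (HitX.anc_iff hC (gr c) (gr c')).1
        ((hC.iv _ c'.1 (gr c) (gr c')).2 ⟨by omega, by omega⟩)
      omega)
    (fun a a' c1 c2 c3 c4 k1 k2 k3 r1 r2 r3 r4 => by
      have := hX a' a c4.1 c3.1 c2.1 c1.1 (by simp only at k3; omega)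
        (by simp only at k2; omega) (by simp only at k1; omega) r4 r3 r2 r1
      exact ⟨this.2.symm, this.1.symm⟩)
  refine ((HitX.unary M).and (hL.or hR)).congr fun a b => and_congr_right fun hb => ?_
  have gb : R.green b := (hM.2 b hb).1
  constructor
  · rintro (⟨c, k1, k2, k3⟩ | ⟨c, k1, k2, k3⟩)
    all_goals
      have a1 := HitX.self_iv hC (gr c)
      exact ⟨c.1, k1, (HitX.anc_iff hC (gr c) gb).2 ⟨by omega, by omega⟩⟩
  · rintro ⟨c, k1, k2⟩
    have a1 := (HitX.anc_iff hC (gr ⟨c, k1.1⟩) gb).1 k2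
    simp only at a1
    by_cases h : pos c ≤ pos (T.par b)
    · exact Or.inl ⟨⟨c, k1.1⟩, k1, by simp only; omega, by simp only; omega⟩
    · exact Or.inr ⟨⟨c, k1.1⟩, k1, by simp only; omega, by simp only; omega⟩

end Pool.Agent.MP_a17da5_co.PC
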