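import Pool.Agent.MP_a17da5_co.PC.St

/-! A curve is shadowed by a simple lattice path. -/

set_option autoImplicit false

namespace Pool.Agent.MP_a17da5_co.PC

open Filter Topology

namespace LatX

/-- Unit steps inside a set of lattice points. -/
def gr (U : ℤ × ℤ → Prop) : SimpleGraph (ℤ × ℤ) where
  Adj a b := |b.1 - a.1| + |b.2 - a.2| = 1 ∧ U a ∧ U b
  symm := ⟨fun a b h => ⟨by rw [abs_sub_comm a.1, abs_sub_comm a.2]; exact h.1, h.2.2, h.2.1⟩⟩
  loopless := ⟨fun a h => by simpa using h.1⟩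

theorem near {a b : ℤ} {x : ℝ} (ha : |(a : ℝ) - x| < 1) (hb : |(b : ℝ) - x| < 1) :
    a = b ∨ |b - a| = 1 := by
  rw [abs_lt] at ha hb
  have h1 : b - a < 2 := by exact_mod_cast (by linarith [ha.1, hb.2] : (b : ℝ) - a < 2)
  have h2 : a - b < 2 := by exact_mod_cast (by linarith [ha.2, hb.1] : (a : ℝ) - b < 2)
  rcases abs_cases (b - a) with h | h <;> omega

theorem reach {U : ℤ × ℤ → Prop} {x : ℝ × ℝ} (hU : ∀ c, Nr c x → U c) {a b : ℤ × ℤ}
    (ha : Nr a x) (hb : Nr b x) : (gr U).Reachable a b := by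
  have hm : Nr (b.1, a.2) x := ⟨hb.1, ha.2⟩
  refine SimpleGraph.Reachable.trans (v := (b.1, a.2)) ?_ ?_
  · rcases near ha.1 hb.1 with h | h
    · rw [← h]
    · exact SimpleGraph.Adj.reachable ⟨by simpa using h, hU _ ha, hU _ hm⟩
  · rcases near ha.2 hb.2 with h | h
    · rw [h]
    · exact SimpleGraph.Adj.reachable ⟨by simpa using h, hU _ hm, hU _ hb⟩

theorem exists_nr (x : ℝ × ℝ) : ∃ c, Nr c x := by
  have h : ∀ y : ℝ, |(⌊y⌋ : ℝ) - y| < 1 := fun y =>
    abs_lt.2 ⟨by linarith [Int.lt_floor_add_one y], by linarith [Int.floor_le y]⟩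
  exact ⟨(⌊x.1⌋, ⌊x.2⌋), h _, h _⟩

theorem isOpen_nr (c : ℤ × ℤ) : IsOpen {x | Nr c x} :=
  (isOpen_lt (f := fun x : ℝ × ℝ => |(c.1 : ℝ) - x.1|) (by fun_prop) continuous_const).inter
    (isOpen_lt (f := fun x : ℝ × ℝ => |(c.2 : ℝ) - x.2|) (by fun_prop) continuous_const)

end LatX

open LatX

theorem s_lat : S_lat := by
  intro σ s t q q' hst hσ hq hq'
  let U : ℤ × ℤ → Prop := fun c => ∃ u ∈ Set.Icc s t, Nr c (σ u)
  have hU : ∀ u ∈ Set.Icc s t, ∀ c, Nr c (σ u) → U c := fun u hu c hc => ⟨u, hu, hc⟩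
  have key := isPreconnected_Icc.induction₂
    (fun u v => ∀ a b, Nr a (σ u) → Nr b (σ v) → (gr U).Reachable a b)
    (fun u hu => by
      obtain ⟨c, hc⟩ := exists_nr (σ u)
      filter_upwards [(hσ u hu).tendsto.eventually ((isOpen_nr c).mem_nhds hc),
        self_mem_nhdsWithin] with v h1 h2 a b ha hb
      exact (reach (hU u hu) ha hc).trans (reach (hU v h2) h1 hb))
    (fun u v w _ _ _ h1 h2 a b ha hb => by
      obtain ⟨c, hc⟩ := exists_nr (σ v)
      exact (h1 a c ha hc).trans (h2 c b hc hb))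
    (fun u v _ _ h a b ha hb => (h b a hb ha).symm)
    (Set.left_mem_Icc.2 hst) (Set.right_mem_Icc.2 hst) q q' hq hq'
  obtain ⟨w, hw⟩ := key.exists_isPath
  refine ⟨w.length, w.getVert, w.getVert_zero, w.getVert_length,
    fun i hi => (w.adj_getVert_succ hi).1, fun i hi j hj e => hw.getVert_injOn hi hj e,
    fun i hi => ?_⟩
  cases i with
  | zero => exact ⟨s, Set.left_mem_Icc.2 hst, by rwa [w.getVert_zero]⟩
  | succ i => exact (w.adj_getVert_succ hi).2.2

end Pool.Agent.MP_a17da5_co.PC
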