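import Pool.Agent.MP_a17da5_co.PC.St

/-! Lexicographically first trees exist. -/

set_option autoImplicit false

namespace Pool.Agent.MP_a17da5_co.PC

open Relation

namespace LexX

variable {V D : Type} [Fintype D] (R : RP V D) (ρ : D → ℤ)

theorem first (S : D → Prop) (x : ℤ) (h : ∃ e, S e) :
    ∃ e, S e ∧ ∀ e', S e' → ¬ Bt x (ρ e') (ρ e) := by
  by_cases h1 : ∃ e, S e ∧ x < ρ e
  · obtain ⟨e, he, hm⟩ := Set.exists_min_image {e | S e ∧ x < ρ e} ρ (Set.toFinite _) h1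
    refine ⟨e, he.1, fun e' he' hb => ?_⟩
    have h2 := he.2
    have h3 : x < ρ e' → ρ e ≤ ρ e' := fun k => hm e' ⟨he', k⟩
    unfold Bt at hb
    omega
  · obtain ⟨e, he, hm⟩ := Set.exists_min_image {e | S e} ρ (Set.toFinite _) h
    refine ⟨e, he, fun e' he' hb => ?_⟩
    have h2 : ¬ x < ρ e' := fun k => h1 ⟨e', he', k⟩
    have h3 : ρ e ≤ ρ e' := hm e' he'
    unfold Bt at hb
    omega

/-- One step of the greedy path to `b`, on incoming darts. -/
def St (b : V) (p q : D) : Prop :=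
  ¬ R.fw p ∧ ∃ e, q = R.op e ∧ R.fw e ∧ R.vt e = R.vt p ∧ R.le (R.hd e) b ∧
    ∀ e', R.fw e' → R.vt e' = R.vt p → R.le (R.hd e') b → ¬ Bt (ρ p) (ρ e') (ρ e)

/-- The incoming darts of the greedy path to `b`. -/
def Gr (b : V) (p : D) : Prop := ReflTransGen (St R ρ b) R.d0 p

variable {R ρ}

theorem St.adj {b : V} {p q : D} (h : St R ρ b p q) : R.adj (R.vt p) (R.vt q) := by
  obtain ⟨-, e, rfl, h1, h2, -⟩ := h
  exact ⟨e, h1, h2, rfl⟩

theorem le_of {b : V} {p q : D} (h : ReflTransGen (St R ρ b) p q) : R.le (R.vt p) (R.vt q) := by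
  induction h with
  | refl => exact R.le_refl _
  | tail _ h2 ih => exact ih.trans h2.adj.le

theorem eq_of {b : V} {p q : D} (h : ReflTransGen (St R ρ b) p q) (e : R.vt p = R.vt q) :
    p = q := by
  rcases h.cases_tail with h | ⟨c, h1, h2⟩
  · exact h.symm
  · have a := (le_of h1).τ_le
    have b := h2.adj.τ_lt
    rw [e] at a
    omega

theorem uniq (hρ : R.Rk ρ) (b : V) : Relator.RightUnique (St R ρ b) := by
  rintro p _ _ ⟨h0, e, rfl, h1, h2, h3, h4⟩ ⟨-, f, rfl, k1, k2, k3, k4⟩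
  have a := h4 f k1 k2 k3
  have c := k4 e h1 h2 h3
  have d1 : ρ e ≠ ρ p := fun k => h0 (hρ e p h2 k ▸ h1)
  have d2 : ρ f ≠ ρ p := fun k => h0 (hρ f p k2 k ▸ k1)
  rw [hρ e f (h2.trans k2.symm) (by unfold Bt at a c; omega)]

theorem Gr.uniq (hρ : R.Rk ρ) {b : V} {p q : D} (h : Gr R ρ b p) (h' : Gr R ρ b q)
    (e : R.vt p = R.vt q) : p = q := by
  rcases ReflTransGen.total_of_right_unique (LexX.uniq hρ b) h h' with k | k
  · exact eq_of k e
  · exact (eq_of k e.symm).symm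

theorem Gr.not_fw {b : V} {p : D} (h : Gr R ρ b p) : ¬ R.fw p := by
  rcases ReflTransGen.cases_tail h with h | ⟨c, -, -, e, rfl, h1, -⟩
  · rw [h]; exact RP.not_fw_d0
  · exact RP.not_fw_op h1

theorem Gr.le {b : V} {p : D} (h : Gr R ρ b p) (hb : R.green b) : R.le (R.vt p) b := by
  rcases ReflTransGen.cases_tail h with h | ⟨c, -, -, e, rfl, -, -, h1, -⟩
  · rw [h]; exact hb
  · exact h1

theorem reach {b : V} (n : ℕ) : ∀ p, Gr R ρ b p → R.le (R.vt p) b → R.τ b ≤ R.τ (R.vt p) + n →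
    ∃ q, Gr R ρ b q ∧ R.vt q = b := by
  induction n with
  | zero =>
    intro p h1 h2 h3
    rcases h2.eq_or_lt with k | k
    · exact ⟨p, h1, k⟩
    · omega
  | succ n ih =>
    intro p h1 h2 h3
    rcases ReflTransGen.cases_head h2 with k | ⟨c, ⟨e0, k1, k2, rfl⟩, k3⟩
    · exact ⟨p, h1, k⟩
    · obtain ⟨e, ⟨a1, a2, a3⟩, a4⟩ := first ρ
        (fun e => R.fw e ∧ R.vt e = R.vt p ∧ R.le (R.hd e) b) (ρ p) ⟨e0, k1, k2, k3⟩
      refine ih (R.op e) (ReflTransGen.tail h1
        ⟨h1.not_fw, e, rfl, a1, a2, a3, fun e' b1 b2 b3 => a4 e' ⟨b1, b2, b3⟩⟩) a3 ?_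
      have := RP.τ_hd a1
      rw [a2] at this
      rw [RP.vt_op]
      omega

theorem pref {b : V} {p q : D} (h : ReflTransGen (St R ρ b) p q) (hq : R.le (R.vt q) b) :
    ReflTransGen (St R ρ (R.vt q)) p q := by
  induction h using ReflTransGen.head_induction_on with
  | refl => exact ReflTransGen.refl
  | head h1 h2 ih =>
    obtain ⟨h0, e, rfl, a1, a2, -, a4⟩ := h1
    exact ReflTransGen.head
      ⟨h0, e, rfl, a1, a2, le_of h2, fun e' b1 b2 b3 => a4 e' b1 b2 (b3.trans hq)⟩ ih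

end LexX

open LexX in
theorem s_lex : S_lex := by
  intro V D _ _ R ρ hρ
  have hex : ∀ v, ∃ q, R.green v → Gr R ρ v q ∧ R.vt q = v := fun v => by
    by_cases hv : R.green v
    · obtain ⟨q, hq⟩ := reach (R := R) (ρ := ρ) (R.τ v - R.τ R.root).toNat R.d0 ReflTransGen.refl hv
        (by change _ ≤ R.τ R.root + _; omega)
      exact ⟨q, fun _ => hq⟩
    · exact ⟨R.d0, fun h => absurd h hv⟩
  choose par hpar using hex
  have key : ∀ b q, R.green b → Gr R ρ b q → par (R.vt q) = q := fun b q hb h =>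
    (hpar _ (le_of h)).1.uniq hρ (pref h (h.le hb)) (hpar _ (le_of h)).2
  let T : R.Tree :=
    { par := par
      vt_par := fun v hv => (hpar v hv).2
      par_root := key R.root R.d0 R.green_root ReflTransGen.refl
      fw_par := fun v hv hr => by
        obtain ⟨h1, h2⟩ := hpar v hv
        rcases ReflTransGen.cases_tail h1 with h | ⟨c, -, -, e, h, k, -⟩
        · exact absurd (by rw [← h2, h]; rfl) hr
        · rwa [h, R.op_op]
      gr_par := fun v hv => by
        rcases ReflTransGen.cases_tail (hpar v hv).1 with h | ⟨c, k1, -, e, h, -, k, -⟩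
        · rw [h, R.hd_d0]; exact R.green_root
        · rw [h, R.hd_op, k]; exact le_of k1 }
  refine ⟨T, fun b f e hb hf he hv hl => ?_⟩
  have h1 : Gr R ρ b (par (R.hd f)) := by
    refine RP.Tree.anc_ind (T := T) (P := fun c => Gr R ρ b (par c)) (hpar b hb).1
      (fun c _ hc hr h => ?_) hf.2.2
    rcases ReflTransGen.cases_tail h with k | ⟨p, k1, -, e, k, -, k2, -⟩
    · exact absurd (by rw [← (hpar c hc).2, k]; rfl) hr
    · change Gr R ρ b (par (R.hd (par c)))
      rw [k, R.hd_op, k2, key b p hb k1]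
      exact k1
  have h2 : par (R.hd f) = R.op f := hf.2.1
  rw [h2] at h1
  rcases ReflTransGen.cases_tail h1 with k | ⟨p, k1, -, e0, k, -, k2, -, k3⟩
  · exact absurd (R.op_inj (k.trans R.op_d0.symm) ▸ hf.1) RP.not_fw_d0
  · obtain rfl := R.op_inj k
    change ¬ Bt (ρ (par (R.vt f))) _ _
    rw [k2, key b p hb k1]
    exact k3 e he (hv.trans k2) hl

end Pool.Agent.MP_a17da5_co.PC
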