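import Pool.Agent.MP_a17da5_co.PC.St

/-! The line lemma for families without crossings. -/

set_option autoImplicit false

namespace Pool.Agent.MP_a17da5_co.PC

namespace LineX

theorem height {A C : Type} [Fintype C] {pos : C → ℤ} {Reach : A → C → Prop} {l r : A → C}
    (hp : Function.Injective pos) (hn : Nested pos Reach l r) : ∃ h : A → ℤ,
      (∀ a a', pos (r a) - pos (l a) < pos (r a') - pos (l a') → h a < h a') ∧
      ∀ a a' y, Reach a y → pos (l a') ≤ pos y → pos y ≤ pos (r a') → ¬ Reach a' y → h a < h a' := by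
  classical
  let S : A → Finset C := fun a =>
    Finset.univ.filter fun q => pos (l a) ≤ pos q ∧ pos q ≤ pos (r a) ∧ Reach a q
  have h1 : ∀ a a', pos (r a) - pos (l a) < pos (r a') - pos (l a') →
      (pos (r a) - pos (l a)) * (Fintype.card C + 1) - (S a).card <
        (pos (r a') - pos (l a')) * (Fintype.card C + 1) - (S a').card := by
    intro a a' h
    have k1 : ((S a').card : ℤ) ≤ Fintype.card C := by exact_mod_cast Finset.card_le_univ _
    have k2 : (0 : ℤ) ≤ (S a).card := by positivity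
    have k3 : (0 : ℤ) ≤ Fintype.card C := by positivity
    nlinarith [mul_le_mul_of_nonneg_right (Int.add_one_le_of_lt h) (add_nonneg k3 zero_le_one)]
  refine ⟨fun a => (pos (r a) - pos (l a)) * (Fintype.card C + 1) - (S a).card, h1,
    fun a a' y k1 k2 k3 k4 => ?_⟩
  obtain ⟨b1, b2, b3⟩ := hn.2 a a' y k1 k2 k3 k4
  by_cases e : pos (r a) - pos (l a) < pos (r a') - pos (l a')
  · exact h1 a a' e
  · have e1 : l a = l a' := hp (by omega)
    have e2 : r a = r a' := hp (by omega)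
    have k5 : (S a').card < (S a).card := by
      refine Finset.card_lt_card ⟨fun q hq => ?_, fun hs => ?_⟩
      · simp only [S, Finset.mem_filter, Finset.mem_univ, true_and, e1, e2] at hq ⊢
        exact ⟨hq.1, hq.2.1, b3 e1 e2 q (e1 ▸ hq.1) (e2 ▸ hq.2.1) hq.2.2⟩
      · have := @hs y (by
          simp only [S, Finset.mem_filter, Finset.mem_univ, true_and, e1, e2]
          exact ⟨k2, k3, k1⟩)
        simp only [S, Finset.mem_filter] at this
        exact k4 this.2.2.2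
    simp only [e1, e2]
    omega

theorem one : ∃ N : ℕ, ∀ (A B C : Type) [Fintype A] [Fintype B] [Fintype C]
    (pos ρ : C → ℤ) (p : B → ℤ) (Reach : A → C → Prop) (l r : A → C),
    Function.Injective pos → (∀ b c, p b ≠ pos c) → (∀ c, pos c ≤ ρ c) →
    (∀ c c', pos c < pos c' → pos c' ≤ ρ c → ρ c' ≤ ρ c) → NoCross pos Reach →
    Nested pos Reach l r → (∀ c, ∃ a, Reach a c) →
    BDec N (fun a b => ∃ c, Reach a c ∧ pos (l a) ≤ pos c ∧ pos c ≤ pos (r a) ∧
      pos c < p b ∧ p b ≤ ρ c) := by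
  obtain ⟨N, hN⟩ := linelemma (qlemma coloring) (plemma coloring)
  refine ⟨N, fun A B C _ _ _ pos ρ p Reach l r h1 h2 h3 h4 h5 h6 h7 => ?_⟩
  obtain ⟨h, k1, k2⟩ := height h1 h6
  refine hN A B C pos ρ p Reach l r h h1 h2 h3 h4 (fun a => (h6.1 a).1) (fun a => (h6.1 a).2.1)
    (fun a => (h6.1 a).2.2) (fun a a' y b1 b2 b3 b4 => ⟨(h6.2 a a' y b1 b2 b3 b4).1,
      (h6.2 a a' y b1 b2 b3 b4).2.1, k2 a a' y b1 b2 b3 b4⟩) ?_ h7
  intro a a' c1 c2 c3 b1 b2 b3 b4 b5 _ b7 b8 b9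
  by_contra hc
  have k3 : ∀ y, Reach a' y → pos c1 < pos y ∧ pos y < pos c3 := by
    intro y hy
    constructor
    · rcases lt_trichotomy (pos y) (pos c1) with e | e | e
      · exact absurd (h5 a' a y c1 c2 c3 e b2 b3 hy b5 b8 b7).2 hc
      · exact absurd (Or.inl (h1 e ▸ hy)) hc
      · exact e
    · rcases lt_trichotomy (pos c3) (pos y) with e | e | e
      · exact absurd (h5 a a' c1 c2 c3 y b2 b3 e b5 b8 b7 hy).1 hc
      · exact absurd (Or.inr (h1 e ▸ hy)) hc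
      · exact e
  have k4 := k3 _ (h6.1 a').1
  have k5 := k3 _ (h6.1 a').2.1
  have k6 := k1 a' a (by omega)
  omega

theorem extend {A B : Type} {N : ℕ} (P : A → Prop) {R : {a // P a} → B → Prop} (h : BDec N R) :
    BDec (1 + N) (fun a b => ∃ ha : P a, R ⟨a, ha⟩ b) := by
  classical
  obtain ⟨f, g, hg⟩ := h
  let F : Fin N → A → ℤ := fun i a => if h : P a then f i ⟨a, h⟩ else 0
  have h0 : BDec 1 (fun (a : A) (_ : B) => P a) :=
    ⟨fun _ a => if P a then 0 else 1, fun _ _ => 1, fun a b a' b' h3 h4 => by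
      have := h3 0
      by_contra h5
      simp [h4, h5] at this⟩
  have h1 : BDec N (fun a b => ∃ a' b', R a' b' ∧ ∀ i, f i a' < g i b' ↔ F i a < g i b) :=
    ⟨F, g, fun a b a' b' h3 ⟨x, y, h4, h5⟩ => ⟨x, y, h4, fun i => (h5 i).trans (h3 i)⟩⟩
  refine (h0.and h1).congr fun a b => ⟨?_, ?_⟩
  · rintro ⟨ha, x, y, h4, h5⟩
    exact ⟨ha, hg x y _ _ (fun i => by simpa only [F, dif_pos ha] using h5 i) h4⟩
  · rintro ⟨ha, h4⟩
    exact ⟨ha, _, _, h4, fun i => by simp only [F, dif_pos ha]⟩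

end LineX

theorem s_line (h : S_rng) : S_line := by
  classical
  obtain ⟨N, hN⟩ := LineX.one
  refine ⟨1 + (N + N), fun A B C _ _ _ pos ρ p Reach h1 h2 h3 h4 h5 => ?_⟩
  let A' := {a // ∃ c, Reach a c}
  let C' := {c // ∃ a, Reach a c}
  have k1 : Function.Injective fun c : C' => pos c := h1.comp Subtype.val_injective
  have k5 : NoCross (fun c : C' => pos c) fun (a : A') (c : C') => Reach a c :=
    fun a a' c1 c2 c3 c4 => h5 a a' c1 c2 c3 c4
  obtain ⟨l, r, l', r', n1, n2, n3⟩ := h A' C' _ _ k1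
    (fun a => a.2.elim fun c hc => ⟨⟨c, a, hc⟩, hc⟩) k5
  have k := fun l r n => hN A' B C' (fun c => pos c) (fun c => ρ c) p (fun a c => Reach a c) l r k1
    (fun b c => h2 b c) (fun c => h3 c) (fun c c' => h4 c c') k5 n
    fun c => c.2.elim fun a ha => ⟨⟨a, c, ha⟩, ha⟩
  refine (LineX.extend _ ((k l r n1).or (k l' r' n2))).congr fun a b => ⟨?_, ?_⟩
  · rintro ⟨_, ⟨c, b1, -, -, b2⟩ | ⟨c, b1, -, -, b2⟩⟩
    exacts [⟨c, b1, b2⟩, ⟨c, b1, b2⟩]
  · rintro ⟨c, b1, b2⟩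
    refine ⟨⟨c, b1⟩, (n3 ⟨a, c, b1⟩ ⟨c, a, b1⟩ b1).imp (fun e => ?_) fun e => ?_⟩
    exacts [⟨⟨c, a, b1⟩, b1, e.1, e.2, b2⟩, ⟨⟨c, a, b1⟩, b1, e.1, e.2, b2⟩]

end Pool.Agent.MP_a17da5_co.PC
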