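import Pool.Agent.MP_a17da5_co.PC.St

/-!
A vertex in the shadow of `b` lies inside a block of `b`.
-/

set_option autoImplicit false

namespace Pool.Agent.MP_a17da5_co.PC

namespace LtwoX

open RP RP.Tree

variable {V D : Type} [Fintype V] [Fintype D] {R : RP V D}

theorem bt_ne {p f e : ℤ} (h : Bt p f e) : f ≠ e := by
  unfold Bt at h; omega

theorem bt_a {p f e g : ℤ} (h1 : Bt p f e) (h2 : ¬ Bt p g e) (h3 : g ≠ e) (h4 : g ≠ p) :
    Bt f e g := by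
  unfold Bt at *; omega

theorem bt_b {p q f e g h : ℤ} (h1 : Bt p f e) (h2 : Bt (-q) (-g) (-h)) (h3 : ¬ Bt f e g)
    (h4 : ¬ Bt p g f) (h5 : ¬ Bt p h e) (h6 : ¬ Bt (-q) (-e) (-h)) (n1 : g ≠ p) (n2 : g ≠ e)
    (n3 : h ≠ p) (n4 : e ≠ q) : Bt q e p ∧ ¬ Bt q f p := by
  unfold Bt at *; omega

/-- The inside is constant along a tree path which avoids the boundary. -/
theorem walk {T : R.Tree} {B J : V → Prop} (per : ∀ u v, R.adj u v → ¬ B u → ¬ B v → (J u ↔ J v))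
    {u x : V} (h : T.Anc u x) (hB : ∀ v, T.Anc u v → T.Anc v x → ¬ B v) : J u ↔ J x :=
  anc_ind (P := fun c => T.Anc u c → (J c ↔ J x)) (fun _ => Iff.rfl)
    (fun c h1 h2 h3 h4 h5 => by
      have h6 : T.Anc u c := h5.trans (anc_par h2)
      exact (per _ _ (adj_par h2 h3) (hB _ h5 ((anc_par h2).trans h1)) (hB _ h6 h1)).trans (h4 h6))
    h (T.anc_refl u)

/-- The dart towards `b` does not lead to `x`. -/
theorem not_le {T : R.Tree} {ρ : D → ℤ} (hT : T.IsLex ρ) {x : V} {f e : D} (hx : R.green x)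
    (hf : R.fw f) (he : T.On x e) (h : R.vt f = R.vt e)
    (hb : Bt (ρ (T.par (R.vt f))) (ρ f) (ρ e)) : ¬ R.le (R.hd f) x := fun k =>
  hT x e f hx he hf h k (h ▸ hb)

/-- A vertex below `x` on the path to `b` comes before the dart `f`. -/
theorem before {T : R.Tree} {x b v : V} {f : D} (hf : T.On b f) (hn : ¬ R.le (R.hd f) x)
    (hv : T.Anc v b) (hx : R.le v x) : T.Anc v (R.vt f) :=
  (hf.split hv).resolve_right (fun k => hn (k.le.trans hx))

/-- Vertices after a forward dart at `z` are not on the boundary of the block of `z`. -/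
theorem nbd_after {L W T : R.Tree} {e : D} {v : V} (he : R.fw e) (h : T.Anc (R.hd e) v) :
    ¬ Bd L W (R.vt e) v := fun k => by
  have a := k.le.τ_le
  have b := h.le.τ_le
  have c := τ_hd he
  omega

/-- The first common point of `b` which is not below `x`. -/
theorem exists_t (L W : R.Tree) {x b : V} (h : ¬ R.le b x) :
    ∃ t, Com L W t b ∧ ¬ R.le t x ∧ ∀ s, Com L W s t → s ≠ t → R.le s x := by
  classical
  obtain ⟨t, ht, hm⟩ := Finset.exists_min_image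
    (Finset.univ.filter (fun t => Com L W t b ∧ ¬ R.le t x)) R.τ
    ⟨b, by simp only [Finset.mem_filter, Finset.mem_univ, true_and]
           exact ⟨⟨L.anc_refl b, W.anc_refl b⟩, h⟩⟩
  simp only [Finset.mem_filter, Finset.mem_univ, true_and] at ht hm
  refine ⟨t, ht.1, ht.2, fun s hs hne => ?_⟩
  by_contra k
  have a := hm s ⟨⟨hs.1.trans ht.1.1, hs.2.trans ht.1.2⟩, k⟩
  rcases hs.1.le.eq_or_lt with k' | k'
  · exact hne k'
  · omega

/-- The one sided case. -/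
theorem one {L W : R.Tree} {ρ σ : D → ℤ} (hρ : R.Rk ρ) (hσ : ∀ d, σ d = - ρ d)
    (hL : L.IsLex ρ) (hW : W.IsLex σ) {I : V → V → Prop}
    (per : ∀ t, R.green t → ∀ u v, R.adj u v → ¬ Bd L W t u → ¬ Bd L W t v → (I t u ↔ I t v))
    (sd : ∀ t, R.green t → Side L W ρ t (I t)) {x b : V} (hx : R.green x) (hb : R.green b)
    {fL eL fW eW : D} (a1 : L.On b fL) (a2 : L.On x eL) (a3 : R.vt fL = R.vt eL)
    (a4 : Bt (ρ (L.par (R.vt fL))) (ρ fL) (ρ eL))
    (b1 : W.On b fW) (b2 : W.On x eW) (b3 : R.vt fW = R.vt eW)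
    (b4 : Bt (σ (W.par (R.vt fW))) (σ fW) (σ eW))
    (H : ∀ v, L.Anc (R.hd eL) v → L.Anc v x → ¬ W.Anc v b) :
    ∃ t, Com L W t b ∧ I t x ∧ ¬ (R.le t x ∧ I t b) := by
  have nL : ¬ R.le (R.hd fL) x := not_le hL hx a1.1 a2 a3 a4
  have nW : ¬ R.le (R.hd fW) x := not_le hW hx b1.1 b2 b3 b4
  have neL : fL ≠ eL := fun k => bt_ne a4 (by rw [k])
  have sLx : L.Anc (R.vt fL) x := a3 ▸ a2.anc_vt hx
  have sWx : W.Anc (R.vt fW) x := b3 ▸ b2.anc_vt hx
  have gz : R.green (R.vt fL) := a1.green_vt hb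
  obtain ⟨t, tc, tn, tm⟩ := exists_t L W (x := x) (b := b) (fun k => nL (a1.le.trans k))
  have gt : R.green t := tc.1.green hb
  have tL : L.Anc (R.hd fL) t := (a1.split tc.1).resolve_left (fun k => tn (k.le.trans sLx.le))
  have ot : L.On t fL := ⟨a1.1, a1.2.1, tL⟩
  have bd : Bd L W t (R.vt fL) := ⟨gt, Or.inl (ot.anc_vt gt), fun s hs hne =>
    (before a1 nL (hs.1.trans tc.1) (tm s hs hne)).le⟩
  have av : ∀ v, L.Anc (R.hd eL) v → L.Anc v x → ¬ Bd L W t v := fun v h1 h2 k =>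
    k.2.1.elim (fun k' => a1.disj a2 a3 neL h1 (k'.trans tc.1)) (fun k' => H v h1 h2 (k'.trans tc.2))
  have nb : ¬ Bd L W t (R.hd eL) := av _ (L.anc_refl _) a2.2.2
  have fin : I t (R.hd eL) → ∃ t, Com L W t b ∧ I t x ∧ ¬ (R.le t x ∧ I t b) := fun k =>
    ⟨t, tc, (walk (per t gt) a2.2.2 av).1 k, fun k' => tn k'.1⟩
  by_cases c1 : W.Anc (R.vt fL) t
  swap
  · exact fin ((sd t gt).right fL eL ot bd a3.symm nb a4 c1)
  obtain ⟨g, g1, g2⟩ := c1.exists_out ot.vt_ne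
  by_cases c2 : Bt (ρ fL) (ρ eL) (ρ g)
  · exact fin ((sd t gt).bottom fL g eL ot g1 bd g2 a3.symm nb c2)
  have gb : W.On b g := g1.trans tc.2
  have zb : W.Anc (R.vt fL) b := c1.trans tc.2
  have pne : ∀ (T : R.Tree) (e : D), R.fw e → R.vt e = R.vt fL → ρ e ≠ ρ (T.par (R.vt fL)) :=
    fun T e he h k => fw_ne_par (T := T) gz he (hρ _ _ (h.trans (T.vt_par _ gz).symm) k)
  have ge : ρ g ≠ ρ eL := fun k => by
    have k' := hρ _ _ (g2.trans a3) k
    exact H _ (L.anc_refl _) a2.2.2 (k' ▸ gb.2.2)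
  have zs : R.vt fL = R.vt fW := by
    by_contra k
    obtain ⟨g', k1, k2⟩ := (before b1 nW zb sLx.le).exists_out k
    have k3 : g' = g := (k1.trans (b1.anc_vt hb)).eq_of_vt gb (k2.trans g2.symm)
    have k4 := hL x eL g hx a2 gb.1 (g2.trans a3) (k3 ▸ (k1.trans sWx).le)
    rw [← a3] at k4
    exact c2 (bt_a a4 k4 ge (pne L g gb.1 g2))
  have gf : g = fW := gb.eq_of_vt b1 (g2.trans zs)
  subst gf
  have l1 := hL b fL g hb a1 b1.1 g2 b1.le
  have l2 := hL x eL eW hx a2 b2.1 (b3.symm.trans (g2.trans a3)) b2.le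
  have l3 := hW x eW eL hx b2 a2.1 (a3.symm.trans (g2.symm.trans b3)) a2.le
  rw [← a3] at l2
  rw [← b3, g2, hσ, hσ, hσ] at l3
  rw [g2, hσ, hσ, hσ] at b4
  obtain ⟨r1, r2⟩ := bt_b a4 b4 c2 l1 l2 l3 (pne L g gb.1 g2) ge
    (pne L eW b2.1 (b3.symm.trans g2)) (pne W eL a2.1 a3.symm)
  have i1 : I (R.vt fL) (R.hd eL) :=
    ((sd _ gz).top eL a3.symm (a3 ▸ nbd_after a2.1 (L.anc_refl _))).2 r1
  have i2 : ¬ I (R.vt fL) (R.hd fL) := fun k =>
    r2 (((sd _ gz).top fL rfl (nbd_after a1.1 (L.anc_refl _))).1 k)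
  refine ⟨R.vt fL, ⟨a1.anc_vt hb, zb⟩, ?_, fun k => i2 ?_⟩
  · exact (walk (per _ gz) a2.2.2 (fun v h1 _ => a3 ▸ nbd_after a2.1 h1)).1 i1
  · exact (walk (per _ gz) a1.2.2 (fun v h1 _ => nbd_after a1.1 h1)).2 k.2

end LtwoX

open RP RP.Tree LtwoX in
theorem s_l2 : S_l2 := by
  intro V D _ _ R L W hL hW I hI x b hx hb ⟨fL, eL, a1, a2, a3, a4⟩ ⟨fW, eW, b1, b2, b3, b4⟩
  by_cases H : ∀ v, L.Anc (R.hd eL) v → L.Anc v x → ¬ W.Anc v b
  · exact one R.rk_rk (fun _ => rfl) hL hW (fun t ht => (hI t ht).per) (fun t ht => (hI t ht).sl)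
      hx hb a1 a2 a3 a4 b1 b2 b3 b4 H
  · have H' : ∀ v, W.Anc (R.hd eW) v → W.Anc v x → ¬ L.Anc v b := by
      intro v' k1 k2 k3
      refine H (fun v h1 h2 h3 => ?_)
      have p1 := (before b1 (not_le hW hx b1.1 b2 b3 b4) h3 h2.le).le.τ_le
      have p2 := (before a1 (not_le hL hx a1.1 a2 a3 a4) k3 k2.le).le.τ_le
      have p3 := h1.le.τ_le
      have p4 := k1.le.τ_le
      have p5 := τ_hd a2.1
      have p6 := τ_hd b2.1
      rw [a3] at p2
      rw [b3] at p1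
      omega
    obtain ⟨t, h1, h2⟩ := one (L := W) (W := L) R.rk_neg (fun _ => (neg_neg _).symm) hW hL
      (fun t ht u v h hu hv => (hI t ht).per u v h (fun k => hu k.swap) (fun k => hv k.swap))
      (fun t ht => (hI t ht).sr) hx hb b1 b2 b3 b4 a1 a2 a3 a4 H'
    exact ⟨t, h1.swap, h2⟩

end Pool.Agent.MP_a17da5_co.PC
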