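import Pool.Agent.MP_a17da5_co.PC.St

/-!
Planar cover graphs: reachability towards green vertices.
-/

set_option autoImplicit false

namespace Pool.Agent.MP_a17da5_co.PC

open Relation

namespace MainX

open RP

variable {V D : Type} [Fintype V] [Fintype D] {R : RP V D}

/-- A vertex below `b` which is off the tree path to `b` lies to the right of that path. -/
theorem shadow {T : R.Tree} {ρ : D → ℤ} (hρ : R.Rk ρ) (hT : T.IsLex ρ) {x b : V}
    (hx : R.green x) (h : R.le x b) (hn : ¬ T.Anc x b) : T.Lf ρ b x := by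
  have hb := hx.le h
  rcases T.diverge hx hb with k | k | ⟨f, e, k1, k2, k3, k4⟩
  · exact absurd k hn
  · have := h.antisymm k.le
    subst this
    exact absurd (T.anc_refl _) hn
  · refine ⟨f, e, k1, k2, k3, ?_⟩
    have g := k1.green_vt hb
    have a1 := hT b f e hb k1 k2.1 k3.symm (k2.le.trans h)
    have a2 : ρ f ≠ ρ e := fun q => k4 (hρ _ _ k3 q)
    have a3 : ρ f ≠ ρ (T.par (R.vt f)) := fun q =>
      Tree.fw_ne_par g k1.1 (hρ _ _ (T.vt_par _ g).symm q)
    have a4 : ρ e ≠ ρ (T.par (R.vt f)) := fun q =>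
      Tree.fw_ne_par g k2.1 (hρ _ _ (k3.symm.trans (T.vt_par _ g).symm) q)
    unfold Bt at a1 ⊢
    omega

omit [Fintype V] in
theorem exists_rch (M : V → Prop) {a b : V} (h : R.le a b) (ha : ¬ M a) (hb : M b) :
    ∃ c, R.Rch M a c ∧ R.le (R.vt c) b := by
  have key : (¬ M b ∧ ReflTransGen (fun u v => R.adj u v ∧ ¬ M v) a b) ∨
      ∃ c, R.Rch M a c ∧ R.le (R.vt c) b := by
    clear hb
    induction h with
    | refl => exact Or.inl ⟨ha, ReflTransGen.refl⟩
    | @tail u v _ h2 ih =>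
      rcases ih with ⟨_, k⟩ | ⟨c, k1, k2⟩
      · by_cases hv : M v
        · obtain ⟨d, d1, rfl, rfl⟩ := h2
          refine Or.inr ⟨R.op d, ⟨hv, ?_, ha, ?_⟩, R.le_refl _⟩
          · rwa [R.op_op]
          · rwa [R.hd_op]
        · exact Or.inl ⟨hv, k.tail ⟨h2, hv⟩⟩
      · exact Or.inr ⟨c, k1, k2.trans h2.le⟩
  rcases key with k | k
  · exact absurd hb k.1
  · exact k

omit [Fintype V] in
theorem rch_adj {M : V → Prop} {a : V} {c : D} (h : R.Rch M a c) : R.adj (R.hd c) (R.vt c) :=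
  ⟨R.op c, h.2.1, rfl, R.hd_op c⟩

omit [Fintype V] in
theorem rch_le {M : V → Prop} {a : V} {c : D} (h : R.Rch M a c) : R.le a (R.vt c) :=
  RP.le.trans (ReflTransGen.mono (p := R.adj) (fun _ _ k => k.1) _ _ h.2.2.2) (rch_adj h).le

variable (R) in
/-- All the data about the two trees and the blocks. -/
structure Ctx where
  L : R.Tree
  W : R.Tree
  hL : L.IsLex R.rk
  hW : W.IsLex (fun d => - R.rk d)
  Ins : V → V → Prop
  B : Blk L W Ins
  pre : V → ℤ
  pre_inj : Function.Injective pre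
  pre_anc : ∀ u v, L.Anc u v → pre u ≤ pre v
  pre_lf : ∀ u v, R.green u → R.green v → L.Lf R.rk u v → pre u < pre v

namespace Ctx

variable (X : Ctx R)

theorem per_le {t u v : V} (h : R.le u v)
    (hn : ∀ w, R.le u w → R.le w v → ¬ Bd X.L X.W t w) : X.Ins t u ↔ X.Ins t v := by
  induction h with
  | refl => exact Iff.rfl
  | @tail p q h1 h2 ih =>
    have h1' : R.le u p := h1
    refine (ih fun w a b => hn w a (b.trans h2.le)).trans (X.B.per t p q h2 ?_ ?_)
    · exact hn p h1' h2.le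
    · exact hn q (h1'.trans h2.le) (R.le_refl q)

theorem per_nle {t u v : V} (h1 : ¬ R.le u t) (h : R.le u v) : X.Ins t u ↔ X.Ins t v :=
  X.per_le h fun _ a _ k => h1 (a.trans k.le)

theorem per_above {t u v : V} (h1 : R.le t u) (h2 : t ≠ u) (h : R.le u v) :
    X.Ins t u ↔ X.Ins t v := X.per_nle (fun k => h2 (h1.antisymm k)) h

theorem per_rch {M : V → Prop} {t a : V} {c : D} (h : R.Rch M a c)
    (hM : ∀ w, Bd X.L X.W t w → M w) (hc : ¬ Bd X.L X.W t (R.vt c)) :
    X.Ins t a ↔ X.Ins t (R.vt c) := by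
  have key : ∀ v, ReflTransGen (fun u v => R.adj u v ∧ ¬ M v) a v →
      ¬ M v ∧ (X.Ins t a ↔ X.Ins t v) := by
    intro v hv
    induction hv with
    | refl => exact ⟨h.2.2.1, Iff.rfl⟩
    | @tail p q _ h2 ih =>
      exact ⟨h2.2, ih.2.trans (X.B.per t p q h2.1 (fun k => ih.1 (hM p k))
        (fun k => h2.2 (hM q k)))⟩
  obtain ⟨k1, k2⟩ := key _ h.2.2.2
  exact k2.trans (X.B.per t _ _ (rch_adj h) (fun k => k1 (hM _ k)) hc)

/-- `x` lies above `t` and inside the last block of `t`. -/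
def N (t x : V) : Prop := R.le t x ∧ X.Ins t x

variable {X}

theorem N.gr {t x : V} (h : X.N t x) : R.green t := X.B.gr t x h.2

theorem N.green {t x : V} (h : X.N t x) : R.green x := h.gr.le h.1

theorem N.ne {t x : V} (h : X.N t x) : t ≠ x := by
  rintro rfl
  exact X.B.nbd t t h.2 (bd_self h.gr)

theorem N.τ_lt {t x : V} (h : X.N t x) : R.τ t < R.τ x := h.1.eq_or_lt.resolve_left h.ne

theorem N.com {t x : V} (h : X.N t x) : Com X.L X.W t x := (X.B.l1b t x h.2 h.1).1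

theorem N.up {t x y : V} (h : X.N t x) (h' : R.le x y) : X.N t y :=
  ⟨h.1.trans h', (X.per_above h.1 h.ne h').1 h.2⟩

theorem N.down {t x y : V} (h : X.N t y) (h1 : R.le t x) (h2 : t ≠ x) (h' : R.le x y) :
    X.N t x := ⟨h1, (X.per_above h1 h2 h').2 h.2⟩

theorem N.between {s s' b : V} (h : X.N s b) (h' : X.N s' b) (hτ : R.τ s ≤ R.τ s')
    (hne : s ≠ s') : X.N s s' := h.down (h.com.1.of_τ h'.com.1 hτ).le hne h'.1

variable (X) in
/-- The subtree hanging inside the block of `t`. -/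
def M (t x : V) : Prop := x = t ∨ X.N t x

theorem N.bd_sub {t s w : V} (h : X.N t s) (hw : Bd X.L X.W s w) : X.M t w := by
  by_cases k : w = t
  · exact Or.inl k
  · exact Or.inr (h.down (hw.2.2 t h.com h.ne) (Ne.symm k) hw.le)

theorem sub_M {t : V} (ht : R.green t) (T : R.Tree) (hT : ∀ x, X.N t x → T.Anc t x) :
    T.Sub (X.M t) t := by
  refine ⟨Or.inl rfl, fun v hv => ?_⟩
  rcases hv with rfl | hv
  · exact ⟨ht, T.anc_refl _, fun k => absurd rfl k⟩
  · refine ⟨hv.green, hT v hv, fun _ => ?_⟩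
    rcases (hT v hv).cases_tail with k | ⟨k1, _, k3⟩
    · exact absurd k hv.ne
    · by_cases q : R.hd (T.par v) = t
      · exact Or.inl q
      · exact Or.inr (hv.down k3.le (Ne.symm q) (Tree.anc_par k1).le)

variable (X) in
/-- `t` is the target of `a`. -/
def Zc (a t : V) : Prop := ¬ R.le a t ∧ X.Ins t a ∧ (∃ u, R.le a u ∧ X.N t u) ∧
  ∃ y, R.green y ∧ R.le a y ∧ ¬ R.le t y

theorem Zc.gr {a t : V} (h : X.Zc a t) : R.green t := X.B.gr t a h.2.1

theorem Zc.nle {a t : V} (h : X.Zc a t) : ¬ R.le t a := fun k => by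
  obtain ⟨y, _, k2, k3⟩ := h.2.2.2
  exact k3 (k.trans k2)

theorem Zc.ins {a t y : V} (h : X.Zc a t) (hy : R.le a y) : X.Ins t y := (X.per_nle h.1 hy).1 h.2.1

theorem Zc.min {a t u : V} (h : X.Zc a t) (h1 : R.green u) (h2 : R.le a u)
    (h3 : ∀ v, R.green v → R.le a v → X.pre u ≤ X.pre v) : X.N t u := by
  refine ⟨?_, h.ins h2⟩
  by_contra k
  obtain ⟨v, v1, v2⟩ := h.2.2.1
  have a1 := ((X.B.l1a t u h1 (h.ins h2) k).1).trans_anc v2.com.1 (X.L.anc_refl u)
  have a2 := X.pre_lf v u v2.green h1 a1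
  have a3 := h3 v v2.green v1
  omega

theorem Zc.not_ins {a t s : V} (h : X.Zc a t) (hs : X.N t s) : ¬ X.Ins s a := fun k => by
  obtain ⟨y, y1, y2, y3⟩ := h.2.2.2
  have := (X.per_le y2 fun w _ b q => y3 ((q.2.2 t hs.com hs.ne).trans b)).1 k
  exact y3 (X.B.bot t s y hs.com hs.ne y1 this)

omit [Fintype D] in
theorem exists_least (P : V → Prop) (k : V → ℤ) (h : ∃ v, P v) :
    ∃ v, P v ∧ ∀ u, P u → k v ≤ k u := by
  obtain ⟨v, hv, hm⟩ := Set.exists_min_image {v | P v} k (Set.toFinite _) h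
  exact ⟨v, hv, hm⟩

theorem Zc.unique {a t t' : V} (h : X.Zc a t) (h' : X.Zc a t') : t = t' := by
  obtain ⟨v, v1, v2⟩ := h.2.2.1
  obtain ⟨u, ⟨u1, u2⟩, u3⟩ := exists_least (fun v => R.green v ∧ R.le a v) X.pre
    ⟨v, v2.green, v1⟩
  have a1 := h.min u1 u2 fun v p q => u3 v ⟨p, q⟩
  have a2 := h'.min u1 u2 fun v p q => u3 v ⟨p, q⟩
  by_contra k
  rcases le_total (R.τ t) (R.τ t') with q | q
  · exact h.not_ins (a1.between a2 q k) h'.2.1
  · exact h'.not_ins (a2.between a1 q (Ne.symm k)) h.2.1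

theorem Zc.rev {a t : V} (h : X.Zc a t) (ha : R.green a) (s : V) : X.N s a ↔ X.N s t := by
  obtain ⟨u, u1, u2⟩ := h.2.2.1
  constructor
  · intro k
    have k1 := k.up u1
    have k2 : s ≠ t := by
      rintro rfl
      exact h.nle k.1
    rcases le_total (R.τ s) (R.τ t) with q | q
    · exact k1.between u2 q k2
    · exact absurd ((u2.between k1 q k2.symm).1.trans k.1) h.nle
  · intro k
    exact ⟨X.B.bot s t a k.com k.ne ha h.2.1,
      (X.per_nle (fun q => h.1 (q.trans k.1)) u1).2 (k.up u2.1).2⟩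

variable (X) in
/-- `s` is the last block which contains `v` above its top. -/
def Last (v s : V) : Prop := X.N s v ∧ ∀ s', X.N s' v → s' = s ∨ X.N s' s

theorem Last.unique {v s s' : V} (h : X.Last v s) (h' : X.Last v s') : s = s' := by
  rcases h.2 s' h'.1 with k | k
  · exact k.symm
  · rcases h'.2 s h.1 with q | q
    · exact q
    · exact q.1.antisymm k.1

theorem exists_last {v t : V} (h : X.N t v) : ∃ s, X.Last v s := by
  obtain ⟨s, s1, s2⟩ := exists_least (fun s => X.N s v) (fun s => - R.τ s) ⟨t, h⟩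
  refine ⟨s, s1, fun s' k => ?_⟩
  by_cases q : s' = s
  · exact Or.inl q
  · have := s2 s' k
    exact Or.inr (k.between s1 (by omega) q)

end Ctx

open Classical in
/-- The unique value of a relation, if there is one. -/
noncomputable def opt {α : Type} (P : α → Prop) : Option α :=
  if h : ∃ x, P x then some h.choose else none

theorem opt_iff {α : Type} {P : α → Prop} (hu : ∀ x y, P x → P y → x = y) {x : α} :
    opt P = some x ↔ P x := by
  unfold opt
  split_ifs with h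
  · constructor
    · intro k
      cases k
      exact h.choose_spec
    · intro k
      rw [hu _ _ h.choose_spec k]
  · simp only [false_iff]
    exact fun k => h ⟨x, k⟩

namespace Ctx

variable (X : Ctx R)

noncomputable def tg (a : V) : Option V := opt (X.Zc a)

theorem tg_iff {a t : V} : X.tg a = some t ↔ X.Zc a t := opt_iff fun _ _ h h' => h.unique h'

/-- The vertex whose place in the forest is taken by `v`. -/
noncomputable def ps (v : V) : V := (X.tg v).getD v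

noncomputable def up (v : V) : Option V := opt (X.Last (X.ps v))

theorem up_iff {v s : V} : X.up v = some s ↔ X.Last (X.ps v) s :=
  opt_iff fun _ _ h h' => h.unique h'

theorem last_ps {v : V} (hv : R.green v) : X.Last (X.ps v) = X.Last v := by
  unfold ps
  cases h : X.tg v with
  | none => rfl
  | some t =>
    have k := X.tg_iff.1 h
    funext s
    simp only [Option.getD_some, Last, k.rev hv]

theorem up_green {v s : V} (hv : R.green v) : X.up v = some s ↔ X.Last v s := by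
  rw [up_iff, X.last_ps hv]

open Classical in
noncomputable def F : Forest V :=
  Forest.ofMeasure X.up (fun v => if R.green v then R.τ v else R.τ (X.ps v)) (by
    intro u v h
    have k := (X.up_iff.1 h).1
    rw [if_pos k.gr]
    split_ifs with q
    · exact ((X.up_green q).1 h).1.τ_lt
    · exact k.τ_lt)

theorem F_up : X.F.up = X.up := rfl

theorem up_tg {a t : V} (h : X.tg a = some t) : X.F.up a = X.F.up t := by
  have k := X.tg_iff.1 h
  rw [F_up]
  unfold up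
  rw [X.last_ps k.gr]
  unfold ps
  rw [h]
  rfl

theorem anc_N {c b : V} (hb : R.green b) (h : X.F.Anc c b) : c = b ∨ X.N c b := by
  refine X.F.anc_induction (P := fun c => c = b ∨ X.N c b) (Or.inl rfl) ?_ h
  intro c u _ h2 h3
  rcases h2 with rfl | h2
  · exact Or.inr ((X.up_green hb).1 h3).1
  · exact Or.inr (((X.up_green h2.gr).1 h3).1.up h2.1)

theorem exists_child {t b : V} (h : X.N t b) : ∃ c, X.F.up c = some t ∧ X.F.Anc c b := by
  induction b using X.F.wf.induction with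
  | _ b ih =>
    obtain ⟨s, hs⟩ := exists_last h
    have k : X.F.up b = some s := (X.up_green h.green).2 hs
    rcases hs.2 t h with rfl | q
    · exact ⟨b, k, Forest.Anc.refl _ _⟩
    · obtain ⟨c, c1, c2⟩ := ih s k q
      exact ⟨c, c1, ReflTransGen.tail c2 k⟩

/-- The target of `a` has `b` inside its block. -/
def Z (a b : V) : Prop := ∃ t, X.Zc a t ∧ X.N t b

theorem Z_iff {a b : V} (hb : R.green b) :
    (∃ t c, X.tg a = some t ∧ X.F.up c = some t ∧ X.F.Anc c b ∧ True) ↔ X.Z a b := by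
  constructor
  · rintro ⟨t, c, h1, h2, h3, -⟩
    refine ⟨t, X.tg_iff.1 h1, ?_⟩
    rcases X.anc_N hb (h3.up h2) with rfl | k
    · rcases X.anc_N hb h3 with rfl | q
      · exact ((X.up_green hb).1 h2).1
      · exact absurd (((X.up_green q.gr).1 h2).1.up q.1).ne (by simp)
    · exact k
  · rintro ⟨t, h1, h2⟩
    obtain ⟨c, c1, c2⟩ := X.exists_child h2
    exact ⟨t, c, X.tg_iff.2 h1, c1, c2, trivial⟩

/-- The test inside the block of the target. -/
def Q (t a c : V) : Prop := R.green t ∧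
  ((X.M t c ∧ ∃ d, R.Rch (X.M t) a d ∧ X.L.Anc (R.vt d) c) ∨
    (X.M t c ∧ ∃ d, R.Rch (X.M t) a d ∧ X.W.Anc (R.vt d) c))

def H (a b : V) : Prop := ∃ t c, X.tg a = some t ∧ X.F.up c = some t ∧ X.F.Anc c b ∧ X.Q t a c

theorem le_of_H {a b : V} (hb : R.green b) (h : X.H a b) : R.le a b := by
  obtain ⟨t, c, -, -, h3, -, h4⟩ := h
  have k : R.le c b := by
    rcases X.anc_N hb h3 with rfl | q
    · exact R.le_refl _
    · exact q.1
  rcases h4 with ⟨-, d, d1, d2⟩ | ⟨-, d, d1, d2⟩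
  · exact ((rch_le d1).trans d2.le).trans k
  · exact ((rch_le d1).trans d2.le).trans k

theorem in_shadow {x b : V} (hx : R.green x) (h : R.le x b)
    (hn : ¬ (X.L.Anc x b ∨ X.W.Anc x b)) :
    ∃ t, Com X.L X.W t b ∧ X.Ins t x ∧ ¬ R.le t x := by
  obtain ⟨t, t1, t2, t3⟩ := X.B.l2 x b hx (hx.le h)
    (shadow R.rk_rk X.hL hx h fun k => hn (Or.inl k))
    (shadow R.rk_neg X.hW hx h fun k => hn (Or.inr k))
  exact ⟨t, t1, t2, fun k => t3 ⟨k, (N.up ⟨k, t2⟩ h).2⟩⟩

theorem H_of_le {a b : V} (h : R.le a b) (hz : X.Z a b) : X.H a b := by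
  obtain ⟨t, z1, z2⟩ := hz
  obtain ⟨c, c1, c2⟩ := X.exists_child z2
  have c3 := X.anc_N z2.green c2
  have c4 : X.N t c := ((X.up_green (c3.elim (fun k => k ▸ z2.green) (·.gr))).1 c1).1
  have ha : ¬ X.M t a := by
    rintro (rfl | k)
    · exact z1.1 (R.le_refl _)
    · exact z1.nle k.1
  obtain ⟨d, d1, d2⟩ := exists_rch (X.M t) h ha (Or.inr z2)
  have d3 : X.N t (R.vt d) := by
    rcases d1.1 with k | k
    · exact absurd (k ▸ rch_le d1) z1.1
    · exact k
  have key : ∀ s, X.N t s → ¬ X.Ins s (R.vt d) := fun s hs k =>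
    z1.not_ins hs ((X.per_rch d1 (fun w q => hs.bd_sub q) (X.B.nbd s _ k)).2 k)
  have hon : X.L.Anc (R.vt d) b ∨ X.W.Anc (R.vt d) b := by
    by_contra hn
    obtain ⟨s, s1, s2, s3⟩ := X.in_shadow d3.green d2 hn
    rcases s1.1.total z2.com.1 with q | q
    · exact s3 (q.le.trans d3.1)
    · refine key s (z2.down q.le ?_ s1.1.le) s2
      rintro rfl
      exact s3 d3.1
  have fin : ∀ T : R.Tree, (X.N c b → T.Anc c b) → T.Anc (R.vt d) b → T.Anc (R.vt d) c := by
    intro T h1 h2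
    rcases c3 with rfl | q
    · exact h2
    · rcases h2.total (h1 q) with k | k
      · exact k
      · by_cases e : c = R.vt d
        · rw [e]; exact T.anc_refl _
        · exact absurd (q.down k.le e d2).2 (key c c4)
  refine ⟨t, c, X.tg_iff.2 z1, c1, c2, z1.gr, ?_⟩
  rcases hon with k | k
  · exact Or.inl ⟨Or.inr c4, d, d1, fin X.L (·.com.1) k⟩
  · exact Or.inr ⟨Or.inr c4, d, d1, fin X.W (·.com.2) k⟩

end Ctx

variable (R) in
/-- `x` is the first green vertex on a path from `a`. -/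
def First (a x : V) : Prop := (R.green a ∧ x = a) ∨ ∃ c, R.Rch R.green a c ∧ R.vt c = x

omit [Fintype V] in
theorem exists_first {a b : V} (hb : R.green b) (h : R.le a b) :
    ∃ x, First R a x ∧ R.le x b := by
  by_cases ha : R.green a
  · exact ⟨a, Or.inl ⟨ha, rfl⟩, h⟩
  · obtain ⟨c, c1, c2⟩ := exists_rch R.green h ha hb
    exact ⟨_, Or.inr ⟨c, c1, rfl⟩, c2⟩

omit [Fintype V] in
theorem First.green {a x : V} (h : First R a x) : R.green x := by
  rcases h with ⟨h, rfl⟩ | ⟨c, h, rfl⟩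
  · exact h
  · exact h.1

omit [Fintype V] in
theorem First.le {a x : V} (h : First R a x) : R.le a x := by
  rcases h with ⟨h, rfl⟩ | ⟨c, h, rfl⟩
  · exact R.le_refl _
  · exact rch_le h

theorem First.per {a x t : V} (h : First R a x) (X : Ctx R) (hx : ¬ Bd X.L X.W t x) :
    X.Ins t a ↔ X.Ins t x := by
  rcases h with ⟨h, rfl⟩ | ⟨c, h, rfl⟩
  · exact Iff.rfl
  · exact X.per_rch h (fun _ k => k.green) hx

variable (R) in
/-- `m` picks above every vertex a green vertex with the least value of `k`. -/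
def Picks (k : V → ℤ) (m : V → V) : Prop := ∀ a, (∃ u, R.green u ∧ R.le a u) →
  R.green (m a) ∧ R.le a (m a) ∧ ∀ u, R.green u → R.le a u → k (m a) ≤ k u

theorem exists_picks (k : V → ℤ) : ∃ m, Picks R k m := by
  have : ∀ a, ∃ m, (∃ u, R.green u ∧ R.le a u) →
      R.green m ∧ R.le a m ∧ ∀ u, R.green u → R.le a u → k m ≤ k u := by
    intro a
    by_cases h : ∃ u, R.green u ∧ R.le a u
    · obtain ⟨m, m1, m2⟩ := Ctx.exists_least _ k h
      exact ⟨m, fun _ => ⟨m1.1, m1.2, fun u p q => m2 u ⟨p, q⟩⟩⟩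
    · exact ⟨a, fun q => absurd q h⟩
  choose m hm using this
  exact ⟨m, hm⟩

omit [Fintype V] in
theorem Picks.eq {cs : V → V} (h : Picks R R.τ cs) {a x : V} (hx : R.green x) (h1 : R.le a x)
    (h2 : R.le x (cs a)) : x = cs a := by
  have := (h a ⟨x, hx, h1⟩).2.2 x hx h1
  rcases h2.eq_or_lt with k | k
  · exact k
  · omega

omit [Fintype V] in
theorem Picks.self {cs : V → V} (h : Picks R R.τ cs) {b : V} (hb : R.green b) : cs b = b :=
  (h.eq hb (R.le_refl b) (h b ⟨b, hb, R.le_refl b⟩).2.1).symm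

namespace Ctx

variable (X : Ctx R)

/-- The shadow test. -/
def T (cs mn : V → V) (a b : V) : Prop := (∃ u, R.green u ∧ R.le a u) ∧ ¬ X.Z a b ∧
  X.L.Lf R.rk b (cs a) ∧ X.W.Lf (fun d => - R.rk d) b (cs a) ∧ X.pre (mn a) ≤ X.pre (mn b)

variable {cs mn : V → V}

theorem le_of_T (hc : Picks R R.τ cs) (hm : Picks R X.pre mn) {a b : V} (hb : R.green b)
    (h : X.T cs mn a b) : R.le a b := by
  obtain ⟨h0, h1, h2, h3, h4⟩ := h
  obtain ⟨c1, c2, -⟩ := hc a h0
  obtain ⟨u1, u2, -⟩ := hm a h0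
  have u3 := (hm b ⟨b, hb, R.le_refl b⟩).2.2 b hb (R.le_refl b)
  obtain ⟨t, t1, t2, t3⟩ := X.B.l2 _ b c1 hb h2 h3
  by_contra hn
  have a1 : ¬ R.le a t := fun k => hn (k.trans t1.1.le)
  have a2 : X.Ins t a := (X.per_nle a1 c2).2 t2
  have a3 : X.Ins t (mn a) := (X.per_nle a1 u2).1 a2
  have a4 : ¬ X.L.Lf R.rk b (mn a) := fun k => by
    have := X.pre_lf _ _ hb u1 k
    omega
  by_cases k : R.le t (mn a)
  · have a5 : ¬ X.Ins t b := fun q =>
      h1 ⟨t, ⟨a1, a2, ⟨_, u2, k, a3⟩, _, c1, c2, fun p => t3 ⟨p, q⟩⟩, t1.1.le, q⟩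
    obtain ⟨l1, l2⟩ := X.B.l1b t _ a3 k
    by_cases e : b = t
    · have := X.pre_anc _ _ l1.1
      rw [← e] at this
      have e' : b = mn a := X.pre_inj (by omega)
      exact hn (e' ▸ u2)
    · exact a4 (l2 b t1.1 e a5)
  · exact a4 ((X.B.l1a t _ u1 a3 k).1.trans_anc t1.1 (X.L.anc_refl _))

theorem T_of_le (hc : Picks R R.τ cs) (hm : Picks R X.pre mn) {a b : V} (hb : R.green b)
    (h : R.le a b) (hz : ¬ X.Z a b)
    (hn : ∀ x, First R a x → ¬ (X.L.Anc x b ∨ X.W.Anc x b)) : X.T cs mn a b := by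
  have h0 : ∃ u, R.green u ∧ R.le a u := ⟨b, hb, h⟩
  obtain ⟨c1, c2, -⟩ := hc a h0
  obtain ⟨x, x1, x2⟩ := exists_first hb h
  obtain ⟨t, t1, t2, t3⟩ := X.in_shadow x1.green x2 (hn x x1)
  have a1 : X.Ins t a := (x1.per X (X.B.nbd t x t2)).2 t2
  have a2 : First R a (cs a) := by
    obtain ⟨y, y1, y2⟩ := exists_first c1 c2
    exact hc.eq y1.green y1.le y2 ▸ y1
  have a3 : X.Ins t (cs a) := (a2.per X fun k => hn _ a2
    (k.2.1.imp (·.trans t1.1) (·.trans t1.2))).1 a1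
  have a4 : ¬ R.le t (cs a) := by
    intro k
    have b1 : X.N t (cs a) := ⟨k, a3⟩
    have b2 : X.Zc a t := ⟨fun q => b1.ne (hc.eq b1.gr q k), a1, ⟨_, c2, b1⟩,
      x, x1.green, x1.le, t3⟩
    exact hz ⟨t, b2, t1.1.le, b2.ins h⟩
  obtain ⟨l1, l2⟩ := X.B.l1a t _ c1 a3 a4
  obtain ⟨m1, m2, -⟩ := hm b ⟨b, hb, R.le_refl b⟩
  exact ⟨h0, hz, l1.trans_anc t1.1 (X.L.anc_refl _), l2.trans_anc t1.2 (X.W.anc_refl _),
    (hm a h0).2.2 _ m1 (h.trans m2)⟩

theorem le_iff (hc : Picks R R.τ cs) (hm : Picks R X.pre mn) {a b : V} (hb : R.green b) :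
    R.le a b ↔ (∃ x, First R a x ∧ (X.L.Anc x b ∨ X.W.Anc x b)) ∨ X.H a b ∨ X.T cs mn a b := by
  constructor
  · intro h
    by_cases h1 : ∃ x, First R a x ∧ (X.L.Anc x b ∨ X.W.Anc x b)
    · exact Or.inl h1
    · by_cases h2 : X.Z a b
      · exact Or.inr (Or.inl (X.H_of_le h h2))
      · exact Or.inr (Or.inr (X.T_of_le hc hm hb h h2 fun x p q => h1 ⟨x, p, q⟩))
  · rintro (⟨x, x1, x2⟩ | h | h)
    · exact x1.le.trans (x2.elim (·.le) (·.le))
    · exact X.le_of_H hb h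
    · exact X.le_of_T hc hm hb h

end Ctx

theorem dec_first {N : ℕ} (T : R.Tree) {pre post : V → ℤ}
    (h1 : ∀ u v, T.Anc u v ↔ pre u ≤ pre v ∧ post v ≤ post u)
    (h2 : BDec N (fun a b : V => R.green b ∧ ∃ c, R.Rch R.green a c ∧ T.Anc (R.vt c) b)) :
    Dec (3 + (3 + (1 + 1)) + (3 + (3 + N)))
      (fun a b => R.green b ∧ ∃ x, First R a x ∧ T.Anc x b) := by
  have d1 := (Dec.right R.green).and ((Dec.left R.green).and ((Dec.le pre).and (Dec.le post).flip))
  have h3 : BDec N (fun (a : {v // ¬ R.green v}) (b : {v // R.green v}) =>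
      R.green b.1 ∧ ∃ c, R.Rch R.green a.1 c ∧ T.Anc (R.vt c) b.1) := by
    obtain ⟨f, g, k⟩ := h2
    exact ⟨fun i a => f i a.1, fun i b => g i b.1, fun a b a' b' => k a.1 b.1 a'.1 b'.1⟩
  have d2 := BDec.toDec (fun v => ¬ R.green v) R.green (fun _ k => k) h3
  refine (d1.or d2).congr fun a b _ => ?_
  rw [← h1]
  constructor
  · rintro (⟨k1, k2, k3⟩ | ⟨_, k1, _, c, k2, k3⟩)
    · exact ⟨k1, a, Or.inl ⟨k2, rfl⟩, k3⟩
    · exact ⟨k1, _, Or.inr ⟨c, k2, rfl⟩, k3⟩
  · rintro ⟨k1, x, ⟨k2, rfl⟩ | ⟨c, k2, rfl⟩, k3⟩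
    · exact Or.inl ⟨k1, k2, k3⟩
    · exact Or.inr ⟨k2.2.2.1, k1, k1, c, k2, k3⟩

end MainX

open MainX in
theorem s_rs (h1 : S_lex) (h2 : S_ord) (h3 : S_col) (h4 : S_blk) (h5 : S_hit) (h6 : S_nest) :
    S_rs := by
  obtain ⟨N, hN⟩ := h5
  obtain ⟨N1, hN1⟩ := h6 (N + N)
  obtain ⟨N0, hN0⟩ := h6 0
  refine ⟨(3 + (3 + (1 + 1)) + (3 + (3 + N))) + ((3 + (3 + (1 + 1)) + (3 + (3 + N))) +
    (3 + (N1 + (3 + (N0 + ((1 + 1) + ((1 + 1) + 1))))))), fun V D _ _ R => ?_⟩
  obtain ⟨L, hL⟩ := h1 V D R _ R.rk_rk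
  obtain ⟨W, hW⟩ := h1 V D R _ R.rk_neg
  obtain ⟨Ins, B⟩ := h4 V D R L W hL hW (h3 V D R L W hL hW)
  obtain ⟨pre, post, p1, p2, p3⟩ := h2 V D R L _ R.rk_rk
  obtain ⟨pre', post', -, q2, q3⟩ := h2 V D R W _ R.rk_neg
  let X : Ctx R := ⟨L, W, hL, hW, Ins, B, pre, p1, fun u v k => ((p2 u v).1 k).1,
    fun u v a b k => ((p3 u v a b).1 k).1⟩
  obtain ⟨cs, hc⟩ := exists_picks (R := R) R.τ
  obtain ⟨mn, hm⟩ := exists_picks (R := R) X.pre
  have sub : ∀ T : R.Tree, T.Sub R.green R.root := fun T =>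
    ⟨R.green_root, fun v k => ⟨k, T.root_anc k, fun _ => T.gr_par v k⟩⟩
  have d1 := dec_first L p2 (hN V D R L _ _ (sub L))
  have d2 := dec_first W q2 (hN V D R W _ _ (sub W))
  have d3 : Dec N1 X.H := by
    refine hN1 V X.F X.tg X.Q (fun a t k => X.up_tg k) fun t => ?_
    by_cases ht : R.green t
    · refine ((hN V D R X.L _ _ (Ctx.sub_M ht X.L fun x k => k.com.1)).or
        (hN V D R X.W _ _ (Ctx.sub_M ht X.W fun x k => k.com.2))).congr fun a c => ?_
      exact ⟨fun k => ⟨ht, k⟩, fun k => k.2⟩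
    · exact ⟨fun _ _ => 0, fun _ _ => 0, fun _ _ _ _ _ k => absurd k.1 ht⟩
  have d4 := hN0 V X.F X.tg (fun _ _ _ => True) (fun a t k => X.up_tg k)
    fun t => ⟨fun _ _ => 0, fun _ _ => 0, fun _ _ _ _ _ k => k⟩
  have d5 := (Dec.left fun a => ∃ u, R.green u ∧ R.le a u).and (d4.not.and
    (((Dec.lt fun v => pre (cs v)).flip.and (Dec.lt fun v => post (cs v)).flip).and
      (((Dec.lt fun v => pre' (cs v)).flip.and (Dec.lt fun v => post' (cs v)).flip).and
        (Dec.le fun v => pre (mn v)))))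
  refine (d1.or (d2.or ((Dec.right R.green).and (d3.or d5)))).congr fun a b _ => ?_
  by_cases hb : R.green b
  · have e : ((∃ u, R.green u ∧ R.le a u) ∧
        (¬ ∃ t c, X.tg a = some t ∧ X.F.up c = some t ∧ X.F.Anc c b ∧ True) ∧
        (pre (cs b) < pre (cs a) ∧ post (cs b) < post (cs a)) ∧
        (pre' (cs b) < pre' (cs a) ∧ post' (cs b) < post' (cs a)) ∧ pre (mn a) ≤ pre (mn b)) ↔
        X.T cs mn a b := by
      refine and_congr_right fun k => ?_
      rw [X.Z_iff hb, hc.self hb, ← p3 _ _ hb (hc a k).1, ← q3 _ _ hb (hc a k).1]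
    rw [e, X.le_iff hc hm hb]
    simp only [hb, true_and]
    constructor
    · rintro (⟨x, k1, k2⟩ | ⟨x, k1, k2⟩ | k)
      · exact Or.inl ⟨x, k1, Or.inl k2⟩
      · exact Or.inl ⟨x, k1, Or.inr k2⟩
      · exact Or.inr k
    · rintro (⟨x, k1, k2 | k2⟩ | k)
      · exact Or.inl ⟨x, k1, k2⟩
      · exact Or.inr (Or.inl ⟨x, k1, k2⟩)
      · exact Or.inr (Or.inr k)
  · simp only [hb, false_and, or_self]

end Pool.Agent.MP_a17da5_co.PC
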