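import Pool.Agent.MP_a17da5_co.PC.St

set_option autoImplicit false

namespace Pool.Agent.MP_a17da5_co.PC

namespace NestX

variable {V : Type} (F : Forest V)

/-- parity of the depth -/
noncomputable def dp (o : Option V) : ℕ := (F.path (fun _ => ()) o).length % 2

theorem dp_some (v : V) : dp F (some v) = (dp F (F.up v) + 1) % 2 := by
  simp [dp, F.path_some]

theorem dp_lt (o : Option V) : dp F o < 2 := Nat.mod_lt _ two_pos

/-- ranks along a path -/
noncomputable def rk (θ : ℕ) (g : V → ℤ) (u : V) : ℤ := if dp F (some u) = θ then 0 else 2 * g u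

/-- the key of a point -/
noncomputable def ky (θ : ℕ) (f g : V → ℤ) (v : V) : List ℤ :=
  F.path (rk F θ g) (F.up v) ++ if dp F (some v) = θ then [0, 2 * f v + 1] else [2 * g v]

theorem ky_lt (f g : V → ℤ) {a b t c : V} (h1 : F.up a = F.up t) (h2 : F.up c = some t)
    (h3 : F.Anc c b) :
    ky F (dp F (some a)) f g a < ky F (dp F (some a)) f g b ↔ f a < g c := by
  have e1 : dp F (some t) = dp F (some a) := by rw [dp_some, dp_some, h1]
  have e2 : dp F (some c) ≠ dp F (some a) := by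
    have := dp_lt F (some t)
    rw [dp_some, h2, ← e1]
    omega
  have a1 : ky F (dp F (some a)) f g a =
      F.path (rk F (dp F (some a)) g) (some t) ++ (2 * f a + 1) :: [] := by
    rw [ky, if_pos rfl, F.path_some, h1, rk, if_pos e1]
    simp
  obtain ⟨l, a2⟩ : ∃ l, ky F (dp F (some a)) f g b =
      F.path (rk F (dp F (some a)) g) (some t) ++ (2 * g c) :: l := by
    rcases h3.cases_tail with rfl | ⟨p, p1, p2⟩
    · exact ⟨[], by rw [ky, if_neg e2, h2]⟩
    · obtain ⟨l, hl⟩ := F.path_anc (rk F (dp F (some a)) g) p2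
      rw [ky, p1, hl, F.path_some _ c, h2, rk, if_neg e2]
      simp only [List.append_assoc, List.cons_append, List.nil_append]
      exact ⟨_, rfl⟩
  rw [a1, a2]
  refine ⟨fun h => ?_, fun h => Forest.list_lt_of_lt _ _ _ (by omega)⟩
  by_contra hn
  exact lt_asymm h (Forest.list_lt_of_lt _ _ _ (by omega))

theorem proper {t b : V} : (∃ c, F.up c = some t ∧ F.Anc c b) ↔
    ∃ p, F.up b = some p ∧ F.Anc t p := by
  constructor
  · rintro ⟨c, h1, h2⟩
    rcases h2.cases_tail with rfl | ⟨p, p1, p2⟩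
    · exact ⟨t, h1, Forest.Anc.refl F t⟩
    · exact ⟨p, p1, p2.up h1⟩
  · rintro ⟨p, p1, p2⟩
    rcases p2.cases with rfl | ⟨c, h1, h2⟩
    · exact ⟨b, p1, Forest.Anc.refl F b⟩
    · exact ⟨c, h1, h2.trans ((Forest.Anc.refl F b).up p1)⟩

theorem proper' {t b : V} : (∃ p, F.up b = some p ∧ F.Anc t p) ↔ F.Anc t b ∧ t ≠ b := by
  constructor
  · rintro ⟨p, p1, p2⟩
    refine ⟨p2.trans ((Forest.Anc.refl F b).up p1), ?_⟩
    rintro rfl
    exact F.wf.transGen.irrefl.irrefl t (Relation.TransGen.tail' p2 p1)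
  · rintro ⟨h1, h2⟩
    exact h1.cases_tail.resolve_left h2

theorem decZ (h : S_for) [Fintype V] (tg : V → Option V)
    (htg : ∀ a t, tg a = some t → F.up a = F.up t) :
    Dec (3 + (1 + 1)) (fun a b => ∃ t c, tg a = some t ∧ F.up c = some t ∧ F.Anc c b) := by
  obtain ⟨pre, post, hi, ha, -⟩ := h V _ F (Fintype.equivFin V)
    fun u v _ e => (Fintype.equivFin V).injective e
  have hp : ∀ v, F.up ((tg v).getD v) = F.up v := fun v => by
    cases e : tg v with
    | none => rfl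
    | some t => exact (htg v t e).symm
  refine ((Dec.left fun a => ∃ t, tg a = some t).and
    ((Dec.lt fun v => pre ((tg v).getD v)).and
      (Dec.le fun v => post ((tg v).getD v)).flip)).congr fun a b _ => ⟨?_, ?_⟩
  · rintro ⟨⟨t, ht⟩, h1, h2⟩
    rw [ht, Option.getD_some] at h1 h2
    have := (proper' F).2 ⟨(ha _ _).2 ⟨h1.le, h2⟩, fun e => h1.ne (congrArg pre e)⟩
    rw [hp] at this
    obtain ⟨c, hc⟩ := (proper F).2 this
    exact ⟨t, c, ht, hc⟩
  · rintro ⟨t, c, ht, hc⟩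
    have := (proper F).1 ⟨c, hc⟩
    rw [← hp] at this
    obtain ⟨h1, h2⟩ := (proper' F).1 this
    rw [ht, Option.getD_some]
    exact ⟨⟨t, rfl⟩, lt_of_le_of_ne ((ha _ _).1 h1).1 fun e => h2 (hi e), ((ha _ _).1 h1).2⟩

end NestX

open NestX in
theorem s_nest (h : S_for) : S_nest := by
  classical
  intro N
  refine ⟨Fintype.card (Fin 2 × (Fin N → Bool)) * (3 + (1 + 1) + (N + 3)),
    fun V _ F tg Q htg hQ => ?_⟩
  choose f g hfg using hQ
  choose G hG _ using fun (θ : Fin 2) (i : Fin N) => exists_rank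
    (ky F θ (fun v => f ((tg v).getD v) i v) fun v => g ((F.up v).getD v) i v)
  have h1 : ∀ (θ : Fin 2) (π : Fin N → Bool),
      Dec N (fun x y => ∀ i, G θ i x < G θ i y ↔ π i = true) := fun θ π =>
    ⟨G θ, fun x y x' y' _ _ h3 h4 i => (h3 i).1.symm.trans (h4 i)⟩
  have key : ∀ (θ : Fin 2) a b t c, tg a = some t → F.up c = some t → F.Anc c b →
      dp F (some a) = θ → ∀ i, G θ i a < G θ i b ↔ f t i a < g t i c := by
    intro θ a b t c a1 a2 a3 a4 i
    rw [hG, ← a4, ky_lt F _ _ (htg a t a1) a2 a3]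
    simp only [a1, a2, Option.getD_some]
  refine (Dec.ex (ι := Fin 2 × (Fin N → Bool)) fun q => (decZ F h tg htg).and ((h1 q.1 q.2).and
    (Dec.left fun a => dp F (some a) = q.1 ∧ ∃ t a' c', tg a = some t ∧
      (∀ i, f t i a' < g t i c' ↔ q.2 i = true) ∧ Q t a' c'))).congr fun a b _ => ⟨?_, ?_⟩
  · rintro ⟨⟨θ, π⟩, ⟨t, c, a1, a2, a3⟩, b1, b2, t', a', c', b3, b4, b5⟩
    obtain rfl : t = t' := Option.some_injective _ (a1.symm.trans b3)
    exact ⟨t, c, a1, a2, a3, hfg t a' c' a c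
      (fun i => (b4 i).trans ((b1 i).symm.trans (key θ a b t c a1 a2 a3 b2 i))) b5⟩
  · rintro ⟨t, c, a1, a2, a3, a4⟩
    refine ⟨(⟨dp F (some a), dp_lt F _⟩, fun i => decide (f t i a < g t i c)),
      ⟨t, c, a1, a2, a3⟩, fun i => ?_, rfl, t, a, c, a1, fun i => by simp, a4⟩
    rw [key _ a b t c a1 a2 a3 rfl i]
    simp

end Pool.Agent.MP_a17da5_co.PC
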