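import Pool.Agent.MP_a17da5_co.PC.St

/-! Preorder and postorder of a tree. -/

set_option autoImplicit false

namespace Pool.Agent.MP_a17da5_co.PC

namespace OrdX

/-- Position of `y` in the cyclic order which starts at `x`. -/
def off (x y : ℤ) : ℤ ×ₗ ℤ := toLex (if x < y then 0 else 1, y)

theorem off_of_bt {x y z : ℤ} (h : Bt x y z) : off x y < off x z := by
  unfold Bt at h
  simp only [off, Prod.Lex.toLex_lt_toLex]
  split_ifs <;> omega

theorem bt_of_off {x y z : ℤ} (hy : y ≠ x) (hz : z ≠ x) (h : off x y < off x z) : Bt x y z := by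
  unfold Bt
  simp only [off, Prod.Lex.toLex_lt_toLex] at h
  split_ifs at h <;> omega

theorem off_inj {x y x' z : ℤ} (h : off x y = off x' z) : y = z :=
  congrArg (fun p : ℤ ×ₗ ℤ => (ofLex p).2) h

variable {V D : Type} [Fintype V] [Fintype D] {R : RP V D} (T : R.Tree) (ρ : D → ℤ)

open Classical in
/-- The rank of a vertex among its siblings. -/
noncomputable def rk (c : V) : ℤ ×ₗ ℤ :=
  if R.green c ∧ c ≠ R.root then off (ρ (T.par (R.hd (T.par c)))) (ρ (R.op (T.par c)))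
  else toLex (0, (Fintype.equivFin V c : ℕ))

theorem rk_pos {c : V} (h : R.green c) (h' : c ≠ R.root) :
    rk T ρ c = off (ρ (T.par (R.hd (T.par c)))) (ρ (R.op (T.par c))) := if_pos ⟨h, h'⟩

theorem up_pos {c : V} (h : R.green c) (h' : c ≠ R.root) : T.F.up c = some (R.hd (T.par c)) :=
  T.up_iff.2 ⟨h, h', rfl⟩

theorem up_congr {c c' : V} (e : T.F.up c = T.F.up c') (h : R.green c ∧ c ≠ R.root) :
    R.green c' ∧ c' ≠ R.root ∧ R.hd (T.par c') = R.hd (T.par c) :=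
  T.up_iff.1 (e.symm.trans (up_pos T h.1 h.2))

theorem hd_ne {b : V} {f : D} (h : T.On b f) : R.hd f ≠ R.root := fun e => by
  have h1 := h.2.1
  rw [e, T.par_root, ← R.op_d0] at h1
  exact RP.not_fw_d0 (R.op_inj h1 ▸ h.1)

end OrdX

open OrdX

theorem s_ord (h : S_for) : S_ord := by
  intro V D _ _ R T ρ hρ
  obtain ⟨pre, post, h1, h2, h3⟩ := h V (ℤ ×ₗ ℤ) T.F (rk T ρ) fun u v e e' => by
    by_cases hu : R.green u ∧ u ≠ R.root
    · obtain ⟨a1, a2, a3⟩ := up_congr T e hu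
      rw [rk_pos T ρ hu.1 hu.2, rk_pos T ρ a1 a2] at e'
      rw [← T.vt_par u hu.1, R.op_inj (hρ _ _ a3.symm (off_inj e')), T.vt_par v a1]
    · have hv : ¬(R.green v ∧ v ≠ R.root) := fun hv =>
        hu ⟨(up_congr T e.symm hv).1, (up_congr T e.symm hv).2.1⟩
      rw [rk, rk, if_neg hu, if_neg hv] at e'
      have := congrArg (fun p : ℤ ×ₗ ℤ => (ofLex p).2) e'
      exact (Fintype.equivFin V).injective (Fin.ext (Nat.cast_injective (R := ℤ) this))
  refine ⟨pre, post, h1, h2, fun u v hu hv => Iff.trans ⟨?_, ?_⟩ (h3 u v)⟩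
  · rintro ⟨f, e, k1, k2, k3, k4⟩
    have g1 := k1.2.2.green hu
    have g2 := k2.2.2.green hv
    refine ⟨_, _, k1.2.2, k2.2.2, ?_, ?_⟩
    · rw [up_pos T g1 (hd_ne T k1), up_pos T g2 (hd_ne T k2), k1.2.1, k2.2.1, R.hd_op, R.hd_op, k3]
    · rw [rk_pos T ρ g1 (hd_ne T k1), rk_pos T ρ g2 (hd_ne T k2), k1.2.1, k2.2.1, R.hd_op, R.hd_op,
        R.op_op, R.op_op, ← k3]
      exact off_of_bt k4
  · rintro ⟨c, c', k1, k2, k3, k4⟩
    have g1 := RP.Tree.Anc.green k1 hu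
    have g2 := RP.Tree.Anc.green k2 hv
    have n1 : c ≠ R.root := by
      rintro rfl
      by_cases q : c' = R.root
      · rw [q] at k4
        exact lt_irrefl _ k4
      · exact (up_congr T k3.symm ⟨g2, q⟩).2.1 rfl
    obtain ⟨-, n2, a3⟩ := up_congr T k3 ⟨g1, n1⟩
    have g3 := T.gr_par c g1
    rw [rk_pos T ρ g1 n1, rk_pos T ρ g2 n2, a3] at k4
    refine ⟨_, _, RP.Tree.on_par k1 g1 n1, RP.Tree.on_par k2 g2 n2, a3.symm,
      bt_of_off (fun q => ?_) (fun q => ?_) k4⟩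
    · exact RP.Tree.fw_ne_par g3 (T.fw_par c g1 n1) (hρ _ _ (T.vt_par _ g3).symm q)
    · exact RP.Tree.fw_ne_par g3 (T.fw_par c' g2 n2)
        (hρ _ _ (a3.trans (T.vt_par _ g3).symm) q)

end Pool.Agent.MP_a17da5_co.PC
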