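import Pool.Agent.MP_a17da5_co.PC.St

set_option autoImplicit false

namespace Pool.Agent.MP_a17da5_co.PC

open Relation RP RP.Tree

namespace PosX

variable {V D : Type} [Fintype V] [Fintype D] {R : RP V D} (T : R.Tree)

open Classical in
/-- The forest on the darts. -/
noncomputable def FD : Forest D :=
  Forest.ofMeasure
    (fun d => if R.green (R.vt d) ∧ R.vt d ≠ R.root then some (R.op (T.par (R.vt d))) else none)
    (fun d => R.τ (R.vt d))
    (by
      intro u v h
      split_ifs at h with hu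
      cases h
      have := τ_hd (T.fw_par _ hu.1 hu.2)
      rwa [hd_op, T.vt_par _ hu.1] at this)

theorem up_iff {d g : D} : (FD T).up d = some g ↔
    R.green (R.vt d) ∧ R.vt d ≠ R.root ∧ R.op (T.par (R.vt d)) = g := by
  simp only [FD, Forest.ofMeasure]
  split_ifs with h
  · simp [h.1, h.2]
  · simp only [false_iff]
    exact fun h' => h ⟨h'.1, h'.2.1⟩

theorem up_eq {d e : D} (h : R.vt d = R.vt e) : (FD T).up d = (FD T).up e := by
  refine Option.ext fun g => ?_
  rw [up_iff, up_iff, h]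

variable {T}

theorem on_of_anc {g c : D} (h : (FD T).Anc g c) :
    g = c ∨ (R.green (R.vt c) ∧ T.On (R.vt c) g) := by
  refine (FD T).anc_induction (P := fun g => g = c ∨ (R.green (R.vt c) ∧ T.On (R.vt c) g))
    (Or.inl rfl) ?_ h
  intro c' u _ hc hu
  obtain ⟨a1, a2, rfl⟩ := (up_iff T).1 hu
  rcases hc with rfl | ⟨k1, k2⟩
  · exact Or.inr ⟨a1, on_par (T.anc_refl _) a1 a2⟩
  · exact Or.inr ⟨k1, on_par (k2.anc_vt k1) a1 a2⟩

theorem anc_of_on {g c : D} (hc : R.green (R.vt c)) (h : T.On (R.vt c) g) : (FD T).Anc g c := by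
  have key : ∀ v, R.green v → ∀ c, R.vt c = v → T.On v g → (FD T).Anc g c := by
    intro v hv
    refine T.root_ind (P := fun v => ∀ c, R.vt c = v → T.On v g → (FD T).Anc g c) ?_ ?_ hv
    · intro c _ k
      have a := k.τ_lt
      have b := RP.le.τ_le (k.green_vt R.green_root)
      omega
    · rintro v hv hr ih c rfl k
      have hu : (FD T).Anc (R.op (T.par (R.vt c))) c :=
        Forest.Anc.up (Forest.Anc.refl _ c) ((up_iff T).2 ⟨hv, hr, rfl⟩)
      rcases k.2.2.cases_tail with k' | ⟨_, _, k'⟩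
      · rw [← k', k.2.1, R.op_op] at hu
        exact hu
      · exact (ih _ rfl ⟨k.1, k.2.1, k'⟩).trans hu
  exact key _ hc c rfl h

variable (T)

/-- The cyclic offset after the parent dart. -/
noncomputable def rr (d : D) : ℤ ×ₗ ℤ ×ₗ Fin (Fintype.card D) :=
  toLex (if R.rk d < R.rk (T.par (R.vt d)) then 1 else 0,
    toLex (R.rk d, Fintype.equivFin D d))

theorem rr_inj {d e : D} (h : rr T d = rr T e) : d = e :=
  (Fintype.equivFin D).injective
    (congrArg (fun x : ℤ ×ₗ ℤ ×ₗ Fin (Fintype.card D) => (ofLex (ofLex x).2).2) h)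

theorem rr_lt {d e : D} (hd : R.green (R.vt d)) (he : R.vt e = R.vt d)
    (hp : e ≠ T.par (R.vt d)) :
    rr T d < rr T e ↔ d = T.par (R.vt d) ∨ Bt (R.rk (T.par (R.vt d))) (R.rk d) (R.rk e) := by
  have h0 := T.vt_par _ hd
  have h1 : R.rk e ≠ R.rk (T.par (R.vt d)) := fun k => hp (R.rk_inj _ _ (he.trans h0.symm) k)
  have h2 : d = T.par (R.vt d) ↔ R.rk d = R.rk (T.par (R.vt d)) :=
    ⟨fun k => congrArg R.rk k, R.rk_inj _ _ h0.symm⟩
  have h3 : ¬ (R.rk d = R.rk e ∧ Fintype.equivFin D d < Fintype.equivFin D e) := fun k => by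
    rw [R.rk_inj _ _ he.symm k.1] at k
    exact lt_irrefl _ k.2
  rw [h2]
  simp only [rr, Prod.Lex.toLex_lt_toLex, h3, or_false, he, Bt]
  split_ifs <;> omega

end PosX

open PosX

theorem s_pos (h : S_for) : S_pos := by
  intro V D _ _ R T
  obtain ⟨pre, post, hi, hA, hB⟩ := h D _ (FD T) (rr T) fun _ _ _ => rr_inj T
  have sib : ∀ d e, R.vt d = R.vt e → (pre d < pre e ↔ rr T d < rr T e) := by
    have k : ∀ d e, R.vt d = R.vt e → rr T d < rr T e → pre d < pre e := fun d e h1 h2 =>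
      ((hB d e).1 ⟨d, e, Forest.Anc.refl _ _, Forest.Anc.refl _ _, up_eq T h1, h2⟩).1
    refine fun d e h1 => ⟨fun h2 => ?_, k d e h1⟩
    rcases lt_trichotomy (rr T d) (rr T e) with h3 | h3 | h3
    · exact h3
    · rw [rr_inj T h3] at h2
      exact absurd h2 (lt_irrefl _)
    · exact absurd (k e d h1.symm h3) (not_lt.2 h2.le)
  have lt_of : ∀ g c, R.green (R.vt c) → T.On (R.vt c) g → pre g < pre c := fun g c h1 h2 =>
    lt_of_le_of_ne ((hA _ _).1 (anc_of_on h1 h2)).1 fun k => h2.vt_ne (congrArg R.vt (hi k))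
  have least : ∀ d, R.green (R.vt d) → pre (T.par (R.vt d)) ≤ pre d := fun d hd => by
    by_cases k : d = T.par (R.vt d)
    · rw [← k]
    · have h0 := T.vt_par _ hd
      refine ((sib _ _ h0).2 ((rr_lt T (by rwa [h0]) h0.symm (by rwa [h0])).2
        (Or.inl (by rw [h0])))).le
  have hen : ∀ u, ∃ m : ℤ, (∀ e, T.Anc u (R.vt e) → pre e ≤ m) ∧
      (R.green u → ∃ e, T.Anc u (R.vt e) ∧ pre e = m) := by
    intro u
    by_cases k : {e | T.Anc u (R.vt e)}.Nonempty
    · obtain ⟨e, k1, k2⟩ := Set.exists_max_image _ pre (Set.toFinite _) k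
      exact ⟨pre e, k2, fun _ => ⟨e, k1, rfl⟩⟩
    · refine ⟨0, fun e he => absurd ⟨e, he⟩ k, fun hu => absurd ⟨T.par u, ?_⟩ k⟩
      show T.Anc u (R.vt (T.par u))
      rw [T.vt_par u hu]
      exact T.anc_refl u
  choose en en1 en2 using hen
  refine ⟨pre, en, hi, fun u d hu hd => ⟨fun k => ⟨?_, en1 u d k⟩, fun ⟨k1, k2⟩ => ?_⟩,
    fun u v hv k => ?_, fun d e hd he hp => (sib d e he.symm).trans (rr_lt T hd he hp),
    fun g d c hg hc hd => ⟨fun k => ?_, fun k => k.trans_lt (lt_of g c hc hg)⟩⟩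
  · by_cases k' : u = R.vt d
    · rw [k']; exact least d hd
    · obtain ⟨f, f1, rfl⟩ := k.exists_out k'
      exact (least f hu).trans (lt_of f d hd f1).le
  · by_cases hr : u = R.root
    · rw [hr]; exact T.root_anc hd
    obtain ⟨e, e1, e2⟩ := en2 u hu
    have h0 := T.vt_par u hu
    have g1 : pre (R.op (T.par u)) < pre (T.par u) :=
      lt_of _ _ (by rwa [h0]) (by rw [h0]; exact on_par (T.anc_refl u) hu hr)
    have g2 : (FD T).Anc (R.op (T.par u)) e :=
      anc_of_on (hu.le e1.le) (on_par e1 hu hr)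
    have g3 : (FD T).Anc (R.op (T.par u)) d := by
      by_contra hn
      rw [hA, not_and, not_le] at hn
      obtain ⟨c, c', c1, c2, c3, c4⟩ := (hB (R.op (T.par u)) d).2 ⟨by omega, hn (by omega)⟩
      have := ((hB e d).1 ⟨c, c', c1.trans g2, c2, c3, c4⟩).1
      omega
    rcases on_of_anc g3 with k | ⟨_, k⟩
    · rw [k] at g1
      omega
    · have := k.2.2
      rwa [hd_op, h0] at this
  · obtain ⟨e, e1, e2⟩ := en2 v hv
    exact e2 ▸ en1 u e (k.trans e1)
  · by_contra hn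
    have := ((hB c d).1 ⟨g, d, anc_of_on hc hg, Forest.Anc.refl _ _, up_eq T hd.symm,
      (sib g d hd.symm).1 (not_le.1 hn)⟩).1
    omega

end Pool.Agent.MP_a17da5_co.PC
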