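import Pool.Agent.MP_a17da5_co.PC.St

/-!
Two systems of nested ranges cover a family of sets without crossings.
-/

set_option autoImplicit false

namespace Pool.Agent.MP_a17da5_co.PC

namespace RngX

variable {A : Type}

/-- no crossings, for sets of integers -/
def NC (R : A → ℤ → Prop) : Prop :=
  ∀ (a a' : A) (p1 p2 p3 p4 : ℤ), p1 < p2 → p2 < p3 → p3 < p4 → R a p1 → R a' p2 → R a p3 →
    R a' p4 → (R a' p1 ∨ R a' p3) ∧ (R a p2 ∨ R a p4)

/-- `y` lies outside the set of `a` and in a set which contains all smaller points of it -/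
def Wit (R : A → ℤ → Prop) (a : A) (y : ℤ) : Prop :=
  ∃ b, R b y ∧ ¬ R a y ∧ ∀ e, R a e → e < y → R b e

/-- the four marked points of each set -/
structure Sp (R : A → ℤ → Prop) (m α β M : A → ℤ) : Prop where
  m1 : ∀ a, R a (m a)
  m2 : ∀ a x, R a x → m a ≤ x
  M1 : ∀ a, R a (M a)
  M2 : ∀ a x, R a x → x ≤ M a
  a1 : ∀ a, R a (α a)
  a2 : ∀ a, α a = m a ∨ ∃ y, Wit R a y ∧ α a < y
  a3 : ∀ a u y, R a u → Wit R a y → u < y → u ≤ α a
  b1 : ∀ a, R a (β a)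
  b2 : ∀ a, α a ≤ β a
  b3 : ∀ a x, R a x → α a < x → β a ≤ x
  b4 : ∀ a, α a < M a → α a < β a

theorem exists_sp (R : A → ℤ → Prop) (lo hi : ℤ) (hlo : ∀ a x, R a x → lo ≤ x)
    (hhi : ∀ a x, R a x → x ≤ hi) (hne : ∀ a, ∃ x, R a x) : ∃ m α β M, Sp R m α β M := by
  choose m m1 m2 using fun a => Int.exists_least_of_bdd (P := R a) ⟨lo, hlo a⟩ (hne a)
  choose M M1 M2 using fun a => Int.exists_greatest_of_bdd (P := R a) ⟨hi, hhi a⟩ (hne a)
  choose α a1 a2 using fun a => Int.exists_greatest_of_bdd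
    (P := fun u => R a u ∧ (u = m a ∨ ∃ y, Wit R a y ∧ u < y)) ⟨hi, fun z hz => hhi a z hz.1⟩
    ⟨m a, m1 a, Or.inl rfl⟩
  choose β b1 b2 using fun a => Int.exists_least_of_bdd
    (P := fun u => R a u ∧ (α a < u ∨ u = M a)) ⟨lo, fun z hz => hlo a z hz.1⟩
    ⟨M a, M1 a, Or.inr rfl⟩
  refine ⟨m, α, β, M, m1, m2, M1, M2, fun a => (a1 a).1, fun a => (a1 a).2,
    fun a u y hu hy huy => a2 a u ⟨hu, Or.inr ⟨y, hy, huy⟩⟩, fun a => (b1 a).1, fun a => ?_,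
    fun a x hx h => b2 a x ⟨hx, Or.inl h⟩, fun a h => ?_⟩
  · have h1 := (b1 a).2
    have h2 := M2 a _ (a1 a).1
    omega
  · have h1 := (b1 a).2
    omega

variable {R : A → ℤ → Prop} {m α β M : A → ℤ}

theorem lt_of_ne {a : A} {x y : ℤ} (hx : R a x) (hy : ¬ R a y) (h : x ≤ y) : x < y :=
  lt_of_le_of_ne h fun e => hy (e ▸ hx)

theorem lt_of_ne' {a : A} {x y : ℤ} (hx : ¬ R a x) (hy : R a y) (h : x ≤ y) : x < y :=
  lt_of_le_of_ne h fun e => hx (e ▸ hy)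

theorem left_min (hN : NC R) (s : Sp R m α β M) {a a' : A} {y : ℤ} (hy : R a y)
    (h1 : m a' ≤ y) (h2 : y ≤ α a') (hn : ¬ R a' y) : m a' ≤ m a := by
  by_contra hlt
  have hlt := not_le.1 hlt
  have k1 := lt_of_ne (s.m1 a') hn h1
  have k2 := lt_of_ne' hn (s.a1 a') h2
  rcases (hN a a' _ _ _ _ hlt k1 k2 (s.m1 a) (s.m1 a') hy (s.a1 a')).1 with k | k
  · exact absurd (s.m2 a' _ k) (not_le.2 hlt)
  · exact hn k

theorem left_max (hN : NC R) (s : Sp R m α β M) {a a' : A} {y : ℤ} (hy : R a y)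
    (h1 : m a' ≤ y) (h2 : y ≤ α a') (hn : ¬ R a' y) : α a ≤ α a' := by
  by_contra hlt
  have hlt := not_le.1 hlt
  have k1 := lt_of_ne (s.m1 a') hn h1
  have k2 := lt_of_ne' hn (s.a1 a') h2
  have k3 := s.m2 a y hy
  obtain ⟨z, hz, hz1⟩ := (s.a2 a').resolve_left (by omega)
  obtain ⟨b, ⟨B, hb1, hb2, hb3⟩, hb4⟩ := (s.a2 a).resolve_left (by omega)
  have k4 : R a' (α a) :=
    (hN a' a _ _ _ _ k1 k2 hlt (s.m1 a') hy (s.a1 a') (s.a1 a)).2.resolve_left hn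
  have k5 : z ≤ α a := not_lt.1 fun h => absurd (s.a3 a' _ z k4 hz h) (not_le.2 hlt)
  obtain ⟨Z, z1, z2, z3⟩ := hz
  have k6 := lt_of_ne' z2 k4 k5
  have k7 : R B y := hb3 y hy (by omega)
  have k8 : R a' b :=
    (hN a' B (m a') y (α a) b k1 (by omega) hb4 (s.m1 a') k7 k4 hb1).2.resolve_left hn
  have k9 : ¬ R a z := fun h =>
    (hN a a' y (α a') z b k2 hz1 (by omega) hy (s.a1 a') h k8).1.elim hn z2
  have k10 : ¬ R Z y := fun h =>
    (hN Z a' y (α a') z (α a) k2 hz1 k6 h (s.a1 a') z1 k4).1.elim hn z2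
  by_cases k11 : R Z b
  · exact (hN a Z y z (α a) b (by omega) k6 hb4 hy z1 (s.a1 a) k11).2.elim k9 hb2
  · exact (hN Z B (m a') y z b k1 (by omega) (by omega) (z3 _ (s.m1 a') (by omega)) k7 z1
      hb1).2.elim k10 k11

theorem left_tie (hN : NC R) (s : Sp R m α β M) {a a' : A} {y q : ℤ} (hm : m a = m a')
    (hα : α a = α a') (hy : R a y) (hn : ¬ R a' y) (hq : R a' q) (hqn : ¬ R a q)
    (h1 : m a ≤ q) (hqy : q < y) (h2 : y ≤ α a') : False := by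
  have k1 := lt_of_ne (s.m1 a) hqn h1
  have k2 := lt_of_ne' hn (s.a1 a') h2
  obtain ⟨z, hz, hz1⟩ := (s.a2 a').resolve_left (by omega)
  obtain ⟨b, hb, hb4⟩ := (s.a2 a).resolve_left (by omega)
  have k3 : R a' b := by
    obtain ⟨B, hb1, -, hb3⟩ := hb
    exact (hN a' B q y (α a') b hqy k2 (by omega) hq (hb3 y hy (by omega)) (s.a1 a')
      hb1).2.resolve_left hn
  have k4 : R a z := by
    obtain ⟨Z, z1, -, z3⟩ := hz
    exact (hN a Z (m a) q y z k1 hqy (by omega) (s.m1 a) (z3 q hq (by omega)) hy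
      z1).2.resolve_left hqn
  have k5 : z ≤ b := not_lt.1 fun h => absurd (s.a3 a' b z k3 hz h) (by omega)
  have k6 : b ≤ z := not_lt.1 fun h => absurd (s.a3 a z b k4 hb h) (by omega)
  obtain ⟨_, -, z2, -⟩ := hz
  exact z2 (le_antisymm k6 k5 ▸ k3)

theorem right_max (hN : NC R) (s : Sp R m α β M) {a a' : A} {y : ℤ} (hy : R a y)
    (h1 : β a' ≤ y) (h2 : y ≤ M a') (hn : ¬ R a' y) : M a ≤ M a' := by
  by_contra hlt
  have hlt := not_le.1 hlt
  have k1 := lt_of_ne (s.b1 a') hn h1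
  have k2 := lt_of_ne' hn (s.M1 a') h2
  rcases (hN a' a _ _ _ _ k1 k2 hlt (s.b1 a') hy (s.M1 a') (s.M1 a)).2 with k | k
  · exact hn k
  · exact absurd (s.M2 a' _ k) (not_le.2 hlt)

theorem right_sub (hN : NC R) (s : Sp R m α β M) {a a' : A} {y : ℤ} (hy : R a y)
    (h1 : β a' ≤ y) (h2 : y ≤ M a') (hn : ¬ R a' y) {x : ℤ} (hx : R a x) (hxβ : x < β a') :
    R a' x :=
  (hN a a' x (β a') y (M a') hxβ (lt_of_ne (s.b1 a') hn h1) (lt_of_ne' hn (s.M1 a') h2) hx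
    (s.b1 a') hy (s.M1 a')).1.resolve_right hn

theorem right_min (hN : NC R) (s : Sp R m α β M) {a a' : A} {y : ℤ} (hy : R a y)
    (h1 : β a' ≤ y) (h2 : y ≤ M a') (hn : ¬ R a' y) : β a' ≤ β a := by
  by_contra hlt
  have hlt := not_le.1 hlt
  have k1 := lt_of_ne (s.b1 a') hn h1
  have k2 := lt_of_ne' hn (s.M1 a') h2
  have k3 := s.b2 a'
  have k4 := s.b4 a' (by omega)
  have sub : ∀ x, R a x → x < β a' → R a' x := fun x => right_sub hN s hy h1 h2 hn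
  have k5 : β a ≤ α a' :=
    not_lt.1 fun h => absurd (s.b3 a' _ (sub _ (s.b1 a) hlt) h) (not_le.2 hlt)
  have k6 : β a ≤ α a := by
    rcases s.a2 a' with e | ⟨z, hz, hz1⟩
    · have q1 := s.m2 a _ (s.b1 a)
      have q2 := s.m2 a' _ (sub _ (s.m1 a) (by omega))
      have q3 := s.m2 a _ (s.a1 a)
      omega
    · have q1 : z ≤ β a' := not_lt.1 fun h => absurd (s.a3 a' _ z (s.b1 a') hz h) (by omega)
      obtain ⟨Z, z1, z2, z3⟩ := hz
      have q2 := lt_of_ne' z2 (s.b1 a') q1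
      exact s.a3 a _ z (s.b1 a) ⟨Z, z1, fun h => z2 (sub z h q2),
        fun e he hez => z3 e (sub e he (by omega)) hez⟩ (by omega)
  have k7 := s.M2 a y hy
  have k9 := s.b2 a
  have k8 := s.b4 a (by omega)
  omega

theorem right_tie_aux (hN : NC R) (s : Sp R m α β M) {a a' : A} {z q : ℤ} (hβ : β a = β a')
    (hM : M a = M a') (hz : R a z) (hn : ¬ R a' z) (hq : R a' q) (hqn : ¬ R a q)
    (h1 : β a ≤ q) (h2 : β a ≤ z)
    (hmin : ∀ e, β a ≤ e → e < z → R a' e → R a e) : False := by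
  have k0 := s.M2 a' q hq
  have k1 := lt_of_ne (s.b1 a') hn (by omega)
  have k2 := s.M2 a z hz
  have k3 := s.b2 a'
  have k4 := s.b4 a' (by omega)
  have k5 := s.a3 a' _ z (s.b1 a') ⟨a, hz, hn, fun e he hez => by
    rcases lt_or_ge e (β a) with h | h
    · exact right_sub hN s hq h1 (by omega) hqn he h
    · exact hmin e h hez he⟩ k1
  omega

theorem right_tie (hN : NC R) (s : Sp R m α β M) {a a' : A} {y q : ℤ} (hβ : β a = β a')
    (hM : M a = M a') (hy : R a y) (hn : ¬ R a' y) (hq : R a' q) (hqn : ¬ R a q)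
    (h1 : β a ≤ q) (h2 : β a ≤ y) : False := by
  obtain ⟨z, ⟨z1, z2⟩, z3⟩ := Int.exists_least_of_bdd
    (P := fun u => β a ≤ u ∧ ¬ (R a u ↔ R a' u)) ⟨β a, fun z hz => hz.1⟩
    ⟨y, h2, fun h => hn (h.1 hy)⟩
  have hmin : ∀ e, β a ≤ e → e < z → (R a e ↔ R a' e) := fun e he hez => by
    by_contra h
    exact absurd (z3 e ⟨he, h⟩) (not_le.2 hez)
  by_cases hz : R a z
  · exact right_tie_aux hN s hβ hM hz (fun h => z2 ⟨fun _ => h, fun _ => hz⟩) hq hqn h1 z1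
      fun e he hez => (hmin e he hez).2
  · have hz' : R a' z := by
      by_contra h
      exact z2 ⟨fun k => absurd k hz, fun k => absurd k h⟩
    exact right_tie_aux hN s hβ.symm hM.symm hz' hz hy hn (by omega) (by omega)
      fun e he hez => (hmin e (by omega) hez).1

end RngX

open RngX in
theorem s_rng : S_rng := by
  intro A C _ _ pos Reach hinj hne hN
  let R : A → ℤ → Prop := fun a n => ∃ c, Reach a c ∧ pos c = n
  have hR : ∀ a c, R a (pos c) ↔ Reach a c :=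
    fun a c => ⟨fun ⟨c', h, e⟩ => hinj e ▸ h, fun h => ⟨c, h, rfl⟩⟩
  have hNC : NC R := by
    rintro a a' _ _ _ _ h1 h2 h3 ⟨c1, k1, rfl⟩ ⟨c2, k2, rfl⟩ ⟨c3, k3, rfl⟩ ⟨c4, k4, rfl⟩
    simp only [hR]
    exact hN a a' c1 c2 c3 c4 h1 h2 h3 k1 k2 k3 k4
  obtain ⟨lo, hlo⟩ := (Set.finite_range pos).bddBelow
  obtain ⟨hi, hhi⟩ := (Set.finite_range pos).bddAbove
  obtain ⟨m, α, β, M, s⟩ := exists_sp R lo hi (fun a x ⟨c, _, e⟩ => hlo ⟨c, e⟩)
    (fun a x ⟨c, _, e⟩ => hhi ⟨c, e⟩) (fun a => (hne a).elim fun c hc => ⟨pos c, c, hc, rfl⟩)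
  choose l l1 l2 using s.m1
  choose r r1 r2 using s.a1
  choose l' l1' l2' using s.b1
  choose r' r1' r2' using s.M1
  refine ⟨l, r, l', r', ⟨fun a => ⟨l1 a, r1 a, ?_⟩, fun a a' y hy h1 h2 hn => ?_⟩,
    ⟨fun a => ⟨l1' a, r1' a, ?_⟩, fun a a' y hy h1 h2 hn => ?_⟩, fun a c hc => ?_⟩
  · rw [l2, r2]
    exact s.m2 a _ (s.a1 a)
  · rw [l2] at h1
    rw [r2] at h2
    rw [← hR] at hy hn
    refine ⟨by rw [l2, l2]; exact left_min hNC s hy h1 h2 hn,
      by rw [r2, r2]; exact left_max hNC s hy h1 h2 hn, fun e1 e2 q q1 q2 hq => ?_⟩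
    have f1 : m a = m a' := by rw [← l2, ← l2, e1]
    have f2 : α a = α a' := by rw [← r2, ← r2, e2]
    rw [l2] at q1
    rw [r2] at q2
    rw [← hR] at hq ⊢
    by_contra hqn
    rcases lt_trichotomy (pos q) (pos y) with h | h | h
    · exact left_tie hNC s f1 f2 hy hn hq hqn q1 h h2
    · exact hn (h ▸ hq)
    · exact left_tie hNC s f1.symm f2.symm hq hqn hy hn h1 h q2
  · rw [l2', r2']
    exact s.M2 a _ (s.b1 a)
  · rw [l2'] at h1
    rw [r2'] at h2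
    rw [← hR] at hy hn
    refine ⟨by rw [l2', l2']; exact right_min hNC s hy h1 h2 hn,
      by rw [r2', r2']; exact right_max hNC s hy h1 h2 hn, fun e1 e2 q q1 q2 hq => ?_⟩
    have f1 : β a = β a' := by rw [← l2', ← l2', e1]
    have f2 : M a = M a' := by rw [← r2', ← r2', e2]
    rw [l2'] at q1
    rw [← hR] at hq ⊢
    by_contra hqn
    exact right_tie hNC s f1 f2 hy hn hq hqn q1 (by omega)
  · rw [l2, r2, l2', r2']
    rw [← hR] at hc
    rcases le_or_gt (pos c) (α a) with h | h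
    · exact Or.inl ⟨s.m2 a _ hc, h⟩
    · exact Or.inr ⟨s.b3 a _ hc h, s.M2 a _ hc⟩

end Pool.Agent.MP_a17da5_co.PC
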