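import Pool.Agent.Mg.S10491.G4be90e

/-!
Planar cover graphs: definitions, basic facts on trees, and the statements of the steps.
-/

set_option autoImplicit false

namespace Pool.Agent.MP_a17da5_co.PC

open Relation

/-- Cyclic order of three integers. -/
def Bt (x y z : ℤ) : Prop := (x < y ∧ y < z) ∨ (y < z ∧ z < x) ∨ (z < x ∧ x < y)

/-- A plane structure: darts `D`, the vertex `vt d` of a dart, the opposite dart, a clockwise rank
at every vertex, and two-colourability of the corners by every cycle modulo two. -/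
structure PL (V D : Type) [Fintype D] where
  vt : D → V
  op : D → D
  rk : D → ℤ
  op_op : ∀ d, op (op d) = d
  rk_inj : ∀ d e, vt d = vt e → rk d = rk e → d = e
  jordan : ∀ Y : D → ZMod 2, (∀ d, Y (op d) = Y d) → (∀ v, sumOn Y (fun d => vt d = v) = 0) →
    ∃ w : V → ZMod 2, ∀ d, w (vt d) + sumOn Y (fun f => vt f = vt d ∧ rk f < rk d) =
      w (vt (op d)) + sumOn Y (fun f => vt f = vt (op d) ∧ rk f ≤ rk (op d))

/-- The relation `A` is carried by a plane structure. -/
def Plane {V : Type} (A : V → V → Prop) : Prop :=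
  ∃ (D : Type) (_ : Fintype D) (G : PL V D), (∀ d, G.op d ≠ d) ∧
    ∀ a b, A a b → ∃ d, G.vt d = a ∧ G.vt (G.op d) = b

/-- A plane structure with an acyclic set of forward darts and a half edge `d0` at the root. -/
structure RP (V D : Type) [Fintype D] extends PL V D where
  fw : D → Prop
  τ : V → ℤ
  τ_lt : ∀ d, fw d → τ (vt d) < τ (vt (op d))
  d0 : D
  op_d0 : op d0 = d0

namespace RP

variable {V D : Type} [Fintype D] (R : RP V D)

def root : V := R.vt R.d0

/-- The other end of a dart. -/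
def hd (d : D) : V := R.vt (R.op d)

def adj (a b : V) : Prop := ∃ d, R.fw d ∧ R.vt d = a ∧ R.hd d = b

def le (a b : V) : Prop := ReflTransGen R.adj a b

def green (v : V) : Prop := R.le R.root v

/-- A rank function which separates the darts at every vertex. -/
def Rk (ρ : D → ℤ) : Prop := ∀ d e, R.vt d = R.vt e → ρ d = ρ e → d = e

theorem rk_rk : R.Rk R.rk := R.rk_inj

theorem rk_neg : R.Rk (fun d => - R.rk d) := fun d e h h' => R.rk_inj d e h (neg_injective h')

theorem le_refl (a : V) : R.le a a := ReflTransGen.refl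

theorem green_root : R.green R.root := R.le_refl _

@[simp] theorem hd_op (d : D) : R.hd (R.op d) = R.vt d := by rw [hd, R.op_op]

@[simp] theorem vt_op (d : D) : R.vt (R.op d) = R.hd d := rfl

theorem hd_d0 : R.hd R.d0 = R.root := by rw [hd, R.op_d0, root]

theorem op_inj {d e : D} (h : R.op d = R.op e) : d = e := by
  rw [← R.op_op d, h, R.op_op]

variable {R}

theorem τ_hd {d : D} (h : R.fw d) : R.τ (R.vt d) < R.τ (R.hd d) := R.τ_lt d h

theorem not_fw_op {d : D} (h : R.fw d) : ¬ R.fw (R.op d) := fun h' => by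
  have a := τ_hd h
  have b := τ_hd h'
  rw [hd_op, vt_op] at b
  omega

theorem not_fw_d0 : ¬ R.fw R.d0 := fun h => not_fw_op h (by rwa [R.op_d0])

theorem le.trans {a b c : V} (h : R.le a b) (h' : R.le b c) : R.le a c := ReflTransGen.trans h h'

theorem adj.le {a b : V} (h : R.adj a b) : R.le a b := ReflTransGen.single h

theorem adj_hd {d : D} (h : R.fw d) : R.adj (R.vt d) (R.hd d) := ⟨d, h, rfl, rfl⟩

theorem le_hd {d : D} (h : R.fw d) : R.le (R.vt d) (R.hd d) := (adj_hd h).le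

theorem adj.τ_lt {a b : V} (h : R.adj a b) : R.τ a < R.τ b := by
  obtain ⟨d, h, rfl, rfl⟩ := h
  exact τ_hd h

theorem le.eq_or_lt {a b : V} (h : R.le a b) : a = b ∨ R.τ a < R.τ b := by
  induction h with
  | refl => exact Or.inl rfl
  | tail _ h2 ih =>
    have := h2.τ_lt
    rcases ih with rfl | ih
    · exact Or.inr this
    · exact Or.inr (ih.trans this)

theorem le.τ_le {a b : V} (h : R.le a b) : R.τ a ≤ R.τ b := by
  rcases h.eq_or_lt with rfl | h
  · exact le_rfl
  · exact h.le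

theorem le.antisymm {a b : V} (h : R.le a b) (h' : R.le b a) : a = b := by
  have := h'.τ_le
  rcases h.eq_or_lt with h | h
  · exact h
  · omega

theorem green.le {a b : V} (h : R.green a) (h' : R.le a b) : R.green b := RP.le.trans h h'

variable (R) in
/-- A spanning tree of the green part: `par v` is the dart at `v` of the edge from its parent. -/
structure Tree where
  par : V → D
  vt_par : ∀ v, R.green v → R.vt (par v) = v
  par_root : par R.root = R.d0
  fw_par : ∀ v, R.green v → v ≠ R.root → R.fw (R.op (par v))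
  gr_par : ∀ v, R.green v → R.green (R.hd (par v))

namespace Tree

variable [Fintype V] (T : R.Tree)

open Classical in
noncomputable def F : Forest V :=
  Forest.ofMeasure (fun v => if R.green v ∧ v ≠ R.root then some (R.hd (T.par v)) else none) R.τ
    (by
      intro u v h
      split_ifs at h with hu
      cases h
      have := τ_hd (T.fw_par u hu.1 hu.2)
      rwa [hd_op, vt_op, T.vt_par u hu.1] at this)

theorem up_iff {v u : V} : T.F.up v = some u ↔ R.green v ∧ v ≠ R.root ∧ R.hd (T.par v) = u := by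
  simp only [F, Forest.ofMeasure]
  split_ifs with h
  · simp [h.1, h.2]
  · simp only [false_iff]
    exact fun h' => h ⟨h'.1, h'.2.1⟩

/-- `v` lies on the tree path to `b`. -/
def Anc (v b : V) : Prop := T.F.Anc v b

/-- `f` is a forward dart of the tree path to `b`. -/
def On (b : V) (f : D) : Prop := R.fw f ∧ T.par (R.hd f) = R.op f ∧ T.Anc (R.hd f) b

/-- The tree path to `b` leaves the tree path to `x` before it in the order `ρ`. -/
def Lf (ρ : D → ℤ) (b x : V) : Prop :=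
  ∃ f e, T.On b f ∧ T.On x e ∧ R.vt f = R.vt e ∧ Bt (ρ (T.par (R.vt f))) (ρ f) (ρ e)

/-- Every tree path is lexicographically first. -/
def IsLex (ρ : D → ℤ) : Prop :=
  ∀ b f e, R.green b → T.On b f → R.fw e → R.vt e = R.vt f → R.le (R.hd e) b →
    ¬ Bt (ρ (T.par (R.vt f))) (ρ e) (ρ f)

/-- `M` is a subtree with root `r`. -/
def Sub (M : V → Prop) (r : V) : Prop :=
  M r ∧ ∀ v, M v → R.green v ∧ T.Anc r v ∧ (v ≠ r → M (R.hd (T.par v)))

theorem anc_refl (b : V) : T.Anc b b := Forest.Anc.refl _ _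

variable {T}

theorem Anc.trans {u v w : V} (h : T.Anc u v) (h' : T.Anc v w) : T.Anc u w :=
  Forest.Anc.trans h h'

theorem Anc.total {u v b : V} (h : T.Anc u b) (h' : T.Anc v b) : T.Anc u v ∨ T.Anc v u :=
  Forest.Anc.total h h'

theorem adj_par {v : V} (h : R.green v) (h' : v ≠ R.root) : R.adj (R.hd (T.par v)) v :=
  ⟨_, T.fw_par v h h', rfl, by rw [hd_op, T.vt_par v h]⟩

theorem anc_par {v : V} (h : R.green v) : T.Anc (R.hd (T.par v)) v := by
  by_cases h' : v = R.root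
  · rw [h', T.par_root, hd_d0]
    exact T.anc_refl _
  · exact Forest.Anc.up (T.anc_refl v) (T.up_iff.2 ⟨h, h', rfl⟩)

/-- A property which passes to parents holds on the whole tree path. -/
theorem anc_ind {P : V → Prop} {b : V} (h0 : P b)
    (hs : ∀ c, T.Anc c b → R.green c → c ≠ R.root → P c → P (R.hd (T.par c))) {c : V}
    (h : T.Anc c b) : P c :=
  T.F.anc_induction (P := P) h0 (fun c u h1 h2 h3 => by
    obtain ⟨a1, a2, rfl⟩ := T.up_iff.1 h3
    exact hs c h1 a1 a2 h2) h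

theorem Anc.le {v b : V} (h : T.Anc v b) : R.le v b :=
  anc_ind (P := fun c => R.le c b) (R.le_refl b)
    (fun _ _ h2 h3 h4 => (adj_par h2 h3).le.trans h4) h

theorem Anc.green {v b : V} (h : T.Anc v b) (hb : R.green b) : R.green v :=
  anc_ind (P := fun c => R.green c) hb (fun c _ h2 _ _ => T.gr_par c h2) h

theorem Anc.antisymm {u v : V} (h : T.Anc u v) (h' : T.Anc v u) : u = v := h.le.antisymm h'.le

theorem Anc.of_τ {u v b : V} (h : T.Anc u b) (h' : T.Anc v b) (hτ : R.τ u ≤ R.τ v) :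
    T.Anc u v := by
  rcases h.total h' with k | k
  · exact k
  · rcases k.le.eq_or_lt with rfl | k'
    · exact T.anc_refl _
    · omega

theorem Anc.cases_tail {u v : V} (h : T.Anc u v) :
    u = v ∨ (R.green v ∧ v ≠ R.root ∧ T.Anc u (R.hd (T.par v))) := by
  rcases Forest.Anc.cases_tail h with h | ⟨c, h1, h2⟩
  · exact Or.inl h
  · obtain ⟨a1, a2, rfl⟩ := T.up_iff.1 h1
    exact Or.inr ⟨a1, a2, h2⟩

/-- Induction from the root upwards. -/
theorem root_ind (T : R.Tree) {P : V → Prop} (h0 : P R.root)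
    (hs : ∀ v, R.green v → v ≠ R.root → P (R.hd (T.par v)) → P v) {v : V} (hv : R.green v) :
    P v := by
  induction v using T.F.wf.induction with
  | _ v ih =>
    by_cases h : v = R.root
    · rw [h]; exact h0
    · exact hs v hv h (ih _ (T.up_iff.2 ⟨hv, h, rfl⟩) (T.gr_par v hv))

theorem root_anc (T : R.Tree) {b : V} (hb : R.green b) : T.Anc R.root b :=
  T.root_ind (P := fun v => T.Anc R.root v) (T.anc_refl _)
    (fun _ h1 _ h3 => h3.trans (anc_par h1)) hb

theorem not_fw_par {v : V} (h : R.green v) : ¬ R.fw (T.par v) := by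
  by_cases h' : v = R.root
  · rw [h', T.par_root]; exact not_fw_d0
  · intro k
    exact not_fw_op k (T.fw_par v h h')

theorem fw_ne_par {v : V} {e : D} (h : R.green v) (he : R.fw e) : e ≠ T.par v :=
  fun k => not_fw_par (T := T) h (k ▸ he)

theorem on_par {v b : V} (h : T.Anc v b) (hv : R.green v) (h' : v ≠ R.root) :
    T.On b (R.op (T.par v)) := by
  refine ⟨T.fw_par v hv h', ?_, ?_⟩
  · rw [hd_op, T.vt_par v hv, R.op_op]
  · rw [hd_op, T.vt_par v hv]; exact h

theorem On.le {b : V} {f : D} (h : T.On b f) : R.le (R.hd f) b := h.2.2.le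

theorem On.τ_lt {b : V} {f : D} (h : T.On b f) : R.τ (R.vt f) < R.τ b :=
  lt_of_lt_of_le (τ_hd h.1) h.le.τ_le

theorem On.vt_ne {b : V} {f : D} (h : T.On b f) : R.vt f ≠ b := fun k => by
  have := h.τ_lt
  rw [k] at this
  omega

theorem On.trans {b v : V} {f : D} (h : T.On v f) (h' : T.Anc v b) : T.On b f :=
  ⟨h.1, h.2.1, h.2.2.trans h'⟩

theorem On.anc_hd {b : V} {f : D} (h : T.On b f) (hb : R.green b) : T.Anc (R.vt f) (R.hd f) := by
  have := anc_par (T := T) (h.2.2.green hb)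
  rwa [h.2.1, hd_op] at this

theorem On.anc_vt {b : V} {f : D} (h : T.On b f) (hb : R.green b) : T.Anc (R.vt f) b :=
  (h.anc_hd hb).trans h.2.2

theorem On.green_vt {b : V} {f : D} (h : T.On b f) (hb : R.green b) : R.green (R.vt f) :=
  (h.anc_vt hb).green hb

theorem On.eq_of_hd {b b' : V} {e f : D} (h : T.On b e) (h' : T.On b' f)
    (hh : R.hd e = R.hd f) : e = f := R.op_inj (by rw [← h.2.1, ← h'.2.1, hh])

theorem On.eq_of_vt {b : V} {e f : D} (h : T.On b e) (h' : T.On b f) (hh : R.vt e = R.vt f) :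
    e = f := by
  have key : ∀ {e f : D}, T.On b e → T.On b f → R.vt e = R.vt f → T.Anc (R.hd e) (R.hd f) →
      e = f := by
    intro e f h h' hh ha
    rcases ha.cases_tail with k | ⟨_, _, k⟩
    · exact h.eq_of_hd h' k
    · rw [h'.2.1, hd_op, ← hh] at k
      have a := k.le.τ_le
      have b := τ_hd h.1
      omega
  rcases h.2.2.total h'.2.2 with k | k
  · exact key h h' hh k
  · exact (key h' h hh.symm k).symm

theorem Anc.exists_out {v b : V} (h : T.Anc v b) (hne : v ≠ b) :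
    ∃ f, T.On b f ∧ R.vt f = v := by
  rcases Forest.Anc.cases h with k | ⟨c, h1, h2⟩
  · exact absurd k hne
  · obtain ⟨a1, a2, a3⟩ := T.up_iff.1 h1
    exact ⟨_, on_par h2 a1 a2, a3⟩

/-- A vertex of the tree path lies before or after a given dart of the path. -/
theorem On.split {b v : V} {f : D} (h : T.On b f) (hv : T.Anc v b) :
    T.Anc v (R.vt f) ∨ T.Anc (R.hd f) v := by
  rcases hv.total h.2.2 with k | k
  · rcases k.cases_tail with k' | ⟨_, _, k'⟩
    · rw [k']; exact Or.inr (T.anc_refl _)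
    · rw [h.2.1, hd_op] at k'
      exact Or.inl k'
  · exact Or.inr k

/-- Two tree paths: one contains the other or they diverge. -/
theorem diverge (T : R.Tree) {x b : V} (hx : R.green x) (hb : R.green b) :
    T.Anc x b ∨ T.Anc b x ∨ ∃ f e, T.On b f ∧ T.On x e ∧ R.vt f = R.vt e ∧ f ≠ e := by
  refine T.root_ind (P := fun x => T.Anc x b ∨ T.Anc b x ∨
    ∃ f e, T.On b f ∧ T.On x e ∧ R.vt f = R.vt e ∧ f ≠ e) (Or.inl (T.root_anc hb)) ?_ hx
  intro v hv hr ih
  rcases ih with k | k | ⟨f, e, k1, k2, k3, k4⟩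
  · by_cases h : R.hd (T.par v) = b
    · exact Or.inr (Or.inl (h ▸ anc_par hv))
    · obtain ⟨f, k1, k2⟩ := k.exists_out h
      have k3 := on_par (T.anc_refl v) hv hr
      by_cases k4 : f = R.op (T.par v)
      · have := k1.2.2
        rw [k4, hd_op, T.vt_par v hv] at this
        exact Or.inl this
      · exact Or.inr (Or.inr ⟨f, _, k1, k3, k2, k4⟩)
  · exact Or.inr (Or.inl (k.trans (anc_par hv)))
  · exact Or.inr (Or.inr ⟨f, e, k1, k2.trans (anc_par hv), k3, k4⟩)

/-- After a divergence the two tree paths are disjoint. -/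
theorem On.disj {x b v : V} {f e : D} (hf : T.On b f) (he : T.On x e) (h : R.vt f = R.vt e)
    (hne : f ≠ e) (h1 : T.Anc (R.hd e) v) : ¬ T.Anc v b := fun h2 =>
  hne (hf.eq_of_vt ⟨he.1, he.2.1, h1.trans h2⟩ h)

theorem Lf.trans_anc {ρ : D → ℤ} {t x b y : V} (h : T.Lf ρ t x) (h1 : T.Anc t b)
    (h2 : T.Anc x y) : T.Lf ρ b y := by
  obtain ⟨f, e, k1, k2, k3, k4⟩ := h
  exact ⟨f, e, k1.trans h1, k2.trans h2, k3, k4⟩

end Tree

variable (R) in
/-- `a` reaches the dart `c` at a vertex of `M` by a path which stays outside `M`. -/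
def Rch (M : V → Prop) (a : V) (c : D) : Prop :=
  M (R.vt c) ∧ R.fw (R.op c) ∧ ¬ M a ∧ ReflTransGen (fun u v => R.adj u v ∧ ¬ M v) a (R.hd c)

section blocks
variable [Fintype V] (L W : R.Tree)

/-- Common points of the two tree paths. -/
def Com (t b : V) : Prop := L.Anc t b ∧ W.Anc t b

/-- The boundary of the last block of `t`. -/
def Bd (t v : V) : Prop :=
  R.green t ∧ (L.Anc v t ∨ W.Anc v t) ∧ ∀ s, Com L W s t → s ≠ t → R.le s v

/-- Local rules along the side of the last block of `t` which lies on `L`. -/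
structure Side (ρ : D → ℤ) (t : V) (I : V → Prop) : Prop where
  left : ∀ f e, L.On t f → Bd L W t (R.vt f) → R.vt e = R.vt f → ¬ Bd L W t (R.hd e) →
    Bt (ρ (L.par (R.vt f))) (ρ e) (ρ f) → ¬ I (R.hd e)
  right : ∀ f e, L.On t f → Bd L W t (R.vt f) → R.vt e = R.vt f → ¬ Bd L W t (R.hd e) →
    Bt (ρ (L.par (R.vt f))) (ρ f) (ρ e) → ¬ W.Anc (R.vt f) t → I (R.hd e)
  bottom : ∀ f g e, L.On t f → W.On t g → Bd L W t (R.vt f) → R.vt g = R.vt f → R.vt e = R.vt f →
    ¬ Bd L W t (R.hd e) → Bt (ρ f) (ρ e) (ρ g) → I (R.hd e)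
  top : ∀ e, R.vt e = t → ¬ Bd L W t (R.hd e) →
    (I (R.hd e) ↔ Bt (ρ (W.par t)) (ρ e) (ρ (L.par t)))

/-- `I` is the inside of the last block of `t`. -/
structure Loc (t : V) (I : V → Prop) : Prop where
  nbd : ∀ x, I x → ¬ Bd L W t x
  per : ∀ u v, R.adj u v → ¬ Bd L W t u → ¬ Bd L W t v → (I u ↔ I v)
  root : ¬ I R.root
  sl : Side L W R.rk t I
  sr : Side W L (fun d => - R.rk d) t I

/-- Global properties of the blocks. -/
structure Blk (Ins : V → V → Prop) : Prop where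
  gr : ∀ t x, Ins t x → R.green t
  nbd : ∀ t x, Ins t x → ¬ Bd L W t x
  per : ∀ t u v, R.adj u v → ¬ Bd L W t u → ¬ Bd L W t v → (Ins t u ↔ Ins t v)
  bot : ∀ s t x, Com L W s t → s ≠ t → R.green x → Ins t x → R.le s x
  l1a : ∀ t x, R.green x → Ins t x → ¬ R.le t x →
    L.Lf R.rk t x ∧ W.Lf (fun d => - R.rk d) t x
  l1b : ∀ t x, Ins t x → R.le t x →
    Com L W t x ∧ ∀ b, L.Anc t b → b ≠ t → ¬ Ins t b → L.Lf R.rk b x
  l2 : ∀ x b, R.green x → R.green b → L.Lf R.rk b x → W.Lf (fun d => - R.rk d) b x →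
    ∃ t, Com L W t b ∧ Ins t x ∧ ¬ (R.le t x ∧ Ins t b)

variable {L W}

theorem Com.swap {t b : V} (h : Com L W t b) : Com W L t b := ⟨h.2, h.1⟩

theorem Bd.swap {t v : V} (h : Bd L W t v) : Bd W L t v :=
  ⟨h.1, h.2.1.symm, fun s hs => h.2.2 s hs.swap⟩

theorem bd_swap {t v : V} : Bd W L t v ↔ Bd L W t v := ⟨Bd.swap, Bd.swap⟩

theorem Bd.le {t v : V} (h : Bd L W t v) : R.le v t := h.2.1.elim (·.le) (·.le)

theorem Bd.green {t v : V} (h : Bd L W t v) : R.green v :=
  h.2.1.elim (·.green h.1) (·.green h.1)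

theorem bd_self {t : V} (h : R.green t) : Bd L W t t :=
  ⟨h, Or.inl (L.anc_refl t), fun _ hs _ => hs.1.le⟩

end blocks

end RP

/-! ### Statements -/

/-- Lexicographically first trees exist. -/
def S_lex : Prop := ∀ (V D : Type) [Fintype V] [Fintype D] (R : RP V D) (ρ : D → ℤ), R.Rk ρ →
  ∃ T : R.Tree, T.IsLex ρ

/-- Preorder and postorder of an ordered forest. -/
def S_for : Prop := ∀ (N α : Type) [Fintype N] [LinearOrder α] (F : Forest N) (rk : N → α),
  (∀ u v, F.up u = F.up v → rk u = rk v → u = v) → ∃ pre post : N → ℤ, Function.Injective pre ∧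
    (∀ u v, F.Anc u v ↔ pre u ≤ pre v ∧ post v ≤ post u) ∧
    ∀ u v, (∃ c c', F.Anc c u ∧ F.Anc c' v ∧ F.up c = F.up c' ∧ rk c < rk c') ↔
      pre u < pre v ∧ post u < post v

/-- Preorder and postorder of a tree. -/
def S_ord : Prop := ∀ (V D : Type) [Fintype V] [Fintype D] (R : RP V D) (T : R.Tree) (ρ : D → ℤ),
  R.Rk ρ → ∃ pre post : V → ℤ, Function.Injective pre ∧
    (∀ u v, T.Anc u v ↔ pre u ≤ pre v ∧ post v ≤ post u) ∧
    ∀ u v, R.green u → R.green v → (T.Lf ρ u v ↔ pre u < pre v ∧ post u < post v)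

/-- The inside of a block. -/
def S_col : Prop := ∀ (V D : Type) [Fintype V] [Fintype D] (R : RP V D) (L W : R.Tree),
  L.IsLex R.rk → W.IsLex (fun d => - R.rk d) → ∀ t, R.green t → ∃ I, RP.Loc L W t I

/-- A vertex in the shadow of `b` lies inside a block of `b`. -/
def S_l2 : Prop := ∀ (V D : Type) [Fintype V] [Fintype D] (R : RP V D) (L W : R.Tree),
  L.IsLex R.rk → W.IsLex (fun d => - R.rk d) → ∀ I : V → V → Prop,
    (∀ t, R.green t → RP.Loc L W t (I t)) → ∀ x b, R.green x → R.green b → L.Lf R.rk b x →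
      W.Lf (fun d => - R.rk d) b x → ∃ t, RP.Com L W t b ∧ I t x ∧ ¬ (R.le t x ∧ I t b)

/-- From the local rules to the global properties. -/
def S_blk : Prop := ∀ (V D : Type) [Fintype V] [Fintype D] (R : RP V D) (L W : R.Tree),
  L.IsLex R.rk → W.IsLex (fun d => - R.rk d) → (∀ t, R.green t → ∃ I, RP.Loc L W t I) →
    ∃ Ins, RP.Blk L W Ins

/-- The contour of a tree: positions of the darts. -/
structure Cont {V D : Type} [Fintype V] [Fintype D] {R : RP V D} (T : R.Tree) (pos : D → ℤ)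
    (en : V → ℤ) : Prop where
  inj : Function.Injective pos
  iv : ∀ u d, R.green u → R.green (R.vt d) →
    (T.Anc u (R.vt d) ↔ pos (T.par u) ≤ pos d ∧ pos d ≤ en u)
  mono : ∀ u v, R.green v → T.Anc u v → en v ≤ en u
  loc : ∀ d e, R.green (R.vt d) → R.vt e = R.vt d → e ≠ T.par (R.vt d) →
    (pos d < pos e ↔ d = T.par (R.vt d) ∨ Bt (R.rk (T.par (R.vt d))) (R.rk d) (R.rk e))
  child : ∀ g d c, T.On (R.vt c) g → R.green (R.vt c) → R.vt d = R.vt g →
    (pos d < pos c ↔ pos d ≤ pos g)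

def S_pos : Prop := ∀ (V D : Type) [Fintype V] [Fintype D] (R : RP V D) (T : R.Tree),
  ∃ pos en, Cont T pos en

/-- No two reach sets cross. -/
def NoCross {A C : Type} (pos : C → ℤ) (Reach : A → C → Prop) : Prop :=
  ∀ a a' c1 c2 c3 c4, pos c1 < pos c2 → pos c2 < pos c3 → pos c3 < pos c4 → Reach a c1 →
    Reach a' c2 → Reach a c3 → Reach a' c4 →
    (Reach a' c1 ∨ Reach a' c3) ∧ (Reach a c2 ∨ Reach a c4)

/-- Paths outside a subtree which join interleaved darts meet. -/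
def S_cross : Prop := ∀ (V D : Type) [Fintype V] [Fintype D] (R : RP V D) (T : R.Tree)
  (pos : D → ℤ) (en : V → ℤ), Cont T pos en → ∀ M r, T.Sub M r → NoCross pos (R.Rch M)

/-- A system of nested ranges. -/
def Nested {A C : Type} (pos : C → ℤ) (Reach : A → C → Prop) (l r : A → C) : Prop :=
  (∀ a, Reach a (l a) ∧ Reach a (r a) ∧ pos (l a) ≤ pos (r a)) ∧
    ∀ a a' y, Reach a y → pos (l a') ≤ pos y → pos y ≤ pos (r a') → ¬ Reach a' y →
      pos (l a') ≤ pos (l a) ∧ pos (r a) ≤ pos (r a') ∧ (l a = l a' → r a = r a' →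
        ∀ q, pos (l a) ≤ pos q → pos q ≤ pos (r a) → Reach a' q → Reach a q)

/-- Two systems of nested ranges cover the reach sets. -/
def S_rng : Prop := ∀ (A C : Type) [Fintype A] [Fintype C] (pos : C → ℤ) (Reach : A → C → Prop),
  Function.Injective pos → (∀ a, ∃ c, Reach a c) → NoCross pos Reach →
  ∃ l r l' r' : A → C, Nested pos Reach l r ∧ Nested pos Reach l' r' ∧ ∀ a c, Reach a c →
    (pos (l a) ≤ pos c ∧ pos c ≤ pos (r a)) ∨ (pos (l' a) ≤ pos c ∧ pos c ≤ pos (r' a))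

/-- The line lemma for families without crossings. -/
def S_line : Prop := ∃ N : ℕ, ∀ (A B C : Type) [Fintype A] [Fintype B] [Fintype C]
  (pos r : C → ℤ) (p : B → ℤ) (Reach : A → C → Prop),
  Function.Injective pos → (∀ b c, p b ≠ pos c) → (∀ c, pos c ≤ r c) →
  (∀ c c', pos c < pos c' → pos c' ≤ r c → r c' ≤ r c) → NoCross pos Reach →
  BDec N (fun a b => ∃ c, Reach a c ∧ pos c < p b ∧ p b ≤ r c)

/-- Hitting a tree path from outside a subtree. -/
def S_hit : Prop := ∃ N : ℕ, ∀ (V D : Type) [Fintype V] [Fintype D] (R : RP V D) (T : R.Tree)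
  (M : V → Prop) (r : V), T.Sub M r →
    BDec N (fun a b : V => M b ∧ ∃ c, R.Rch M a c ∧ T.Anc (R.vt c) b)

/-- Nested instances. -/
def S_nest : Prop := ∀ N : ℕ, ∃ N' : ℕ, ∀ (V : Type) [Fintype V] (F : Forest V)
  (tg : V → Option V) (Q : V → V → V → Prop), (∀ a t, tg a = some t → F.up a = F.up t) →
  (∀ t, BDec N (Q t)) →
    Dec N' (fun a b => ∃ t c, tg a = some t ∧ F.up c = some t ∧ F.Anc c b ∧ Q t a c)

/-- Reachability towards green vertices. -/
def S_rs : Prop := ∃ N : ℕ, ∀ (V D : Type) [Fintype V] [Fintype D] (R : RP V D),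
  Dec N (fun a b => R.green b ∧ R.le a b)

/-- Reachability in plane acyclic digraphs. -/
def S_all : Prop := ∃ N : ℕ, ∀ (V : Type) [Fintype V] (A : V → V → Prop) (τ : V → ℤ),
  (∀ a b, A a b → τ a < τ b) → Plane A → Dec N (ReflTransGen A)

/-- A drawing with straight edges. -/
def SL {V : Type} (A : V → V → Prop) (f : V → ℝ × ℝ) : Prop :=
  Function.Injective f ∧ (∀ a b w, A a b → f w ∉ openSegment ℝ (f a) (f b)) ∧
    ∀ a b c d, A a b → A c d → (a ≠ c ∨ b ≠ d) →
      Disjoint (openSegment ℝ (f a) (f b)) (openSegment ℝ (f c) (f d))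

/-- An upward combinatorial drawing gives a plane structure. -/
def S_up : Prop := ∀ (V E : Type) [Fintype V] [Fintype E] (S : UP V E),
  ∃ G : PL V (E × Bool), (∀ e b, G.op (e, b) = (e, !b)) ∧ (∀ e, G.vt (e, true) = S.tail e) ∧
    ∀ e, G.vt (e, false) = S.head e

def S_draw : Prop := ∀ (V : Type) [Fintype V] (A : V → V → Prop) (τ : V → ℤ) (f : V → ℝ × ℝ),
  (∀ a b, A a b → τ a < τ b) → SL A f → Plane A

/-- A drawing with continuous edges. -/
def CD {V : Type} (A : V → V → Prop) (f : V → ℝ × ℝ) (γ : V → V → ℝ → ℝ × ℝ) : Prop :=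
  Function.Injective f ∧
    (∀ a b, A a b → ContinuousOn (γ a b) (Set.Icc (0:ℝ) 1) ∧ γ a b 0 = f a ∧ γ a b 1 = f b) ∧
    (∀ a b e, A a b → ∀ s ∈ Set.Ioo (0:ℝ) 1, γ a b s ≠ f e) ∧
    ∀ a b c d, A a b → A c d → (a ≠ c ∨ b ≠ d) →
      ∀ s ∈ Set.Ioo (0:ℝ) 1, ∀ t ∈ Set.Icc (0:ℝ) 1, γ a b s ≠ γ c d t

/-- Distance of lattice points in the maximum norm. -/
def sd (p q : ℤ × ℤ) : ℤ := max |p.1 - q.1| |p.2 - q.2|

/-- A drawing in the lattice: vertices are squares, edges are disjoint lattice paths outside the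
open squares. -/
structure GD {V : Type} (A : V → V → Prop) (c : V → ℤ × ℤ) (r : ℤ) (k : V → V → ℕ)
    (p : V → V → ℕ → ℤ × ℤ) : Prop where
  pos : 0 < r
  far : ∀ u v, u ≠ v → 2 * r < sd (c u) (c v)
  step : ∀ a b, A a b → ∀ i < k a b,
    |(p a b (i + 1)).1 - (p a b i).1| + |(p a b (i + 1)).2 - (p a b i).2| = 1
  out : ∀ a b, A a b → ∀ i ≤ k a b, ∀ v, r ≤ sd (p a b i) (c v)
  first : ∀ a b, A a b → sd (p a b 0) (c a) = r
  last : ∀ a b, A a b → sd (p a b (k a b)) (c b) = r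
  inj : ∀ a b a' b', A a b → A a' b' → ∀ i ≤ k a b, ∀ j ≤ k a' b', p a b i = p a' b' j →
    a = a' ∧ b = b' ∧ i = j

/-- The lattice point `q` is close to the point `x`. -/
def Nr (q : ℤ × ℤ) (x : ℝ × ℝ) : Prop := |(q.1 : ℝ) - x.1| < 1 ∧ |(q.2 : ℝ) - x.2| < 1

/-- A curve is shadowed by a simple lattice path. -/
def S_lat : Prop := ∀ (σ : ℝ → ℝ × ℝ) (s t : ℝ) (q q' : ℤ × ℤ), s ≤ t →
  ContinuousOn σ (Set.Icc s t) → Nr q (σ s) → Nr q' (σ t) → ∃ (k : ℕ) (p : ℕ → ℤ × ℤ),
    p 0 = q ∧ p k = q' ∧ (∀ i < k, |(p (i + 1)).1 - (p i).1| + |(p (i + 1)).2 - (p i).2| = 1) ∧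
    (∀ i ≤ k, ∀ j ≤ k, p i = p j → i = j) ∧ ∀ i ≤ k, ∃ u ∈ Set.Icc s t, Nr (p i) (σ u)

def S_g1 : Prop := ∀ (V : Type) [Fintype V] (A : V → V → Prop) (f : V → ℝ × ℝ)
  (γ : V → V → ℝ → ℝ × ℝ), (∀ a, ¬ A a a) → CD A f γ → ∃ c r k p, GD A c r k p

def S_g2 : Prop := ∀ (V : Type) [Fintype V] (A : V → V → Prop) (τ : V → ℤ) (c : V → ℤ × ℤ)
  (r : ℤ) (k : V → V → ℕ) (p : V → V → ℕ → ℤ × ℤ), (∀ a b, A a b → τ a < τ b) → GD A c r k p →
  ∃ (V' : Type) (_ : Fintype V') (A' : V' → V' → Prop) (τ' : V' → ℤ) (f' : V' → ℝ × ℝ)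
    (ι : V → V'), (∀ a b, A' a b → τ' a < τ' b) ∧ SL A' f' ∧ Function.Injective ι ∧
      ∀ a b, ReflTransGen A a b ↔ ReflTransGen A' (ι a) (ι b)

end Pool.Agent.MP_a17da5_co.PC
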