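import Pool.Agent.MP_a17da5_co.PC.St

/-!
An upward combinatorial drawing gives a plane structure.
-/

set_option autoImplicit false

namespace Pool.Agent.MP_a17da5_co.PC

namespace UpX

variable {V E : Type} [Fintype E] (S : UP V E)

/-- The vertex of a dart. -/
def vt (d : E × Bool) : V := if d.2 = true then S.tail d.1 else S.head d.1

/-- The clockwise rank of a dart. -/
noncomputable def rk (d : E × Bool) : ℤ :=
  if d.2 = true then Base.rk S S.tail d.1
  else 2 * (Fintype.card E : ℤ) + 1 - Base.rk S S.head d.1

omit [Fintype E] in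
theorem vt_t (e : E) : vt S (e, true) = S.tail e := rfl

omit [Fintype E] in
theorem vt_f (e : E) : vt S (e, false) = S.head e := rfl

theorem rk_t (e : E) : rk S (e, true) = Base.rk S S.tail e := rfl

theorem rk_f (e : E) :
    rk S (e, false) = 2 * (Fintype.card E : ℤ) + 1 - Base.rk S S.head e := rfl

theorem rk_le (k : E → V) (e : E) : Base.rk S k e ≤ (Fintype.card E : ℤ) := by
  unfold Base.rk
  exact_mod_cast Finset.card_le_univ _

theorem rk_inj (d e : E × Bool) (h : vt S d = vt S e) (h' : rk S d = rk S e) : d = e := by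
  obtain ⟨d, a⟩ := d
  obtain ⟨e, b⟩ := e
  have a1 := rk_le S S.tail d
  have a2 := rk_le S S.head d
  have a3 := rk_le S S.tail e
  have a4 := rk_le S S.head e
  cases a <;> cases b
  · rw [rk_f, rk_f] at h'
    rw [Base.rk_inj S _ (Base.gap_head S) (e := d) (e' := e) h (by omega)]
  · rw [rk_f, rk_t] at h'
    omega
  · rw [rk_f, rk_t] at h'
    omega
  · rw [Base.rk_inj S _ (Base.gap_tail S) (e := d) (e' := e) h h']

theorem sum_prod (Y : E × Bool → ZMod 2) (h : ∀ e, Y (e, false) = Y (e, true))
    (P : E × Bool → Prop) :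
    sumOn Y P = sumOn (fun e => Y (e, true)) (fun e => P (e, true)) +
      sumOn (fun e => Y (e, true)) (fun e => P (e, false)) := by
  unfold sumOn
  rw [Fintype.sum_prod_type, ← Finset.sum_add_distrib]
  refine Finset.sum_congr rfl fun e _ => ?_
  rw [Fintype.sum_bool, h]

theorem sum_le (Y : E × Bool → ZMod 2) (d : E × Bool) :
    sumOn Y (fun f => vt S f = vt S d ∧ rk S f ≤ rk S d) =
      sumOn Y (fun f => vt S f = vt S d ∧ rk S f < rk S d) + Y d := by
  rw [← sumOn_single Y d, sumOn_xor]
  refine sumOn_congr fun f _ => ?_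
  by_cases hf : f = d
  · simp [hf]
  · simp only [hf, iff_false, not_not]
    exact and_congr_right fun h =>
      ⟨fun k => lt_of_le_of_ne k fun k' => hf (rk_inj S f d h k'), le_of_lt⟩

theorem key (Y : E × Bool → ZMod 2) (h : ∀ e, Y (e, false) = Y (e, true))
    (h0 : ∀ v, sumOn Y (fun d => vt S d = v) = 0) (e : E) :
    Base.wv S (fun e => Y (e, true)) (S.tail e) +
        sumOn Y (fun f => vt S f = vt S (e, true) ∧ rk S f < rk S (e, true)) =
      Base.wv S (fun e => Y (e, true)) (S.head e) +
        sumOn Y (fun f => vt S f = vt S (e, false) ∧ rk S f ≤ rk S (e, false)) := by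
  have ev : ∀ v, sumOn (fun e => Y (e, true)) (fun e => S.head e = v) =
      sumOn (fun e => Y (e, true)) fun e => S.tail e = v := fun v => by
    have h1 := h0 v
    rw [sum_prod Y h] at h1
    exact (Base.z2_eq h1).symm
  have a1 : sumOn Y (fun f => vt S f = vt S (e, true) ∧ rk S f < rk S (e, true)) =
      sumOn (fun e => Y (e, true)) fun f => S.tail f = S.tail e ∧ S.lt f e := by
    rw [sum_prod Y h, sumOn_eq_zero (P := fun f =>
      vt S (f, false) = vt S (e, true) ∧ rk S (f, false) < rk S (e, true)), add_zero]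
    · exact sumOn_congr fun f _ => and_congr_right fun k =>
        (Base.rk_iff S _ (Base.gap_tail S) k).symm
    · rintro f ⟨-, k⟩
      have b1 := rk_le S S.tail e
      have b2 := rk_le S S.head f
      rw [rk_f, rk_t] at k
      omega
  have a2 : sumOn Y (fun f => vt S f = vt S (e, false) ∧ rk S f ≤ rk S (e, false)) =
      sumOn (fun e => Y (e, true)) fun f => S.head f = S.head e ∧ S.lt f e := by
    have b0 : sumOn (fun e => Y (e, true))
        (fun f => vt S (f, true) = vt S (e, false) ∧ rk S (f, true) ≤ rk S (e, false)) =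
        sumOn (fun e => Y (e, true)) fun f => S.tail f = S.head e := by
      refine sumOn_congr fun f _ => ⟨fun k => k.1, fun k => ⟨k, ?_⟩⟩
      have b1 := rk_le S S.tail f
      have b2 := rk_le S S.head e
      rw [rk_f, rk_t]
      omega
    rw [sum_prod Y h, b0, ← ev, sumOn_xor]
    refine sumOn_congr fun f _ => ?_
    rw [vt_f, vt_f, rk_f, rk_f]
    by_cases k : S.head f = S.head e
    · rw [Base.rk_iff S _ (Base.gap_head S) k]
      simp only [k, true_and, true_iff]
      omega
    · simp [k]
  have a3 := S.τ_lt e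
  rw [a1, a2, ← Base.side_out, ← Base.side_in]
  exact Base.side_const S _ ev e _ (by omega) (by omega)

/-- The plane structure. -/
noncomputable def pl : PL V (E × Bool) where
  vt := vt S
  op d := (d.1, !d.2)
  rk := rk S
  op_op d := by simp
  rk_inj := rk_inj S
  jordan Y h h0 := by
    have h1 : ∀ e, Y (e, false) = Y (e, true) := fun e => h (e, true)
    refine ⟨Base.wv S fun e => Y (e, true), ?_⟩
    rintro ⟨e, b⟩
    have k := key S Y h1 h0 e
    cases b
    · rw [sum_le, h1] at k
      show Base.wv S _ (S.head e) +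
          sumOn Y (fun f => vt S f = vt S (e, false) ∧ rk S f < rk S (e, false)) =
        Base.wv S _ (S.tail e) +
          sumOn Y (fun f => vt S f = vt S (e, true) ∧ rk S f ≤ rk S (e, true))
      rw [sum_le, ← add_assoc, k, add_assoc, add_assoc, z2_add_self, add_zero]
    · exact k

end UpX

theorem s_up : S_up := fun _ _ _ _ S =>
  ⟨UpX.pl S, fun _ _ => rfl, fun _ => rfl, fun _ => rfl⟩

end Pool.Agent.MP_a17da5_co.PC
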